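import Mathlib

/-!
# Reconstruction of random graphs from 2-neighbourhoods: common definitions

Random subsets, the random graph as a random set of pairs, 2-balls, view systems, 5-cycles,
typical graphs and the two kinds of codes.
-/

set_option autoImplicit false

open Finset Classical

namespace Pool.Agent.H90.Shot

section subsets

variable {α : Type*}

/-- weight of the subset `S` of `U` when every element of `U` is kept with probability `p` -/
noncomputable def bw (p : ℝ) (U S : Finset α) : ℝ := p ^ S.card * (1 - p) ^ (U.card - S.card)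

/-- expectation over the random subset of `U` -/
noncomputable def Ex (p : ℝ) (U : Finset α) (f : Finset α → ℝ) : ℝ :=
  ∑ S ∈ U.powerset, bw p U S * f S

/-- indicator -/
noncomputable def ind (P : Prop) : ℝ := if P then 1 else 0

/-- probability over the random subset of `U` -/
noncomputable def Pr (p : ℝ) (U : Finset α) (P : Finset α → Prop) : ℝ :=
  Ex p U (fun S => ind (P S))

end subsets

/-- probability for the random graph `G(n,p)`, in the form of the frozen statement -/
noncomputable def GP (n : ℕ) (p : ℝ) (P : SimpleGraph (Fin n) → Prop) : ℝ :=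
  ∑ G : SimpleGraph (Fin n),
    if P G then p ^ G.edgeFinset.card * (1 - p) ^ (n.choose 2 - G.edgeFinset.card) else 0

/-- the set of pairs of distinct vertices -/
noncomputable def pairs (n : ℕ) : Finset (Sym2 (Fin n)) :=
  (⊤ : SimpleGraph (Fin n)).edgeFinset

section graphs

variable {V : Type*} [Fintype V]

/-- ball of radius 2 -/
def ball (G : SimpleGraph V) (v : V) : Set V := {w | G.edist v w ≤ 2}

/-- a system of rooted isomorphisms from the 2-balls of `H` to the 2-balls of `G` -/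
structure Views (G H : SimpleGraph V) where
  /-- the isomorphism at the root `v` -/
  g : V → V → V
  root : ∀ v, g v v = v
  bij : ∀ v, Set.BijOn (g v) (ball H v) (ball G v)
  adj : ∀ v, ∀ a ∈ ball H v, ∀ b ∈ ball H v, (H.Adj a b ↔ G.Adj (g v a) (g v b))

/-- 5-cycles as labelled closed walks `t 0, t 1, ..., t 4` -/
def IsC5 (G : SimpleGraph V) (t : Fin 5 → V) : Prop :=
  Function.Injective t ∧ ∀ i, G.Adj (t i) (t (i + 1))

/-- the five edges -/
noncomputable def ced (t : Fin 5 → V) : Finset (Sym2 V) := univ.image (fun i => s(t i, t (i + 1)))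

/-- the three edges not incident to the root `t 0` -/
noncomputable def far (t : Fin 5 → V) : Finset (Sym2 V) := {s(t 1, t 2), s(t 2, t 3), s(t 3, t 4)}

/-- number of labelled 5-cycles with first dart `(v, x)` -/
noncomputable def ncyc (G : SimpleGraph V) (v x : V) : ℕ :=
  (univ.filter fun t : Fin 5 → V => IsC5 G t ∧ t 0 = v ∧ t 1 = x).card

/-- typical graphs (range `2/3 < α < 3/4`) -/
structure Typ (G : SimpleGraph V) (D k₁ k₂ : ℕ) (T₁ T₂ : ℝ) : Prop where
  deg : ∀ v, (univ.filter fun z => G.Adj v z).card ≤ D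
  codeg : ∀ u v, u ≠ v → (univ.filter fun z => G.Adj u z ∧ G.Adj z v).card ≤ k₁
  path3 : ∀ u v, u ≠ v → (univ.filter fun z : V × V =>
    G.Adj u z.1 ∧ G.Adj z.1 z.2 ∧ G.Adj z.2 v ∧ z.1 ≠ v ∧ z.2 ≠ u).card ≤ k₂
  cyc_lb : ∀ v x, G.Adj v x → T₁ ≤ (ncyc G v x : ℝ)
  cyc_ub : ∀ v x, G.Adj v x → (ncyc G v x : ℝ) ≤ T₂

namespace Views

variable {G H : SimpleGraph V} (W : Views G H)

/-- the 5-cycle `t` of `H` as seen in `G` from its root `t 0` -/
def phi (t : Fin 5 → V) : Fin 5 → V := fun i => W.g (t 0) (t i)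

/-- right edges: seen as themselves from both ends -/
noncomputable def right : Finset (Sym2 V) :=
  univ.filter fun e => e ∈ H.edgeSet ∧ ∀ u v, e = s(u, v) → W.g u v = v

/-- wrong edges -/
noncomputable def wrong : Finset (Sym2 V) :=
  univ.filter fun e => e ∈ H.edgeSet ∧ e ∉ W.right

/-- all labelled 5-cycles of `H` -/
noncomputable def CH (_W : Views G H) : Finset (Fin 5 → V) := univ.filter fun t => IsC5 H t

/-- wrong edges of a cycle -/
noncomputable def wr (t : Fin 5 → V) : Finset (Sym2 V) := ced t ∩ W.wrong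

/-- right edges of a cycle -/
noncomputable def ri (t : Fin 5 → V) : Finset (Sym2 V) := ced t ∩ W.right

/-- popularity of the `G`-edge `g` for the `H`-edge `e` -/
noncomputable def pop (g e : Sym2 V) : ℕ :=
  (W.CH.filter fun t => e ∈ ced t ∧ g ∈ far (W.phi t)).card

/-- the far edge `g` of the view of `t` is unexplained (threshold `θ`) -/
def Unex (θ : ℝ) (t : Fin 5 → V) (g : Sym2 V) : Prop :=
  g ∈ far (W.phi t) ∧ g ∉ W.ri t ∧ ∀ e ∈ W.wr t, (W.pop g e : ℝ) < θ

end Views

/-! ### Codes of type II -/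

/-- an item: an `H`-cycle, the two inner vertices of the far path of its view, and flags for the
three far edges -/
abbrev Item (V : Type*) := (Fin 5 → V) × V × V × (Fin 3 → Bool)

section item

variable (E₁ : Finset (Sym2 V)) (ν : V → V → V)

/-- first vertex of the view -/
noncomputable def ix (i : Item V) : V := if s(i.1 0, i.1 1) ∈ E₁ then ν (i.1 0) (i.1 1) else i.1 1

/-- last vertex of the view -/
noncomputable def ic (i : Item V) : V := if s(i.1 0, i.1 4) ∈ E₁ then ν (i.1 0) (i.1 4) else i.1 4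

/-- the far edges of an item -/
noncomputable def fe (i : Item V) : Fin 3 → Sym2 V :=
  ![s(ix E₁ ν i, i.2.1), s(i.2.1, i.2.2.1), s(i.2.2.1, ic E₁ ν i)]

/-- the cycle edges of an item outside `E₁` -/
noncomputable def cyr (t : Fin 5 → V) : Finset (Sym2 V) := ced t \ E₁

/-- all `G`-edges of an item -/
noncomputable def iF (i : Item V) : Finset (Sym2 V) := cyr E₁ i.1 ∪ univ.image (fe E₁ ν i)

/-- edges of an item known to be right -/
noncomputable def iR (i : Item V) : Finset (Sym2 V) :=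
  cyr E₁ i.1 ∪ (univ.filter fun k => i.2.2.2 k = true).image (fe E₁ ν i)

/-- all edges of a family of items -/
noncomputable def tF (T : Finset (Item V)) : Finset (Sym2 V) := T.biUnion (iF E₁ ν)

/-- all edges of a family of items that are known to be right -/
noncomputable def tR (T : Finset (Item V)) : Finset (Sym2 V) := T.biUnion (iR E₁ ν)

/-- degree of a vertex in a set of pairs -/
noncomputable def dg (F : Finset (Sym2 V)) (v : V) : ℕ := (F.filter fun e => v ∈ e).card

/-- valid families of items; `m = j + 1` is the number of edges of a cycle in `E₁` -/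
structure ValidII (m M₀ D : ℕ) (T : Finset (Item V)) : Prop where
  inj : ∀ i ∈ T, Function.Injective i.1
  nE : ∀ i ∈ T, (ced i.1 ∩ E₁).card = m
  dist : ∀ i ∈ T, Function.Injective (fe E₁ ν i)
  deg : ∀ v, dg (tF E₁ ν T) v ≤ D
  priv : ∀ i ∈ T, ∃ k, fe E₁ ν i k ∉ cyr E₁ i.1 ∧ ∀ i' ∈ T, i' ≠ i → fe E₁ ν i k ∉ iF E₁ ν i'
  flag : ∀ i ∈ T, ∀ i' ∈ T, ∀ k, fe E₁ ν i k ∈ cyr E₁ i'.1 → i.2.2.2 k = true
  cnt : (univ.filter fun t : Fin 5 → V => Function.Injective t ∧ (ced t ∩ E₁).card = m ∧
    cyr E₁ t ⊆ tR E₁ ν T).card ≤ M₀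

end item

/-- the graph `G` has a code of type II -/
def CodeII (G : SimpleGraph V) (m M₀ D Δ₁ A₀ K : ℕ) : Prop :=
  ∃ (E₁ : Finset (Sym2 V)) (ν : V → V → V) (T : Finset (Item V)),
    E₁.card ≤ A₀ ∧ (∀ v, dg E₁ v ≤ Δ₁) ∧ (∀ u v, s(u, v) ∉ E₁ → ν u v = v) ∧
    T.card = K ∧ ValidII E₁ ν m M₀ D T ∧ (tF E₁ ν T : Set (Sym2 V)) ⊆ G.edgeSet

/-! ### Codes of type I -/

/-- an item: an `H`-cycle `t` (with `s(t 0, t 1)` a new wrong edge) and the partners of
`t 1` seen from `t 0` and of `t 0` seen from `t 1` -/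
abbrev Item1 (V : Type*) := (Fin 5 → V) × V × V

section item1

variable (E₁ : Finset (Sym2 V)) (al : Sym2 V → Finset V)

/-- candidates for partners predicted by the cycle `t` -/
noncomputable def cand (t : Fin 5 → V) : Finset V := (ced t ∩ E₁).biUnion al

/-- the two partner edges -/
noncomputable def pe (i : Item1 V) : Finset (Sym2 V) := {s(i.1 0, i.2.1), s(i.1 1, i.2.2)}

/-- the edges of an item: right edges of the cycle and the two partner edges -/
noncomputable def iF1 (i : Item1 V) : Finset (Sym2 V) :=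
  ((ced i.1 \ E₁).erase s(i.1 0, i.1 1)) ∪ pe i

/-- all edges of a family -/
noncomputable def tF1 (T : Finset (Item1 V)) : Finset (Sym2 V) := T.biUnion (iF1 E₁)

/-- valid families of items -/
structure ValidI (D : ℕ) (T : Finset (Item1 V)) : Prop where
  inj : ∀ i ∈ T, Function.Injective i.1
  newE : ∀ i ∈ T, s(i.1 0, i.1 1) ∉ E₁
  nE : ∀ i ∈ T, (ced i.1 ∩ E₁).Nonempty
  px : ∀ i ∈ T, i.2.1 ∈ insert (i.1 1) (cand E₁ al i.1)
  py : ∀ i ∈ T, i.2.2 ∈ insert (i.1 0) (cand E₁ al i.1)
  ne : ∀ i ∈ T, s(i.1 0, i.2.1) ≠ s(i.1 1, i.2.2)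
  deg : ∀ v, dg (tF1 E₁ T) v ≤ D
  priv : ∀ i ∈ T, ∀ e ∈ pe i, e ∉ (ced i.1 \ E₁).erase s(i.1 0, i.1 1) ∧
    ∀ i' ∈ T, i' ≠ i → e ∉ iF1 E₁ i'

end item1

/-- the graph `G` has a code of type I -/
def CodeI (G : SimpleGraph V) (D A₀ KA K : ℕ) : Prop :=
  ∃ (E₁ : Finset (Sym2 V)) (al : Sym2 V → Finset V) (T : Finset (Item1 V)),
    E₁.card ≤ A₀ ∧ (∀ v, dg E₁ v ≤ D) ∧ (∀ e, e ∉ E₁ → al e = ∅) ∧ (∀ e, (al e).card ≤ KA) ∧
    T.card = K ∧ ValidI E₁ al D T ∧ (tF1 E₁ T : Set (Sym2 V)) ⊆ G.edgeSet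

end graphs

end Pool.Agent.H90.Shot
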