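import Mathlib
import Pool.Agent.H90.Shot.Defs

/-!
# Random subsets: elementary probability
-/

set_option autoImplicit false

open Finset Classical

namespace Pool.Agent.H90.Shot

theorem ind_true {P : Prop} (h : P) : ind P = 1 := if_pos h

theorem ind_false {P : Prop} (h : ¬ P) : ind P = 0 := if_neg h

theorem ind_nonneg (P : Prop) : 0 ≤ ind P := by unfold ind; split_ifs <;> norm_num

theorem ind_le_one (P : Prop) : ind P ≤ 1 := by unfold ind; split_ifs <;> norm_num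

theorem ind_mono {P Q : Prop} (h : P → Q) : ind P ≤ ind Q := by
  by_cases hP : P
  · rw [ind_true hP, ind_true (h hP)]
  · rw [ind_false hP]; exact ind_nonneg Q

section subsets

variable {α : Type*}

theorem bw_nonneg {p : ℝ} (h0 : 0 ≤ p) (h1 : p ≤ 1) (U S : Finset α) : 0 ≤ bw p U S :=
  mul_nonneg (pow_nonneg h0 _) (pow_nonneg (by linarith) _)

theorem bw_sum (p : ℝ) (U : Finset α) : ∑ S ∈ U.powerset, bw p U S = 1 := by
  unfold bw
  rw [Finset.sum_pow_mul_eq_add_pow]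
  simp

theorem Ex_const (p : ℝ) (U : Finset α) (c : ℝ) : Ex p U (fun _ => c) = c := by
  unfold Ex
  rw [← Finset.sum_mul, bw_sum, one_mul]

theorem Ex_add (p : ℝ) (U : Finset α) (f g : Finset α → ℝ) :
    Ex p U (fun S => f S + g S) = Ex p U f + Ex p U g := by
  unfold Ex
  rw [← Finset.sum_add_distrib]
  exact Finset.sum_congr rfl (fun S _ => by ring)

theorem Ex_sub (p : ℝ) (U : Finset α) (f g : Finset α → ℝ) :
    Ex p U (fun S => f S - g S) = Ex p U f - Ex p U g := by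
  unfold Ex
  rw [← Finset.sum_sub_distrib]
  exact Finset.sum_congr rfl (fun S _ => by ring)

theorem Ex_smul (p : ℝ) (U : Finset α) (c : ℝ) (f : Finset α → ℝ) :
    Ex p U (fun S => c * f S) = c * Ex p U f := by
  unfold Ex
  rw [Finset.mul_sum]
  exact Finset.sum_congr rfl (fun S _ => by ring)

theorem Ex_sum (p : ℝ) (U : Finset α) {ι : Type*} (I : Finset ι) (f : ι → Finset α → ℝ) :
    Ex p U (fun S => ∑ i ∈ I, f i S) = ∑ i ∈ I, Ex p U (f i) := by
  unfold Ex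
  rw [Finset.sum_comm]
  exact Finset.sum_congr rfl (fun S _ => by rw [Finset.mul_sum])

theorem Ex_mono {p : ℝ} (h0 : 0 ≤ p) (h1 : p ≤ 1) {U : Finset α} {f g : Finset α → ℝ}
    (h : ∀ S, S ⊆ U → f S ≤ g S) : Ex p U f ≤ Ex p U g :=
  Finset.sum_le_sum (fun S hS => mul_le_mul_of_nonneg_left (h S (Finset.mem_powerset.mp hS))
    (bw_nonneg h0 h1 U S))

theorem Ex_congr {p : ℝ} {U : Finset α} {f g : Finset α → ℝ}
    (h : ∀ S, S ⊆ U → f S = g S) : Ex p U f = Ex p U g :=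
  Finset.sum_congr rfl (fun S hS => by rw [h S (Finset.mem_powerset.mp hS)])

theorem Ex_nonneg {p : ℝ} (h0 : 0 ≤ p) (h1 : p ≤ 1) {U : Finset α} {f : Finset α → ℝ}
    (h : ∀ S, S ⊆ U → 0 ≤ f S) : 0 ≤ Ex p U f :=
  Finset.sum_nonneg (fun S hS => mul_nonneg (bw_nonneg h0 h1 U S)
    (h S (Finset.mem_powerset.mp hS)))

theorem Pr_nonneg {p : ℝ} (h0 : 0 ≤ p) (h1 : p ≤ 1) (U : Finset α) (P : Finset α → Prop) :
    0 ≤ Pr p U P :=
  Ex_nonneg h0 h1 (fun _ _ => ind_nonneg _)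

theorem Pr_le_one {p : ℝ} (h0 : 0 ≤ p) (h1 : p ≤ 1) (U : Finset α) (P : Finset α → Prop) :
    Pr p U P ≤ 1 := by
  have := Ex_mono (f := fun S => ind (P S)) (g := fun _ => 1) h0 h1 (U := U)
    (fun _ _ => ind_le_one _)
  rw [Ex_const] at this
  exact this

theorem Pr_mono {p : ℝ} (h0 : 0 ≤ p) (h1 : p ≤ 1) {U : Finset α} {P Q : Finset α → Prop}
    (h : ∀ S, S ⊆ U → P S → Q S) : Pr p U P ≤ Pr p U Q :=
  Ex_mono h0 h1 (fun S hS => ind_mono (h S hS))

theorem Pr_congr {p : ℝ} {U : Finset α} {P Q : Finset α → Prop}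
    (h : ∀ S, S ⊆ U → (P S ↔ Q S)) : Pr p U P = Pr p U Q :=
  Ex_congr (fun S hS => by simp only [h S hS])

theorem Pr_not {p : ℝ} (U : Finset α) (P : Finset α → Prop) :
    Pr p U (fun S => ¬ P S) = 1 - Pr p U P := by
  unfold Pr
  calc Ex p U (fun S => ind (¬ P S))
      = Ex p U (fun S => 1 - ind (P S)) :=
        Ex_congr (fun S _ => by by_cases h : P S <;> simp [ind, h])
    _ = 1 - Ex p U (fun S => ind (P S)) := by rw [Ex_sub, Ex_const]

theorem Pr_or_le {p : ℝ} (h0 : 0 ≤ p) (h1 : p ≤ 1) (U : Finset α) (P Q : Finset α → Prop) :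
    Pr p U (fun S => P S ∨ Q S) ≤ Pr p U P + Pr p U Q := by
  unfold Pr
  rw [← Ex_add]
  exact Ex_mono h0 h1 (fun S _ => by
    by_cases h : P S <;> by_cases h' : Q S <;> simp [ind, h, h'])

theorem Pr_exists_le {p : ℝ} (h0 : 0 ≤ p) (h1 : p ≤ 1) (U : Finset α) {ι : Type*}
    (I : Finset ι) (P : ι → Finset α → Prop) :
    Pr p U (fun S => ∃ i ∈ I, P i S) ≤ ∑ i ∈ I, Pr p U (P i) := by
  unfold Pr
  rw [← Ex_sum]
  refine Ex_mono h0 h1 (fun S _ => ?_)
  by_cases h : ∃ i ∈ I, P i S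
  · obtain ⟨i, hi, hP⟩ := h
    have h2 : ind (P i S) ≤ ∑ i ∈ I, ind (P i S) :=
      Finset.single_le_sum (f := fun i => ind (P i S)) (fun j _ => ind_nonneg _) hi
    rw [ind_true hP] at h2
    rw [ind_true ⟨i, hi, hP⟩]
    exact h2
  · rw [ind_false h]
    exact Finset.sum_nonneg (fun j _ => ind_nonneg _)

/-- Markov's inequality. -/
theorem Pr_markov {p : ℝ} (h0 : 0 ≤ p) (h1 : p ≤ 1) (U : Finset α) {f : Finset α → ℝ}
    (hf : ∀ S, S ⊆ U → 0 ≤ f S) {c : ℝ} (hc : 0 < c) :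
    Pr p U (fun S => c ≤ f S) ≤ Ex p U f / c := by
  rw [le_div_iff₀ hc, mul_comm]
  unfold Pr
  rw [← Ex_smul]
  refine Ex_mono h0 h1 (fun S hS => ?_)
  by_cases h : c ≤ f S
  · simp [ind, h]
  · simpa [ind, h] using hf S hS

/-- If several bad events have total probability less than one, some outcome avoids them. -/
theorem exists_of_Pr_lt_one {p : ℝ} (U : Finset α) {P : Finset α → Prop}
    (h : Pr p U P < 1) : ∃ S, S ⊆ U ∧ ¬ P S := by
  by_contra hcon
  push Not at hcon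
  have : Pr p U P = 1 :=
    (Ex_congr (fun S hS => ind_true (hcon S hS))).trans (Ex_const p U 1)
  linarith

theorem sum_powerset_union {U₁ U₂ : Finset α} (h : Disjoint U₁ U₂) (F : Finset α → ℝ) :
    ∑ S ∈ (U₁ ∪ U₂).powerset, F S =
      ∑ S₁ ∈ U₁.powerset, ∑ S₂ ∈ U₂.powerset, F (S₁ ∪ S₂) := by
  rw [← Finset.sum_product']
  refine Finset.sum_bij' (fun S _ => (S ∩ U₁, S ∩ U₂)) (fun x _ => x.1 ∪ x.2) ?_ ?_ ?_ ?_ ?_
  · intro S _
    simp [Finset.inter_subset_right]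
  · rintro ⟨S₁, S₂⟩ hS
    simp only [Finset.mem_product, Finset.mem_powerset] at hS
    simp only [Finset.mem_powerset]
    exact Finset.union_subset_union hS.1 hS.2
  · intro S hS
    simp only [Finset.mem_powerset] at hS
    rw [← Finset.inter_union_distrib_left]
    exact Finset.inter_eq_left.mpr hS
  · rintro ⟨S₁, S₂⟩ hS
    simp only [Finset.mem_product, Finset.mem_powerset] at hS
    refine Prod.ext ?_ ?_
    · simp only
      rw [Finset.union_inter_distrib_right, Finset.inter_eq_left.mpr hS.1,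
        (Finset.disjoint_iff_inter_eq_empty.mp (h.symm.mono_left hS.2)), Finset.union_empty]
    · simp only
      rw [Finset.union_inter_distrib_right, Finset.inter_eq_left.mpr hS.2,
        (Finset.disjoint_iff_inter_eq_empty.mp (h.mono_left hS.1)), Finset.empty_union]
  · intro S hS
    simp only [Finset.mem_powerset] at hS
    rw [← Finset.inter_union_distrib_left, Finset.inter_eq_left.mpr hS]

theorem bw_union (p : ℝ) {U₁ U₂ S₁ S₂ : Finset α} (h : Disjoint U₁ U₂) (h1 : S₁ ⊆ U₁)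
    (h2 : S₂ ⊆ U₂) : bw p (U₁ ∪ U₂) (S₁ ∪ S₂) = bw p U₁ S₁ * bw p U₂ S₂ := by
  unfold bw
  rw [Finset.card_union_of_disjoint h,
    Finset.card_union_of_disjoint (Finset.disjoint_of_subset_left h1
      (Finset.disjoint_of_subset_right h2 h))]
  have e1 := Finset.card_le_card h1
  have e2 := Finset.card_le_card h2
  have e : U₁.card + U₂.card - (S₁.card + S₂.card) =
      (U₁.card - S₁.card) + (U₂.card - S₂.card) := by omega
  rw [e, pow_add, pow_add]
  ring

/-- Independence of disjoint parts. -/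
theorem Ex_union (p : ℝ) {U₁ U₂ : Finset α} (h : Disjoint U₁ U₂) (f : Finset α → ℝ) :
    Ex p (U₁ ∪ U₂) f = Ex p U₁ (fun S₁ => Ex p U₂ (fun S₂ => f (S₁ ∪ S₂))) := by
  unfold Ex
  rw [sum_powerset_union h]
  refine Finset.sum_congr rfl (fun S₁ h1 => ?_)
  rw [Finset.mul_sum]
  refine Finset.sum_congr rfl (fun S₂ h2 => ?_)
  rw [bw_union p h (Finset.mem_powerset.mp h1) (Finset.mem_powerset.mp h2)]
  ring

theorem Ex_inter (p : ℝ) {U A : Finset α} (hA : A ⊆ U) (f : Finset α → ℝ) :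
    Ex p U (fun S => f (S ∩ A)) = Ex p A f := by
  have hd : Disjoint A (U \ A) := Finset.disjoint_sdiff
  have hU : U = A ∪ (U \ A) := (Finset.union_sdiff_of_subset hA).symm
  conv_lhs => rw [hU]
  rw [Ex_union p hd]
  refine Ex_congr (fun S₁ h1 => ?_)
  rw [← Ex_const p (U \ A) (f S₁)]
  refine Ex_congr (fun S₂ h2 => ?_)
  congr 1
  rw [Finset.union_inter_distrib_right, Finset.inter_eq_left.mpr h1,
    Finset.disjoint_iff_inter_eq_empty.mp (hd.symm.mono_left h2), Finset.union_empty]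

theorem Pr_inter (p : ℝ) {U A : Finset α} (hA : A ⊆ U) (P : Finset α → Prop) :
    Pr p U (fun S => P (S ∩ A)) = Pr p A P :=
  Ex_inter p hA (fun S => ind (P S))

theorem Pr_subset (p : ℝ) {U F : Finset α} (hF : F ⊆ U) :
    Pr p U (fun S => F ⊆ S) = p ^ F.card := by
  have h1 : Pr p U (fun S => F ⊆ S) = Pr p U (fun S => S ∩ F = F) :=
    Pr_congr (fun S _ => by rw [Finset.inter_eq_right])
  rw [h1, Pr_inter p hF (fun S => S = F)]
  unfold Pr Ex
  rw [Finset.sum_eq_single F]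
  · simp [bw, ind]
  · intro S _ hS
    simp [hS, ind]
  · intro h
    exact absurd (Finset.mem_powerset_self F) h

theorem Pr_subset_le {p : ℝ} (h0 : 0 ≤ p) (U F : Finset α) :
    Pr p U (fun S => F ⊆ S) ≤ p ^ F.card := by
  by_cases hF : F ⊆ U
  · exact (Pr_subset p hF).le
  · have : Pr p U (fun S => F ⊆ S) = 0 :=
      (Ex_congr (fun S hS => ind_false (fun h => hF (h.trans hS)))).trans (Ex_const p U 0)
    rw [this]
    positivity

/-- Upper tail by the union bound. -/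
theorem Pr_card_ge {p : ℝ} (h0 : 0 ≤ p) (h1 : p ≤ 1) (U A : Finset α) (k : ℕ) :
    Pr p U (fun S => k ≤ (S ∩ A).card) ≤ (A.card.choose k : ℝ) * p ^ k := by
  have h2 : Pr p U (fun S => k ≤ (S ∩ A).card) ≤
      Pr p U (fun S => ∃ F ∈ A.powersetCard k, F ⊆ S) := by
    refine Pr_mono h0 h1 (fun S _ hS => ?_)
    obtain ⟨F, hF, hc⟩ := Finset.exists_subset_card_eq hS
    exact ⟨F, Finset.mem_powersetCard.mpr ⟨hF.trans Finset.inter_subset_right, hc⟩,
      hF.trans Finset.inter_subset_left⟩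
  refine h2.trans ((Pr_exists_le h0 h1 U _ _).trans ?_)
  have h3 : ∀ F ∈ A.powersetCard k, Pr p U (fun S => F ⊆ S) ≤ p ^ k := by
    intro F hF
    have := Pr_subset_le h0 U F
    rwa [(Finset.mem_powersetCard.mp hF).2] at this
  refine (Finset.sum_le_sum h3).trans ?_
  rw [Finset.sum_const, Finset.card_powersetCard, nsmul_eq_mul]

/-- Lower tail. -/
theorem Pr_card_le {p : ℝ} (h0 : 0 ≤ p) (h1 : p ≤ 1) {U A : Finset α} (hA : A ⊆ U) :
    Pr p U (fun S => ((S ∩ A).card : ℝ) ≤ p * A.card / 2) ≤ Real.exp (-(p * A.card / 8)) := by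
  rw [Pr_inter p hA (fun S => (S.card : ℝ) ≤ p * A.card / 2)]
  have key : Ex p A (fun S => ((1 : ℝ) / 2) ^ S.card) = (1 - p / 2) ^ A.card := by
    unfold Ex bw
    have := Finset.sum_pow_mul_eq_add_pow (p / 2) (1 - p) A
    rw [show p / 2 + (1 - p) = 1 - p / 2 by ring] at this
    rw [← this]
    refine Finset.sum_congr rfl (fun S _ => ?_)
    simp only
    rw [div_pow, div_pow, one_pow]
    ring
  set c : ℝ := Real.exp (-(Real.log 2 * (p * A.card / 2))) with hc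
  have hcpos : 0 < c := Real.exp_pos _
  have h2 : Pr p A (fun S => (S.card : ℝ) ≤ p * A.card / 2) ≤
      Pr p A (fun S => c ≤ ((1 : ℝ) / 2) ^ S.card) := by
    refine Pr_mono h0 h1 (fun S _ hS => ?_)
    have e : ((1 : ℝ) / 2) ^ S.card = Real.exp (-(Real.log 2 * S.card)) := by
      rw [one_div, inv_pow, ← Real.exp_log (show (0 : ℝ) < 2 by norm_num), ← Real.exp_nat_mul,
        ← Real.exp_neg, Real.exp_log (by norm_num)]
      ring_nf
    rw [e, hc]
    refine Real.exp_le_exp.mpr ?_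
    have := mul_le_mul_of_nonneg_left hS (Real.log_nonneg (by norm_num : (1 : ℝ) ≤ 2))
    linarith
  refine h2.trans ((Pr_markov h0 h1 A (fun S _ => by positivity) hcpos).trans ?_)
  rw [key, div_le_iff₀ hcpos, hc, ← Real.exp_add]
  have h3 : (1 - p / 2) ^ A.card ≤ Real.exp (-(p / 2)) ^ A.card := by
    refine pow_le_pow_left₀ (by linarith) ?_ _
    have := Real.add_one_le_exp (-(p / 2))
    linarith
  refine h3.trans ?_
  rw [← Real.exp_nat_mul]
  refine Real.exp_le_exp.mpr ?_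
  have h4 : Real.log 2 < 3 / 4 := by
    have := Real.log_two_lt_d9
    linarith
  have h5 : 0 ≤ p * A.card := mul_nonneg h0 (Nat.cast_nonneg _)
  nlinarith

/-- Resampling the elements of a set `Z E` which depends only on `E \ Z E`. -/
theorem Ex_resample (p : ℝ) (U : Finset α) (Z : Finset α → Finset α)
    (hZU : ∀ E, E ⊆ U → Z E ⊆ U)
    (hZ : ∀ E, E ⊆ U → ∀ S, S ⊆ Z E → Z ((E \ Z E) ∪ S) = Z E) (f : Finset α → ℝ) :
    Ex p U f = Ex p U (fun E => Ex p (Z E) (fun S => f ((E \ Z E) ∪ S))) := by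
  have h1 : Ex p U f = Ex p U (fun E => Ex p (Z E) (fun _ => f E)) :=
    Ex_congr (fun E _ => (Ex_const p (Z E) (f E)).symm)
  rw [h1]
  unfold Ex
  simp only [Finset.mul_sum]
  rw [Finset.sum_sigma', Finset.sum_sigma']
  have hid : ∀ E S : Finset α, S ⊆ Z E → ((E \ Z E) ∪ S) ∩ Z E = S := by
    intro E S hS
    rw [Finset.union_inter_distrib_right, Finset.inter_eq_left.mpr hS]
    simp
  have hsd : ∀ E S : Finset α, S ⊆ Z E → ((E \ Z E) ∪ S) \ Z E = E \ Z E := by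
    intro E S hS
    rw [Finset.union_sdiff_distrib, Finset.sdiff_eq_empty_iff_subset.mpr hS, Finset.union_empty]
    simp
  refine Finset.sum_bij' (fun x _ => (⟨(x.1 \ Z x.1) ∪ x.2, x.1 ∩ Z x.1⟩ : Σ _ : Finset α, Finset α))
    (fun x _ => (⟨(x.1 \ Z x.1) ∪ x.2, x.1 ∩ Z x.1⟩ : Σ _ : Finset α, Finset α)) ?_ ?_ ?_ ?_ ?_
  · rintro ⟨E, S⟩ h
    simp only [Finset.mem_sigma, Finset.mem_powerset] at h ⊢
    refine ⟨Finset.union_subset (Finset.sdiff_subset.trans h.1) (h.2.trans (hZU E h.1)), ?_⟩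
    rw [hZ E h.1 S h.2]
    exact Finset.inter_subset_right
  · rintro ⟨E, S⟩ h
    simp only [Finset.mem_sigma, Finset.mem_powerset] at h ⊢
    refine ⟨Finset.union_subset (Finset.sdiff_subset.trans h.1) (h.2.trans (hZU E h.1)), ?_⟩
    rw [hZ E h.1 S h.2]
    exact Finset.inter_subset_right
  · rintro ⟨E, S⟩ h
    simp only [Finset.mem_sigma, Finset.mem_powerset] at h
    simp only [hZ E h.1 S h.2, hid E S h.2, hsd E S h.2]
    rw [Finset.sdiff_union_inter]
  · rintro ⟨E, S⟩ h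
    simp only [Finset.mem_sigma, Finset.mem_powerset] at h
    simp only [hZ E h.1 S h.2, hid E S h.2, hsd E S h.2]
    rw [Finset.sdiff_union_inter]
  · rintro ⟨E, S⟩ h
    simp only [Finset.mem_sigma, Finset.mem_powerset] at h
    simp only [hZ E h.1 S h.2, hsd E S h.2]
    have hd : Disjoint (U \ Z E) (Z E) := Finset.sdiff_disjoint
    have hU : (U \ Z E) ∪ Z E = U := Finset.sdiff_union_of_subset (hZU E h.1)
    have e1 : bw p U E = bw p (U \ Z E) (E \ Z E) * bw p (Z E) (E ∩ Z E) := by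
      rw [← bw_union p hd (Finset.sdiff_subset_sdiff h.1 le_rfl) Finset.inter_subset_right, hU,
        Finset.sdiff_union_inter]
    have e2 : bw p U ((E \ Z E) ∪ S) = bw p (U \ Z E) (E \ Z E) * bw p (Z E) S := by
      rw [← bw_union p hd (Finset.sdiff_subset_sdiff h.1 le_rfl) h.2, hU]
    rw [e1, e2]
    rw [Finset.sdiff_union_inter]
    ring

theorem Pr_resample_le {p : ℝ} (h0 : 0 ≤ p) (h1 : p ≤ 1) (U : Finset α)
    (Z : Finset α → Finset α) (hZU : ∀ E, E ⊆ U → Z E ⊆ U)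
    (hZ : ∀ E, E ⊆ U → ∀ S, S ⊆ Z E → Z ((E \ Z E) ∪ S) = Z E) {P : Finset α → Prop} {η : ℝ}
    (h : ∀ E, E ⊆ U → Pr p (Z E) (fun S => P ((E \ Z E) ∪ S)) ≤ η) : Pr p U P ≤ η := by
  unfold Pr
  rw [Ex_resample p U Z hZU hZ]
  rw [← Ex_const p U η]
  exact Ex_mono h0 h1 (fun E hE => h E hE)

end subsets

section graph

theorem card_pairs (n : ℕ) : (pairs n).card = n.choose 2 := by
  unfold pairs
  rw [SimpleGraph.card_edgeFinset_top_eq_card_choose_two, Fintype.card_fin]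

theorem mem_pairs {n : ℕ} (e : Sym2 (Fin n)) : e ∈ pairs n ↔ ¬ e.IsDiag := by
  unfold pairs
  rw [SimpleGraph.mem_edgeFinset, SimpleGraph.edgeSet_top]
  rfl

theorem edgeFinset_subset_pairs {n : ℕ} (G : SimpleGraph (Fin n)) : G.edgeFinset ⊆ pairs n := by
  intro e he
  rw [mem_pairs]
  rw [SimpleGraph.mem_edgeFinset] at he
  exact SimpleGraph.not_isDiag_of_mem_edgeSet G he

theorem edgeFinset_fromEdgeSet {n : ℕ} {S : Finset (Sym2 (Fin n))} (hS : S ⊆ pairs n) :
    (SimpleGraph.fromEdgeSet (S : Set (Sym2 (Fin n)))).edgeFinset = S := by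
  ext e
  rw [SimpleGraph.mem_edgeFinset, SimpleGraph.edgeSet_fromEdgeSet]
  constructor
  · intro h
    exact h.1
  · intro h
    refine ⟨h, ?_⟩
    have := (mem_pairs e).mp (hS h)
    exact this

/-- The frozen form of the probability is the random-subset probability. -/
theorem GP_eq (n : ℕ) (p : ℝ) (P : SimpleGraph (Fin n) → Prop) :
    GP n p P = Pr p (pairs n) (fun S => P (SimpleGraph.fromEdgeSet (S : Set (Sym2 (Fin n))))) := by
  unfold GP Pr Ex
  refine Finset.sum_bij' (fun G _ => G.edgeFinset)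
    (fun S _ => SimpleGraph.fromEdgeSet (S : Set (Sym2 (Fin n)))) ?_ ?_ ?_ ?_ ?_
  · intro G _
    exact Finset.mem_powerset.mpr (edgeFinset_subset_pairs G)
  · intro S _
    exact Finset.mem_univ _
  · intro G _
    simp
  · intro S hS
    have := edgeFinset_fromEdgeSet (Finset.mem_powerset.mp hS)
    refine Eq.trans (Finset.ext fun e => ?_) this
    simp only [SimpleGraph.mem_edgeFinset]
  · intro G _
    have e : SimpleGraph.fromEdgeSet (G.edgeFinset : Set (Sym2 (Fin n))) = G := by simp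
    simp only [e]
    unfold bw
    rw [card_pairs]
    unfold ind
    split_ifs <;> simp

theorem GP_mono {n : ℕ} {p : ℝ} (h0 : 0 ≤ p) (h1 : p ≤ 1) {P Q : SimpleGraph (Fin n) → Prop}
    (h : ∀ G, P G → Q G) : GP n p P ≤ GP n p Q := by
  rw [GP_eq, GP_eq]
  exact Pr_mono h0 h1 (fun S _ hS => h _ hS)

theorem GP_nonneg {n : ℕ} {p : ℝ} (h0 : 0 ≤ p) (h1 : p ≤ 1) (P : SimpleGraph (Fin n) → Prop) :
    0 ≤ GP n p P := by
  rw [GP_eq]
  exact Pr_nonneg h0 h1 _ _

theorem GP_le_one {n : ℕ} {p : ℝ} (h0 : 0 ≤ p) (h1 : p ≤ 1) (P : SimpleGraph (Fin n) → Prop) :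
    GP n p P ≤ 1 := by
  rw [GP_eq]
  exact Pr_le_one h0 h1 _ _

theorem GP_not {n : ℕ} {p : ℝ} (P : SimpleGraph (Fin n) → Prop) :
    GP n p (fun G => ¬ P G) = 1 - GP n p P := by
  rw [GP_eq, GP_eq]
  exact Pr_not _ _

theorem GP_or_le {n : ℕ} {p : ℝ} (h0 : 0 ≤ p) (h1 : p ≤ 1) (P Q : SimpleGraph (Fin n) → Prop) :
    GP n p (fun G => P G ∨ Q G) ≤ GP n p P + GP n p Q := by
  rw [GP_eq, GP_eq, GP_eq]
  exact Pr_or_le h0 h1 _ _ _

theorem GP_exists_le {n : ℕ} {p : ℝ} (h0 : 0 ≤ p) (h1 : p ≤ 1) {ι : Type*} (I : Finset ι)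
    (P : ι → SimpleGraph (Fin n) → Prop) :
    GP n p (fun G => ∃ i ∈ I, P i G) ≤ ∑ i ∈ I, GP n p (P i) := by
  rw [GP_eq]
  simp only [GP_eq]
  exact Pr_exists_le h0 h1 _ _ _

theorem GP_subset_le {n : ℕ} {p : ℝ} (h0 : 0 ≤ p) (h1 : p ≤ 1) (F : Finset (Sym2 (Fin n))) :
    GP n p (fun G => (F : Set (Sym2 (Fin n))) ⊆ G.edgeSet) ≤ p ^ F.card := by
  rw [GP_eq]
  refine le_trans (Pr_mono h0 h1 (fun S _ hS => ?_)) (Pr_subset_le h0 (pairs n) F)
  intro e he
  have := hS (Finset.mem_coe.mpr he)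
  rw [SimpleGraph.edgeSet_fromEdgeSet] at this
  exact Finset.mem_coe.mp this.1

end graph

end Pool.Agent.H90.Shot
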