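import Mathlib
import Pool.Agent.H90.Shot.Defs

/-!
# Deterministic facts on views and 5-cycles
-/

set_option autoImplicit false
set_option linter.unusedSectionVars false

open Finset Classical

namespace Pool.Agent.H90.Shot

section basic

variable {V : Type*} [Fintype V] {G H : SimpleGraph V}

theorem self_mem_ball (G : SimpleGraph V) (v : V) : v ∈ ball G v := by
  simp [ball]

theorem mem_ball_of_adj {v a : V} (h : G.Adj v a) : a ∈ ball G v := by
  show G.edist v a ≤ 2
  rw [SimpleGraph.edist_eq_one_iff_adj.mpr h]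
  exact one_le_two

theorem mem_ball_of_adj_adj {v a b : V} (h : G.Adj v a) (h' : G.Adj a b) : b ∈ ball G v := by
  show G.edist v b ≤ 2
  have := (SimpleGraph.Walk.cons h (SimpleGraph.Walk.cons h' SimpleGraph.Walk.nil)).edist_le
  simpa using this

theorem IsC5.mem_ball {t : Fin 5 → V} (ht : IsC5 G t) (i : Fin 5) : t i ∈ ball G (t 0) := by
  have h0 := ht.2 0
  have h1 := ht.2 1
  have h3 := ht.2 3
  have h4 := ht.2 4
  fin_cases i
  · exact self_mem_ball G (t 0)
  · exact mem_ball_of_adj h0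
  · exact mem_ball_of_adj_adj h0 h1
  · exact mem_ball_of_adj_adj (SimpleGraph.Adj.symm h4) (SimpleGraph.Adj.symm h3)
  · exact mem_ball_of_adj (SimpleGraph.Adj.symm h4)

theorem IsC5.rot {t : Fin 5 → V} (ht : IsC5 G t) (k : Fin 5) : IsC5 G (fun i => t (i + k)) := by
  refine ⟨fun i j h => add_right_cancel (ht.1 h), fun i => ?_⟩
  have := ht.2 (i + k)
  have e : i + k + 1 = i + 1 + k := by abel
  rw [e] at this
  exact this

theorem IsC5.rev {t : Fin 5 → V} (ht : IsC5 G t) (k : Fin 5) : IsC5 G (fun i => t (k - i)) := by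
  refine ⟨fun i j h => by
    have := ht.1 h
    exact sub_right_injective this, fun i => ?_⟩
  have := ht.2 (k - (i + 1))
  have e : k - (i + 1) + 1 = k - i := by abel
  rw [e] at this
  exact this.symm

theorem ced_rot (t : Fin 5 → V) (k : Fin 5) : ced (fun i => t (i + k)) = ced t := by
  unfold ced
  ext e
  simp only [mem_image, mem_univ, true_and]
  constructor
  · rintro ⟨i, rfl⟩
    refine ⟨i + k, ?_⟩
    have e : i + k + 1 = i + 1 + k := by abel
    rw [e]
  · rintro ⟨i, rfl⟩
    refine ⟨i - k, ?_⟩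
    have e1 : i - k + k = i := by abel
    have e2 : i - k + 1 + k = i + 1 := by abel
    rw [e1, e2]

theorem ced_rev (t : Fin 5 → V) (k : Fin 5) : ced (fun i => t (k - i)) = ced t := by
  unfold ced
  ext e
  simp only [mem_image, mem_univ, true_and]
  constructor
  · rintro ⟨i, rfl⟩
    refine ⟨k - (i + 1), ?_⟩
    have e : k - (i + 1) + 1 = k - i := by abel
    rw [e, Sym2.eq_swap]
  · rintro ⟨i, rfl⟩
    refine ⟨k - (i + 1), ?_⟩
    have e1 : k - (k - (i + 1)) = i + 1 := by abel
    have e2 : k - (k - (i + 1) + 1) = i := by abel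
    rw [e1, e2, Sym2.eq_swap]

theorem mem_ced (t : Fin 5 → V) (i : Fin 5) : s(t i, t (i + 1)) ∈ ced t :=
  mem_image_of_mem _ (mem_univ i)

theorem ced_subset_edgeSet {t : Fin 5 → V} (ht : IsC5 G t) {e : Sym2 V} (he : e ∈ ced t) :
    e ∈ G.edgeSet := by
  obtain ⟨i, _, rfl⟩ := mem_image.mp he
  exact ht.2 i

theorem far_subset_ced (t : Fin 5 → V) : far t ⊆ ced t := by
  intro e he
  unfold far at he
  simp only [mem_insert, mem_singleton] at he
  rcases he with rfl | rfl | rfl
  · exact mem_ced t 1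
  · exact mem_ced t 2
  · exact mem_ced t 3

/-- the five edges of an injective closed walk are distinct -/
theorem edge_injective {t : Fin 5 → V} (ht : Function.Injective t) :
    Function.Injective (fun i => s(t i, t (i + 1))) := by
  intro i j h
  simp only [Sym2.eq_iff] at h
  rcases h with ⟨h1, _⟩ | ⟨h1, h2⟩
  · exact ht h1
  · have e1 := ht h1
    have e2 := ht h2
    subst e1
    exfalso
    have : ∀ j : Fin 5, j + 1 + 1 ≠ j := by decide
    exact this j e2

theorem card_ced {t : Fin 5 → V} (ht : Function.Injective t) : (ced t).card = 5 := by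
  unfold ced
  rw [card_image_of_injective _ (edge_injective ht)]
  simp

end basic

namespace Views

variable {V : Type*} [Fintype V] {G H : SimpleGraph V} (W : Views G H)

theorem adj_root {v a : V} (ha : a ∈ ball H v) : H.Adj v a ↔ G.Adj v (W.g v a) := by
  have := W.adj v v (self_mem_ball H v) a ha
  rwa [W.root v] at this

theorem inj {v a b : V} (ha : a ∈ ball H v) (hb : b ∈ ball H v) (h : W.g v a = W.g v b) :
    a = b :=
  (W.bij v).injOn ha hb h

theorem g_adj {v a : V} (h : H.Adj v a) : G.Adj v (W.g v a) :=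
  (W.adj_root (mem_ball_of_adj h)).mp h

/-- the neighbours of `v` in `G` come from neighbours in `H` -/
theorem exists_adj {v x : V} (h : G.Adj v x) : ∃ a, H.Adj v a ∧ W.g v a = x := by
  obtain ⟨a, ha, rfl⟩ := (W.bij v).surjOn (mem_ball_of_adj h)
  exact ⟨a, (W.adj_root ha).mpr h, rfl⟩

include W in
theorem card_nbr (v : V) : (univ.filter fun a => H.Adj v a).card =
    (univ.filter fun x => G.Adj v x).card := by
  refine Finset.card_bij (fun a _ => W.g v a) ?_ ?_ ?_
  · intro a ha
    simp only [mem_filter, mem_univ, true_and] at ha ⊢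
    exact W.g_adj ha
  · intro a ha b hb h
    simp only [mem_filter, mem_univ, true_and] at ha hb
    exact W.inj (mem_ball_of_adj ha) (mem_ball_of_adj hb) h
  · intro x hx
    simp only [mem_filter, mem_univ, true_and] at hx
    obtain ⟨a, ha, rfl⟩ := W.exists_adj hx
    exact ⟨a, by simpa using ha, rfl⟩

theorem phi_zero (t : Fin 5 → V) : W.phi t 0 = t 0 := W.root (t 0)

theorem phi_isC5 {t : Fin 5 → V} (ht : IsC5 H t) : IsC5 G (W.phi t) := by
  refine ⟨fun i j h => ht.1 (W.inj (ht.mem_ball i) (ht.mem_ball j) h), fun i => ?_⟩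
  exact (W.adj (t 0) _ (ht.mem_ball i) _ (ht.mem_ball (i + 1))).mp (ht.2 i)

theorem phi_inj {t t' : Fin 5 → V} (ht : IsC5 H t) (ht' : IsC5 H t') (h : W.phi t = W.phi t') :
    t = t' := by
  have h0 : t 0 = t' 0 := by
    have := congrFun h 0
    rwa [W.phi_zero, W.phi_zero] at this
  funext i
  have := congrFun h i
  unfold phi at this
  rw [h0] at this
  refine W.inj ?_ (ht'.mem_ball i) this
  rw [← h0]
  exact ht.mem_ball i

theorem exists_phi {t' : Fin 5 → V} (ht' : IsC5 G t') : ∃ t, IsC5 H t ∧ W.phi t = t' := by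
  have hb : ∀ i, ∃ a ∈ ball H (t' 0), W.g (t' 0) a = t' i :=
    fun i => (W.bij (t' 0)).surjOn (ht'.mem_ball i)
  choose t ht hg using hb
  have h0 : t 0 = t' 0 := by
    refine W.inj (ht 0) (self_mem_ball H _) ?_
    rw [hg 0, W.root]
  refine ⟨t, ⟨fun i j h => ht'.1 ?_, fun i => ?_⟩, ?_⟩
  · rw [← hg i, ← hg j, h]
  · rw [W.adj (t' 0) _ (ht i) _ (ht (i + 1)), hg, hg]
    exact ht'.2 i
  · funext i
    unfold phi
    rw [h0, hg i]

theorem mem_CH {t : Fin 5 → V} : t ∈ W.CH ↔ IsC5 H t := by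
  unfold CH
  simp

/-- counting cycles of `H` through views in `G` -/
theorem card_CH_filter (P : (Fin 5 → V) → Prop) :
    (W.CH.filter fun t => P (W.phi t)).card = (univ.filter fun t' => IsC5 G t' ∧ P t').card := by
  refine Finset.card_bij (fun t _ => W.phi t) ?_ ?_ ?_
  · intro t ht
    simp only [mem_filter, W.mem_CH, mem_univ, true_and] at ht ⊢
    exact ⟨W.phi_isC5 ht.1, ht.2⟩
  · intro t ht t' ht' h
    simp only [mem_filter, W.mem_CH] at ht ht'
    exact W.phi_inj ht.1 ht'.1 h
  · intro t' ht'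
    simp only [mem_filter, mem_univ, true_and] at ht'
    obtain ⟨t, ht, rfl⟩ := W.exists_phi ht'.1
    exact ⟨t, by simp only [mem_filter, W.mem_CH]; exact ⟨ht, ht'.2⟩, rfl⟩

theorem ncyc_eq {v w : V} (h : H.Adj v w) : ncyc H v w = ncyc G v (W.g v w) := by
  unfold ncyc
  have key := W.card_CH_filter (fun t' => t' 0 = v ∧ t' 1 = W.g v w)
  refine Eq.trans ?_ (key.trans (by congr!))
  congr 1
  ext t
  simp only [mem_filter, mem_univ, true_and, W.mem_CH, W.phi_zero]
  constructor
  · rintro ⟨h1, h2, h3⟩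
    refine ⟨h1, h2, ?_⟩
    unfold phi
    rw [h2, h3]
  · rintro ⟨h1, h2, h3⟩
    refine ⟨h1, h2, ?_⟩
    unfold phi at h3
    rw [h2] at h3
    refine W.inj ?_ (mem_ball_of_adj h) h3
    rw [← h2]
    exact h1.mem_ball 1

/-! ### right and wrong edges -/

theorem mem_right {e : Sym2 V} :
    e ∈ W.right ↔ e ∈ H.edgeSet ∧ ∀ u v, e = s(u, v) → W.g u v = v := by
  unfold right
  simp

theorem mem_wrong {e : Sym2 V} : e ∈ W.wrong ↔ e ∈ H.edgeSet ∧ e ∉ W.right := by
  unfold wrong
  simp

theorem right_subset {e : Sym2 V} (he : e ∈ W.right) : e ∈ G.edgeSet := by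
  induction e using Sym2.ind with
  | _ u v =>
    rw [W.mem_right] at he
    have h1 : H.Adj u v := he.1
    have h2 := W.g_adj h1
    rw [he.2 u v rfl] at h2
    exact h2

theorem mem_right_mk {u v : V} : s(u, v) ∈ W.right ↔ H.Adj u v ∧ W.g u v = v ∧ W.g v u = u := by
  rw [W.mem_right]
  constructor
  · rintro ⟨h1, h2⟩
    exact ⟨h1, h2 u v rfl, h2 v u Sym2.eq_swap⟩
  · rintro ⟨h1, h2, h3⟩
    refine ⟨h1, fun a b h => ?_⟩
    rcases Sym2.eq_iff.mp h with ⟨rfl, rfl⟩ | ⟨rfl, rfl⟩
    · exact h2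
    · exact h3

theorem mem_wrong_mk {u v : V} : s(u, v) ∈ W.wrong ↔
    H.Adj u v ∧ (W.g u v ≠ v ∨ W.g v u ≠ u) := by
  rw [W.mem_wrong, W.mem_right_mk]
  constructor
  · rintro ⟨h1, h2⟩
    have h1' : H.Adj u v := h1
    refine ⟨h1', ?_⟩
    by_contra h
    push Not at h
    exact h2 ⟨h1', h.1, h.2⟩
  · rintro ⟨h1, h2⟩
    refine ⟨h1, fun h => ?_⟩
    rcases h2 with h2 | h2
    · exact h2 h.2.1
    · exact h2 h.2.2

/-- if all edges of `H` are right, then `H = G` -/
theorem eq_of_wrong_empty (h : W.wrong = ∅) : H = G := by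
  have h1 : ∀ u v, H.Adj u v → G.Adj u v := by
    intro u v huv
    by_contra hcon
    have : s(u, v) ∈ W.wrong := by
      rw [W.mem_wrong]
      exact ⟨huv, fun h' => hcon (W.right_subset h')⟩
    rw [h] at this
    simp at this
  ext u v
  refine ⟨h1 u v, fun huv => ?_⟩
  -- neighbourhoods have the same size
  have hsub : (univ.filter fun a => H.Adj u a) ⊆ (univ.filter fun x => G.Adj u x) := by
    intro a ha
    simp only [mem_filter, mem_univ, true_and] at ha ⊢
    exact h1 u a ha
  have heq := Finset.eq_of_subset_of_card_le hsub (W.card_nbr u).ge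
  have : v ∈ (univ.filter fun a => H.Adj u a) := by
    rw [heq]
    simpa using huv
  simpa using this

/-- the two partner edges of a wrong edge are distinct -/
theorem partner_ne {u v : V} (h : s(u, v) ∈ W.wrong) : s(u, W.g u v) ≠ s(v, W.g v u) := by
  rw [W.mem_wrong_mk] at h
  intro he
  rcases Sym2.eq_iff.mp he with ⟨h1, _⟩ | ⟨h1, h2⟩
  · exact h.1.ne h1
  · rcases h.2 with h3 | h3
    · exact h3 h2
    · exact h3 h1.symm

/-- the partner edges of a wrong edge are not right -/
theorem partner_not_right {u v : V} (h : s(u, v) ∈ W.wrong) : s(u, W.g u v) ∉ W.right := by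
  intro hr
  have hadj := (W.mem_wrong_mk.mp h).1
  rw [W.mem_right_mk] at hr
  have := W.inj (mem_ball_of_adj hr.1) (mem_ball_of_adj hadj) hr.2.1
  rw [this] at hr
  exact (W.mem_wrong.mp h).2 (W.mem_right_mk.mpr ⟨hadj, hr.2.1, hr.2.2⟩)

end Views

end Pool.Agent.H90.Shot
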