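import Mathlib

/-!
# Parameters: the sampling densities
-/

set_option autoImplicit false

open Filter

namespace Pool.Agent.H90.Shot

/-- the sampling density for cycles with `m` wrong edges -/
noncomputable def sm (c σ : ℝ) (n : ℕ) (p : ℝ) (m : ℕ) : ℝ :=
  min σ (((n : ℝ) ^ (c / 4) / ((n : ℝ) ^ 3 * p ^ 4)) ^ (1 / ((m - 1 : ℕ) : ℝ)))

/-- the quantity which tends to infinity -/
noncomputable def YY (ε c σ : ℝ) (n : ℕ) : ℝ :=
  min (σ ^ 4 * (n : ℝ) ^ (4 * ε)) (min (σ * (n : ℝ) ^ (1 / 4 : ℝ)) ((n : ℝ) ^ (c / 4)))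

theorem tendsto_YY {ε c σ : ℝ} (hε : 0 < ε) (hc : 0 < c) (hσ : 0 < σ) :
    Tendsto (YY ε c σ) atTop atTop := by
  have h1 : Tendsto (fun n : ℕ => σ ^ 4 * (n : ℝ) ^ (4 * ε)) atTop atTop :=
    ((tendsto_rpow_atTop (by positivity)).comp tendsto_natCast_atTop_atTop).const_mul_atTop
      (by positivity)
  have h2 : Tendsto (fun n : ℕ => σ * (n : ℝ) ^ (1 / 4 : ℝ)) atTop atTop :=
    ((tendsto_rpow_atTop (by positivity)).comp tendsto_natCast_atTop_atTop).const_mul_atTop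
      (by positivity)
  have h3 : Tendsto (fun n : ℕ => (n : ℝ) ^ (c / 4)) atTop atTop :=
    (tendsto_rpow_atTop (by positivity)).comp tendsto_natCast_atTop_atTop
  rw [tendsto_atTop] at h1 h2 h3 ⊢
  intro B
  filter_upwards [h1 B, h2 B, h3 B] with n a1 a2 a3
  exact le_min a1 (le_min a2 a3)

/-- facts on the range `n^(-3/4+ε) ≤ p ≤ n^(-2/3-δ)` -/
structure RC (ε δ : ℝ) (n : ℕ) (p : ℝ) : Prop where
  n_pos : 1 ≤ (n : ℝ)
  p_pos : 0 < p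
  p_le : p ≤ 1
  T_ge : (n : ℝ) ^ (4 * ε) ≤ (n : ℝ) ^ 3 * p ^ 4
  d_ge : (n : ℝ) ^ (1 / 4 : ℝ) ≤ n * p
  lam : (n : ℝ) ^ 2 * p ^ 3 ≤ (n : ℝ) ^ (-(3 * δ))
  lam1 : (n : ℝ) ^ 2 * p ^ 3 ≤ 1

theorem rc_of {ε δ : ℝ} (hε : 0 < ε) (hδ : 0 < δ) {n : ℕ} (hn : 1 ≤ n) {p : ℝ}
    (hp : (n : ℝ) ^ (-3 / 4 + ε) ≤ p) (hp' : p ≤ (n : ℝ) ^ (-2 / 3 - δ)) : RC ε δ n p := by
  have hn1 : (1 : ℝ) ≤ n := by exact_mod_cast hn
  have hn0 : (0 : ℝ) < n := by linarith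
  have hp0 : 0 < p := lt_of_lt_of_le (Real.rpow_pos_of_pos hn0 _) hp
  have hlam : (n : ℝ) ^ 2 * p ^ 3 ≤ (n : ℝ) ^ (-(3 * δ)) := by
    have h1 : p ^ 3 ≤ ((n : ℝ) ^ (-2 / 3 - δ)) ^ 3 := pow_le_pow_left₀ hp0.le hp' 3
    have h2 : ((n : ℝ) ^ (-2 / 3 - δ)) ^ 3 = (n : ℝ) ^ (-2 - 3 * δ) := by
      rw [← Real.rpow_natCast, ← Real.rpow_mul hn0.le]
      congr 1
      push_cast
      ring
    have h3 : (n : ℝ) ^ (-(3 * δ)) = (n : ℝ) ^ 2 * (n : ℝ) ^ (-2 - 3 * δ) := by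
      rw [← Real.rpow_natCast, ← Real.rpow_add hn0]
      congr 1
      push_cast
      ring
    rw [h3]
    rw [h2] at h1
    exact mul_le_mul_of_nonneg_left h1 (by positivity)
  refine ⟨hn1, hp0, ?_, ?_, ?_, hlam, ?_⟩
  · refine hp'.trans (Real.rpow_le_one_of_one_le_of_nonpos hn1 (by linarith))
  · have h1 : ((n : ℝ) ^ (-3 / 4 + ε)) ^ 4 ≤ p ^ 4 :=
      pow_le_pow_left₀ (Real.rpow_pos_of_pos hn0 _).le hp 4
    have h2 : ((n : ℝ) ^ (-3 / 4 + ε)) ^ 4 = (n : ℝ) ^ (-3 + 4 * ε) := by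
      rw [← Real.rpow_natCast, ← Real.rpow_mul hn0.le]
      congr 1
      push_cast
      ring
    have h3 : (n : ℝ) ^ (4 * ε) = (n : ℝ) ^ 3 * (n : ℝ) ^ (-3 + 4 * ε) := by
      rw [← Real.rpow_natCast, ← Real.rpow_add hn0]
      congr 1
      push_cast
      ring
    rw [h3]
    rw [h2] at h1
    exact mul_le_mul_of_nonneg_left h1 (by positivity)
  · have h1 : (n : ℝ) ^ (1 / 4 : ℝ) ≤ (n : ℝ) * (n : ℝ) ^ (-3 / 4 + ε) := by
      nth_rewrite 2 [← Real.rpow_one (n : ℝ)]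
      rw [← Real.rpow_add hn0]
      exact Real.rpow_le_rpow_of_exponent_le hn1 (by linarith)
    exact h1.trans (mul_le_mul_of_nonneg_left hp hn0.le)
  · exact hlam.trans (Real.rpow_le_one_of_one_le_of_nonpos hn1 (by linarith))

section

variable {ε δ σ : ℝ} {n : ℕ} {p : ℝ}

theorem sm_facts (h : RC ε δ n p) (hσ : 0 < σ) (hσ1 : σ ≤ 1) {m : ℕ}
    (hm : 2 ≤ m) (hm5 : m ≤ 5) :
    0 < sm (3 * δ) σ n p m ∧ sm (3 * δ) σ n p m ≤ σ ∧
    (n : ℝ) ^ 3 * p ^ 4 * sm (3 * δ) σ n p m ^ (m - 1) ≤ (n : ℝ) ^ (3 * δ / 4) ∧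
    YY ε (3 * δ) σ n ≤ (n : ℝ) ^ 3 * p ^ 4 * sm (3 * δ) σ n p m ^ (m - 1) ∧
    YY ε (3 * δ) σ n ≤ sm (3 * δ) σ n p m * (n * p) := by
  have hn0 : (0 : ℝ) < n := by linarith [h.n_pos]
  have hp0 := h.p_pos
  set T : ℝ := (n : ℝ) ^ 3 * p ^ 4 with hT
  have hT0 : 0 < T := by positivity
  have hN0 : 0 < (n : ℝ) ^ (3 * δ / 4) := Real.rpow_pos_of_pos hn0 _
  set x : ℝ := (n : ℝ) ^ (3 * δ / 4) / T with hx
  have hx0 : 0 < x := by positivity
  have hj : (0 : ℝ) < ((m - 1 : ℕ) : ℝ) := by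
    have : 0 < m - 1 := by omega
    exact_mod_cast this
  have hj1 : (1 : ℝ) ≤ ((m - 1 : ℕ) : ℝ) := by
    have : 1 ≤ m - 1 := by omega
    exact_mod_cast this
  have hs : sm (3 * δ) σ n p m = min σ (x ^ (1 / ((m - 1 : ℕ) : ℝ))) := rfl
  rw [hs]
  have hxp : 0 < x ^ (1 / ((m - 1 : ℕ) : ℝ)) := Real.rpow_pos_of_pos hx0 _
  have hxj : (x ^ (1 / ((m - 1 : ℕ) : ℝ))) ^ (m - 1) = x := by
    rw [← Real.rpow_natCast, ← Real.rpow_mul hx0.le, one_div, inv_mul_cancel₀ hj.ne',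
      Real.rpow_one]
  have hs0 : 0 < min σ (x ^ (1 / ((m - 1 : ℕ) : ℝ))) := lt_min hσ hxp
  refine ⟨hs0, min_le_left _ _, ?_, ?_, ?_⟩
  · have h1 : min σ (x ^ (1 / ((m - 1 : ℕ) : ℝ))) ^ (m - 1) ≤ x := by
      calc min σ (x ^ (1 / ((m - 1 : ℕ) : ℝ))) ^ (m - 1)
          ≤ (x ^ (1 / ((m - 1 : ℕ) : ℝ))) ^ (m - 1) :=
            pow_le_pow_left₀ hs0.le (min_le_right _ _) _
        _ = x := hxj
    calc T * min σ (x ^ (1 / ((m - 1 : ℕ) : ℝ))) ^ (m - 1) ≤ T * x :=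
          mul_le_mul_of_nonneg_left h1 hT0.le
      _ = (n : ℝ) ^ (3 * δ / 4) := by rw [hx]; field_simp
  · unfold YY
    rcases min_choice σ (x ^ (1 / ((m - 1 : ℕ) : ℝ))) with h1 | h1
    · rw [h1]
      refine (min_le_left _ _).trans ?_
      have h2 : σ ^ 4 ≤ σ ^ (m - 1) := pow_le_pow_of_le_one hσ.le hσ1 (by omega)
      calc σ ^ 4 * (n : ℝ) ^ (4 * ε) ≤ σ ^ (m - 1) * T :=
            mul_le_mul h2 h.T_ge (by positivity) (by positivity)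
        _ = T * σ ^ (m - 1) := mul_comm _ _
    · rw [h1, hxj]
      refine (min_le_right _ _).trans ((min_le_right _ _).trans (le_of_eq ?_))
      rw [hx]
      field_simp
  · unfold YY
    have hd0 : 0 < (n : ℝ) * p := by positivity
    rcases min_choice σ (x ^ (1 / ((m - 1 : ℕ) : ℝ))) with h1 | h1
    · rw [h1]
      refine (min_le_right _ _).trans ((min_le_left _ _).trans ?_)
      exact mul_le_mul_of_nonneg_left h.d_ge hσ.le
    · rcases le_total 1 x with h2 | h2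
      · -- then the power is at least one, hence `σ = 1`
        have h3 : 1 ≤ x ^ (1 / ((m - 1 : ℕ) : ℝ)) := Real.one_le_rpow h2 (by positivity)
        have h4 : σ ≤ x ^ (1 / ((m - 1 : ℕ) : ℝ)) := hσ1.trans h3
        rw [min_eq_left h4]
        refine (min_le_right _ _).trans ((min_le_left _ _).trans ?_)
        exact mul_le_mul_of_nonneg_left h.d_ge hσ.le
      · rw [h1]
        refine (min_le_right _ _).trans ((min_le_right _ _).trans ?_)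
        have h3 : x ≤ x ^ (1 / ((m - 1 : ℕ) : ℝ)) := by
          nth_rewrite 1 [← Real.rpow_one x]
          refine Real.rpow_le_rpow_of_exponent_ge hx0 h2 ?_
          rw [div_le_one hj]
          exact hj1
        have h4 : (n : ℝ) ^ (3 * δ / 4) ≤ x * (n * p) := by
          have h5 : x * (n * p) = (n : ℝ) ^ (3 * δ / 4) / ((n : ℝ) ^ 2 * p ^ 3) := by
            rw [hx, hT]
            field_simp
          rw [h5, le_div_iff₀ (by positivity)]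
          have := mul_le_mul_of_nonneg_left h.lam1 hN0.le
          linarith
        exact h4.trans (mul_le_mul_of_nonneg_right h3 hd0.le)

end

end Pool.Agent.H90.Shot
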