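import Mathlib
import Pool.Agent.H90.Shot.Cyc

/-!
# Counting 5-cycles in typical graphs and in their mates
-/

set_option autoImplicit false
set_option linter.unusedSectionVars false

open Finset Classical

namespace Pool.Agent.H90.Shot

section count

variable {V : Type*} [Fintype V] {G H : SimpleGraph V}

theorem ext5 {t t' : Fin 5 → V} (h0 : t 0 = t' 0) (h1 : t 1 = t' 1) (h2 : t 2 = t' 2)
    (h3 : t 3 = t' 3) (h4 : t 4 = t' 4) : t = t' := by
  funext i
  fin_cases i
  · exact h0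
  · exact h1
  · exact h2
  · exact h3
  · exact h4

/-- rotation of the base edge -/
theorem card_rot (K : SimpleGraph V) (P : (Fin 5 → V) → Prop)
    (hP : ∀ t k, P (fun i => t (i + k)) ↔ P t) (a b : V) (k : Fin 5) :
    (univ.filter fun t : Fin 5 → V => IsC5 K t ∧ P t ∧ t k = a ∧ t (k + 1) = b).card =
      (univ.filter fun t : Fin 5 → V => IsC5 K t ∧ P t ∧ t 0 = a ∧ t 1 = b).card := by
  refine Finset.card_bij (fun t _ => fun i => t (i + k)) ?_ ?_ ?_
  · intro t ht
    simp only [mem_filter, mem_univ, true_and] at ht ⊢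
    refine ⟨ht.1.rot k, (hP t k).mpr ht.2.1, ?_, ?_⟩
    · rw [zero_add]; exact ht.2.2.1
    · rw [add_comm]; exact ht.2.2.2
  · intro t _ t' _ h
    funext i
    have := congrFun h (i - k)
    simpa using this
  · intro t ht
    simp only [mem_filter, mem_univ, true_and] at ht
    refine ⟨fun i => t (i - k), ?_, ?_⟩
    · simp only [mem_filter, mem_univ, true_and]
      have e : (fun i => t (i - k)) = (fun i => t (i + -k)) := by
        funext i; rw [sub_eq_add_neg]
      refine ⟨?_, ?_, ?_, ?_⟩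
      · rw [e]; exact ht.1.rot (-k)
      · rw [e]; exact (hP t (-k)).mpr ht.2.1
      · rw [sub_self]; exact ht.2.2.1
      · rw [add_sub_cancel_left]; exact ht.2.2.2
    · funext i
      simp

theorem card_through_le (K : SimpleGraph V) (P : (Fin 5 → V) → Prop)
    (hP : ∀ t k, P (fun i => t (i + k)) ↔ P t) (a b : V) {M : ℝ}
    (h1 : ((univ.filter fun t : Fin 5 → V => IsC5 K t ∧ P t ∧ t 0 = a ∧ t 1 = b).card : ℝ) ≤ M)
    (h2 : ((univ.filter fun t : Fin 5 → V => IsC5 K t ∧ P t ∧ t 0 = b ∧ t 1 = a).card : ℝ) ≤ M)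
    (I : Finset (Fin 5)) :
    ((univ.filter fun t : Fin 5 → V => IsC5 K t ∧ P t ∧ ∃ k ∈ I, s(t k, t (k + 1)) = s(a, b)).card
      : ℝ) ≤ 2 * I.card * M := by
  have hsub : (univ.filter fun t : Fin 5 → V => IsC5 K t ∧ P t ∧
      ∃ k ∈ I, s(t k, t (k + 1)) = s(a, b)) ⊆
      I.biUnion (fun k => (univ.filter fun t : Fin 5 → V => IsC5 K t ∧ P t ∧ t k = a ∧
        t (k + 1) = b) ∪ (univ.filter fun t : Fin 5 → V => IsC5 K t ∧ P t ∧ t k = b ∧
        t (k + 1) = a)) := by
    intro t ht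
    simp only [mem_filter, mem_univ, true_and, mem_biUnion, mem_union] at ht ⊢
    obtain ⟨h1, h2, k, hk, h3⟩ := ht
    refine ⟨k, hk, ?_⟩
    rcases Sym2.eq_iff.mp h3 with h | h
    · exact Or.inl ⟨h1, h2, h⟩
    · exact Or.inr ⟨h1, h2, h⟩
  have hc := (Finset.card_le_card hsub).trans Finset.card_biUnion_le
  have hc2 : ((univ.filter fun t : Fin 5 → V => IsC5 K t ∧ P t ∧
      ∃ k ∈ I, s(t k, t (k + 1)) = s(a, b)).card : ℝ) ≤ ∑ k ∈ I, (2 * M) := by
    refine (Nat.cast_le.mpr hc).trans ?_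
    rw [Nat.cast_sum]
    refine Finset.sum_le_sum (fun k _ => ?_)
    refine (Nat.cast_le.mpr (Finset.card_union_le _ _)).trans ?_
    rw [Nat.cast_add, card_rot K P hP a b k, card_rot K P hP b a k]
    linarith
  refine hc2.trans ?_
  rw [Finset.sum_const, nsmul_eq_mul]
  linarith

variable {D k₁ k₂ : ℕ} {T₁ T₂ : ℝ}

theorem Typ.c2 (hT : Typ G D k₁ k₂ T₁ T₂) (a x y : V) :
    (univ.filter fun t : Fin 5 → V => IsC5 G t ∧ t 0 = a ∧ t 1 = x ∧ t 2 = y).card ≤ k₂ := by
  rcases (univ.filter fun t : Fin 5 → V => IsC5 G t ∧ t 0 = a ∧ t 1 = x ∧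
    t 2 = y).eq_empty_or_nonempty with h | ⟨t₀, h₀⟩
  · rw [h]; simp
  · simp only [mem_filter, mem_univ, true_and] at h₀
    have hne : y ≠ a := by
      rw [← h₀.2.1, ← h₀.2.2.2]
      exact fun h => absurd (h₀.1.1 h) (by decide)
    refine le_trans (Finset.card_le_card_of_injOn (fun t => (t 3, t 4)) ?_ ?_)
      (hT.path3 y a hne)
    · intro t ht
      simp only [coe_filter, mem_univ, true_and, Set.mem_ofPred_eq] at ht ⊢
      obtain ⟨h1, h2, h3, h4⟩ := ht
      have e2 := h1.2 2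
      have e3 := h1.2 3
      have e4 := h1.2 4
      rw [← h4, ← h2]
      refine ⟨e2, e3, e4, fun h => absurd (h1.1 h) (by decide), fun h => absurd (h1.1 h)
        (by decide)⟩
    · intro t ht t' ht' h
      simp only [coe_filter, mem_univ, true_and, Set.mem_ofPred_eq] at ht ht'
      simp only [Prod.mk.injEq] at h
      exact ext5 (ht.2.1.trans ht'.2.1.symm) (ht.2.2.1.trans ht'.2.2.1.symm)
        (ht.2.2.2.trans ht'.2.2.2.symm) h.1 h.2

theorem Typ.c4 (hT : Typ G D k₁ k₂ T₁ T₂) (a x y : V) :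
    (univ.filter fun t : Fin 5 → V => IsC5 G t ∧ t 0 = a ∧ t 1 = x ∧ t 4 = y).card ≤ k₂ := by
  rcases (univ.filter fun t : Fin 5 → V => IsC5 G t ∧ t 0 = a ∧ t 1 = x ∧
    t 4 = y).eq_empty_or_nonempty with h | ⟨t₀, h₀⟩
  · rw [h]; simp
  · simp only [mem_filter, mem_univ, true_and] at h₀
    have hne : x ≠ y := by
      rw [← h₀.2.2.1, ← h₀.2.2.2]
      exact fun h => absurd (h₀.1.1 h) (by decide)
    refine le_trans (Finset.card_le_card_of_injOn (fun t => (t 2, t 3)) ?_ ?_)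
      (hT.path3 x y hne)
    · intro t ht
      simp only [coe_filter, mem_univ, true_and, Set.mem_ofPred_eq] at ht ⊢
      obtain ⟨h1, h2, h3, h4⟩ := ht
      have e1 := h1.2 1
      have e2 := h1.2 2
      have e3 := h1.2 3
      rw [← h4, ← h3]
      refine ⟨e1, e2, e3, fun h => absurd (h1.1 h) (by decide), fun h => absurd (h1.1 h)
        (by decide)⟩
    · intro t ht t' ht' h
      simp only [coe_filter, mem_univ, true_and, Set.mem_ofPred_eq] at ht ht'
      simp only [Prod.mk.injEq] at h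
      exact ext5 (ht.2.1.trans ht'.2.1.symm) (ht.2.2.1.trans ht'.2.2.1.symm)
        h.1 h.2 (ht.2.2.2.trans ht'.2.2.2.symm)

theorem Typ.c23 (hT : Typ G D k₁ k₂ T₁ T₂) (a x y z : V) :
    (univ.filter fun t : Fin 5 → V => IsC5 G t ∧ t 0 = a ∧ t 1 = x ∧ t 2 = y ∧ t 3 = z).card
      ≤ k₁ := by
  rcases (univ.filter fun t : Fin 5 → V => IsC5 G t ∧ t 0 = a ∧ t 1 = x ∧
    t 2 = y ∧ t 3 = z).eq_empty_or_nonempty with h | ⟨t₀, h₀⟩
  · rw [h]; simp
  · simp only [mem_filter, mem_univ, true_and] at h₀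
    have hne : z ≠ a := by
      rw [← h₀.2.1, ← h₀.2.2.2.2]
      exact fun h => absurd (h₀.1.1 h) (by decide)
    refine le_trans (Finset.card_le_card_of_injOn (fun t => t 4) ?_ ?_)
      (hT.codeg z a hne)
    · intro t ht
      simp only [coe_filter, mem_univ, true_and, Set.mem_ofPred_eq] at ht ⊢
      obtain ⟨h1, h2, h3, h4, h5⟩ := ht
      have e3 := h1.2 3
      have e4 := h1.2 4
      rw [← h5, ← h2]
      exact ⟨e3, e4⟩
    · intro t ht t' ht' h
      simp only [coe_filter, mem_univ, true_and, Set.mem_ofPred_eq] at ht ht'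
      exact ext5 (ht.2.1.trans ht'.2.1.symm) (ht.2.2.1.trans ht'.2.2.1.symm)
        (ht.2.2.2.1.trans ht'.2.2.2.1.symm) (ht.2.2.2.2.trans ht'.2.2.2.2.symm) h

theorem Typ.c34 (hT : Typ G D k₁ k₂ T₁ T₂) (a x y z : V) :
    (univ.filter fun t : Fin 5 → V => IsC5 G t ∧ t 0 = a ∧ t 1 = x ∧ t 3 = y ∧ t 4 = z).card
      ≤ k₁ := by
  rcases (univ.filter fun t : Fin 5 → V => IsC5 G t ∧ t 0 = a ∧ t 1 = x ∧
    t 3 = y ∧ t 4 = z).eq_empty_or_nonempty with h | ⟨t₀, h₀⟩
  · rw [h]; simp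
  · simp only [mem_filter, mem_univ, true_and] at h₀
    have hne : x ≠ y := by
      rw [← h₀.2.2.1, ← h₀.2.2.2.1]
      exact fun h => absurd (h₀.1.1 h) (by decide)
    refine le_trans (Finset.card_le_card_of_injOn (fun t => t 2) ?_ ?_)
      (hT.codeg x y hne)
    · intro t ht
      simp only [coe_filter, mem_univ, true_and, Set.mem_ofPred_eq] at ht ⊢
      obtain ⟨h1, h2, h3, h4, h5⟩ := ht
      have e1 := h1.2 1
      have e2 := h1.2 2
      rw [← h3, ← h4]
      exact ⟨e1, e2⟩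
    · intro t ht t' ht' h
      simp only [coe_filter, mem_univ, true_and, Set.mem_ofPred_eq] at ht ht'
      exact ext5 (ht.2.1.trans ht'.2.1.symm) (ht.2.2.1.trans ht'.2.2.1.symm) h
        (ht.2.2.2.1.trans ht'.2.2.2.1.symm) (ht.2.2.2.2.trans ht'.2.2.2.2.symm)

/-- cycles with prescribed first dart through a further vertex opposite to it -/
theorem Typ.c3 (hT : Typ G D k₁ k₂ T₁ T₂) (a x y : V) :
    (univ.filter fun t : Fin 5 → V => IsC5 G t ∧ t 0 = a ∧ t 1 = x ∧ t 3 = y).card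
      ≤ k₁ * k₁ := by
  rcases (univ.filter fun t : Fin 5 → V => IsC5 G t ∧ t 0 = a ∧ t 1 = x ∧
    t 3 = y).eq_empty_or_nonempty with h | ⟨t₀, h₀⟩
  · rw [h]; simp
  · simp only [mem_filter, mem_univ, true_and] at h₀
    have hne : x ≠ y := by
      rw [← h₀.2.2.1, ← h₀.2.2.2]
      exact fun h => absurd (h₀.1.1 h) (by decide)
    have hne2 : y ≠ a := by
      rw [← h₀.2.1, ← h₀.2.2.2]
      exact fun h => absurd (h₀.1.1 h) (by decide)
    have key : (univ.filter fun t : Fin 5 → V => IsC5 G t ∧ t 0 = a ∧ t 1 = x ∧ t 3 = y).card ≤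
        ((univ.filter fun z => G.Adj x z ∧ G.Adj z y) ×ˢ
          (univ.filter fun z => G.Adj y z ∧ G.Adj z a)).card := by
      refine Finset.card_le_card_of_injOn (fun t => (t 2, t 4)) ?_ ?_
      · intro t ht
        simp only [coe_filter, mem_univ, true_and, Set.mem_ofPred_eq] at ht
        simp only [coe_product, coe_filter, mem_univ, true_and, Set.mem_prod, Set.mem_ofPred_eq]
        obtain ⟨h1, h2, h3, h4⟩ := ht
        have e1 := h1.2 1
        have e2 := h1.2 2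
        have e3 := h1.2 3
        have e4 := h1.2 4
        rw [← h2, ← h3, ← h4]
        exact ⟨⟨e1, e2⟩, ⟨e3, e4⟩⟩
      · intro t ht t' ht' h
        simp only [coe_filter, mem_univ, true_and, Set.mem_ofPred_eq] at ht ht'
        simp only [Prod.mk.injEq] at h
        exact ext5 (ht.2.1.trans ht'.2.1.symm) (ht.2.2.1.trans ht'.2.2.1.symm) h.1
          (ht.2.2.2.trans ht'.2.2.2.symm) h.2
    rw [Finset.card_product] at key
    exact key.trans (Nat.mul_le_mul (hT.codeg x y hne) (hT.codeg y a hne2))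

/-- cycles with prescribed first dart and a prescribed further edge -/
theorem Typ.cEdge (hT : Typ G D k₁ k₂ T₁ T₂) (a x : V) (f : Sym2 V) :
    (univ.filter fun t : Fin 5 → V => IsC5 G t ∧ t 0 = a ∧ t 1 = x ∧
      ∃ i : Fin 5, i ≠ 0 ∧ s(t i, t (i + 1)) = f).card ≤ 2 * k₂ + 4 * k₁ := by
  induction f using Sym2.ind with
  | _ u v =>
  have hsub : (univ.filter fun t : Fin 5 → V => IsC5 G t ∧ t 0 = a ∧ t 1 = x ∧
      ∃ i : Fin 5, i ≠ 0 ∧ s(t i, t (i + 1)) = s(u, v)) ⊆
      (((univ.filter fun t : Fin 5 → V => IsC5 G t ∧ t 0 = a ∧ t 1 = x ∧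
          t 2 = (if u = x then v else u)) ∪
        ((univ.filter fun t : Fin 5 → V => IsC5 G t ∧ t 0 = a ∧ t 1 = x ∧ t 2 = u ∧ t 3 = v) ∪
        (univ.filter fun t : Fin 5 → V => IsC5 G t ∧ t 0 = a ∧ t 1 = x ∧ t 2 = v ∧ t 3 = u))) ∪
        (((univ.filter fun t : Fin 5 → V => IsC5 G t ∧ t 0 = a ∧ t 1 = x ∧ t 3 = u ∧ t 4 = v) ∪
        (univ.filter fun t : Fin 5 → V => IsC5 G t ∧ t 0 = a ∧ t 1 = x ∧ t 3 = v ∧ t 4 = u)) ∪
        (univ.filter fun t : Fin 5 → V => IsC5 G t ∧ t 0 = a ∧ t 1 = x ∧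
          t 4 = (if u = a then v else u)))) := by
    intro t ht
    simp only [mem_filter, mem_univ, true_and, mem_union] at ht ⊢
    obtain ⟨h1, h2, h3, i, hi, h4⟩ := ht
    fin_cases i
    · exact absurd rfl hi
    · left; left
      refine ⟨h1, h2, h3, ?_⟩
      have h5 : s(t 1, t 2) = s(u, v) := h4
      rw [h3] at h5
      rcases Sym2.eq_iff.mp h5 with ⟨h6, h7⟩ | ⟨h6, h7⟩
      · rw [if_pos h6.symm, h7]
      · by_cases hu : u = x
        · rw [if_pos hu, h7, hu, h6]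
        · rw [if_neg hu, h7]
    · have h5 : s(t 2, t 3) = s(u, v) := h4
      rcases Sym2.eq_iff.mp h5 with ⟨h6, h7⟩ | ⟨h6, h7⟩
      · left; right; left
        exact ⟨h1, h2, h3, h6, h7⟩
      · left; right; right
        exact ⟨h1, h2, h3, h6, h7⟩
    · have h5 : s(t 3, t 4) = s(u, v) := h4
      rcases Sym2.eq_iff.mp h5 with ⟨h6, h7⟩ | ⟨h6, h7⟩
      · right; left; left
        exact ⟨h1, h2, h3, h6, h7⟩
      · right; left; right
        exact ⟨h1, h2, h3, h6, h7⟩
    · right; right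
      refine ⟨h1, h2, h3, ?_⟩
      have h5 : s(t 4, t 0) = s(u, v) := h4
      rw [h2] at h5
      rcases Sym2.eq_iff.mp h5 with ⟨h6, h7⟩ | ⟨h6, h7⟩
      · by_cases hu : u = a
        · rw [if_pos hu, h6, hu, h7]
        · rw [if_neg hu, h6]
      · rw [if_pos h7.symm, h6]
  refine (Finset.card_le_card hsub).trans ?_
  refine (Finset.card_union_le _ _).trans ?_
  have e1 := (Finset.card_union_le (univ.filter fun t : Fin 5 → V => IsC5 G t ∧ t 0 = a ∧
    t 1 = x ∧ t 2 = (if u = x then v else u))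
    ((univ.filter fun t : Fin 5 → V => IsC5 G t ∧ t 0 = a ∧ t 1 = x ∧ t 2 = u ∧ t 3 = v) ∪
        (univ.filter fun t : Fin 5 → V => IsC5 G t ∧ t 0 = a ∧ t 1 = x ∧ t 2 = v ∧ t 3 = u)))
  have e2 := (Finset.card_union_le
    (univ.filter fun t : Fin 5 → V => IsC5 G t ∧ t 0 = a ∧ t 1 = x ∧ t 2 = u ∧ t 3 = v)
    (univ.filter fun t : Fin 5 → V => IsC5 G t ∧ t 0 = a ∧ t 1 = x ∧ t 2 = v ∧ t 3 = u))
  have e3 := (Finset.card_union_le
    ((univ.filter fun t : Fin 5 → V => IsC5 G t ∧ t 0 = a ∧ t 1 = x ∧ t 3 = u ∧ t 4 = v) ∪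
    (univ.filter fun t : Fin 5 → V => IsC5 G t ∧ t 0 = a ∧ t 1 = x ∧ t 3 = v ∧ t 4 = u))
    (univ.filter fun t : Fin 5 → V => IsC5 G t ∧ t 0 = a ∧ t 1 = x ∧
          t 4 = (if u = a then v else u)))
  have e4 := (Finset.card_union_le
    (univ.filter fun t : Fin 5 → V => IsC5 G t ∧ t 0 = a ∧ t 1 = x ∧ t 3 = u ∧ t 4 = v)
    (univ.filter fun t : Fin 5 → V => IsC5 G t ∧ t 0 = a ∧ t 1 = x ∧ t 3 = v ∧ t 4 = u))
  have f1 := hT.c2 a x (if u = x then v else u)
  have f2 := hT.c23 a x u v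
  have f3 := hT.c23 a x v u
  have f4 := hT.c34 a x u v
  have f5 := hT.c34 a x v u
  have f6 := hT.c4 a x (if u = a then v else u)
  omega

namespace Views

variable (W : Views G H)

include W in
/-- cycles of `H` with first dart `(v, w)` through a further given edge -/
theorem card_edge_le (hT : Typ G D k₁ k₂ T₁ T₂) (v w : V) {e : Sym2 V}
    (he : e ≠ s(v, w)) :
    (univ.filter fun t : Fin 5 → V => IsC5 H t ∧ e ∈ ced t ∧ t 0 = v ∧ t 1 = w).card ≤
      2 * k₂ + 4 * k₁ := by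
  refine le_trans (Finset.card_le_card_of_injOn (fun t => W.phi t) ?_ ?_)
    (hT.cEdge v (W.g v w) (e.map (W.g v)))
  · intro t ht
    simp only [coe_filter, mem_univ, true_and, Set.mem_ofPred_eq] at ht ⊢
    obtain ⟨h1, h2, h3, h4⟩ := ht
    refine ⟨W.phi_isC5 h1, ?_, ?_, ?_⟩
    · rw [W.phi_zero, h3]
    · unfold phi; rw [h3, h4]
    · obtain ⟨i, _, rfl⟩ := mem_image.mp h2
      refine ⟨i, ?_, ?_⟩
      · rintro rfl
        apply he
        rw [zero_add, h3, h4]
      · unfold phi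
        rw [h3, Sym2.map_mk]
  · intro t ht t' ht' h
    simp only [coe_filter, mem_univ, true_and, Set.mem_ofPred_eq] at ht ht'
    exact W.phi_inj ht.1 ht'.1 h

/-- cycles of `H` through two given edges -/
theorem card_two_edges (hT : Typ G D k₁ k₂ T₁ T₂) {e e' : Sym2 V} (he : e ≠ e') :
    ((W.CH.filter fun t => e ∈ ced t ∧ e' ∈ ced t).card : ℝ) ≤ 10 * (2 * k₂ + 4 * k₁) := by
  induction e' using Sym2.ind with
  | _ a b =>
  have h1 := W.card_edge_le hT a b he
  have h2 := W.card_edge_le hT b a (e := e) (by rw [Sym2.eq_swap]; exact he)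
  have h1' : ((univ.filter fun t : Fin 5 → V => IsC5 H t ∧ e ∈ ced t ∧ t 0 = a ∧
      t 1 = b).card : ℝ) ≤ ((2 * k₂ + 4 * k₁ : ℕ) : ℝ) := by exact_mod_cast h1
  have h2' : ((univ.filter fun t : Fin 5 → V => IsC5 H t ∧ e ∈ ced t ∧ t 0 = b ∧
      t 1 = a).card : ℝ) ≤ ((2 * k₂ + 4 * k₁ : ℕ) : ℝ) := by exact_mod_cast h2
  have h3 := card_through_le H (fun t => e ∈ ced t) (fun t k => by simp only [ced_rot]) a b
    (M := ((2 * k₂ + 4 * k₁ : ℕ) : ℝ)) (by convert h1') (by convert h2') univ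
  have h4 : W.CH.filter (fun t => e ∈ ced t ∧ s(a, b) ∈ ced t) =
      univ.filter (fun t : Fin 5 → V => IsC5 H t ∧ e ∈ ced t ∧
        ∃ k ∈ (univ : Finset (Fin 5)), s(t k, t (k + 1)) = s(a, b)) := by
    ext t
    simp only [mem_filter, W.mem_CH, mem_univ, true_and]
    unfold ced
    simp
  rw [h4]
  have h3' : ((univ.filter (fun t : Fin 5 → V => IsC5 H t ∧ e ∈ ced t ∧
        ∃ k ∈ (univ : Finset (Fin 5)), s(t k, t (k + 1)) = s(a, b))).card : ℝ) ≤
      2 * (univ : Finset (Fin 5)).card * ((2 * k₂ + 4 * k₁ : ℕ) : ℝ) := by convert h3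
  refine h3'.trans ?_
  simp only [card_univ, Fintype.card_fin]
  push_cast
  linarith

include W in
theorem ncyc_le (hT : Typ G D k₁ k₂ T₁ T₂) {v w : V} (h : H.Adj v w) :
    (ncyc H v w : ℝ) ≤ T₂ := by
  rw [W.ncyc_eq h]
  exact hT.cyc_ub v _ (W.g_adj h)

include W in
theorem le_ncyc (hT : Typ G D k₁ k₂ T₁ T₂) {v w : V} (h : H.Adj v w) :
    T₁ ≤ (ncyc H v w : ℝ) := by
  rw [W.ncyc_eq h]
  exact hT.cyc_lb v _ (W.g_adj h)

/-- cycles of `H` through a given edge -/
theorem card_one_edge (hT : Typ G D k₁ k₂ T₁ T₂) {e : Sym2 V} (he : e ∈ H.edgeSet) :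
    ((W.CH.filter fun t => e ∈ ced t).card : ℝ) ≤ 10 * T₂ := by
  induction e using Sym2.ind with
  | _ a b =>
  have hab : H.Adj a b := he
  have h1 := W.ncyc_le hT hab
  have h2 := W.ncyc_le hT hab.symm
  have h3 := card_through_le H (fun _ => True) (fun t k => Iff.rfl) a b
    (M := T₂) (by simpa [ncyc] using h1) (by simpa [ncyc] using h2) univ
  have h4 : W.CH.filter (fun t => s(a, b) ∈ ced t) =
      univ.filter (fun t : Fin 5 → V => IsC5 H t ∧ True ∧
        ∃ k ∈ (univ : Finset (Fin 5)), s(t k, t (k + 1)) = s(a, b)) := by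
    ext t
    simp only [mem_filter, W.mem_CH, mem_univ, true_and]
    unfold ced
    simp
  rw [h4]
  have h3' : ((univ.filter (fun t : Fin 5 → V => IsC5 H t ∧ True ∧
        ∃ k ∈ (univ : Finset (Fin 5)), s(t k, t (k + 1)) = s(a, b))).card : ℝ) ≤
      2 * (univ : Finset (Fin 5)).card * T₂ := by convert h3
  refine h3'.trans ?_
  simp only [card_univ, Fintype.card_fin]
  push_cast
  linarith

/-- views through a given far edge -/
theorem card_far_le (hT : Typ G D k₁ k₂ T₁ T₂) (h0 : 0 ≤ T₂) (g : Sym2 V) :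
    ((W.CH.filter fun t => g ∈ far (W.phi t)).card : ℝ) ≤ 6 * T₂ := by
  have key : (W.CH.filter fun t => g ∈ far (W.phi t)).card =
      (univ.filter (fun t' : Fin 5 → V => IsC5 G t' ∧ g ∈ far t')).card := by
    convert W.card_CH_filter (fun t' => g ∈ far t')
  rw [key]
  by_cases hg : g ∈ G.edgeSet
  · induction g using Sym2.ind with
    | _ a b =>
    have hab : G.Adj a b := hg
    have h1 := hT.cyc_ub a b hab
    have h2 := hT.cyc_ub b a hab.symm
    have h3 := card_through_le G (fun _ => True) (fun t k => Iff.rfl) a b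
      (M := T₂) (by simpa [ncyc] using h1) (by simpa [ncyc] using h2) {1, 2, 3}
    have h4 : (univ.filter (fun t' : Fin 5 → V => IsC5 G t' ∧ s(a, b) ∈ far t')) =
        univ.filter (fun t : Fin 5 → V => IsC5 G t ∧ True ∧
          ∃ k ∈ ({1, 2, 3} : Finset (Fin 5)), s(t k, t (k + 1)) = s(a, b)) := by
      ext t
      simp only [mem_filter, mem_univ, true_and]
      unfold far
      simp only [mem_insert, mem_singleton, exists_eq_or_imp, exists_eq_left]
      have e1 : (1 : Fin 5) + 1 = 2 := rfl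
      have e2 : (2 : Fin 5) + 1 = 3 := rfl
      have e3 : (3 : Fin 5) + 1 = 4 := rfl
      rw [e1, e2, e3]
      tauto
    rw [h4]
    have h3' : ((univ.filter (fun t : Fin 5 → V => IsC5 G t ∧ True ∧
          ∃ k ∈ ({1, 2, 3} : Finset (Fin 5)), s(t k, t (k + 1)) = s(a, b))).card : ℝ) ≤
        2 * ({1, 2, 3} : Finset (Fin 5)).card * T₂ := by convert h3
    refine h3'.trans ?_
    have : (({1, 2, 3} : Finset (Fin 5)).card : ℝ) = 3 := by
      rw [show ({1, 2, 3} : Finset (Fin 5)).card = 3 by decide]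
      norm_num
    rw [this]
    linarith
  · have : (univ.filter (fun t' : Fin 5 → V => IsC5 G t' ∧ g ∈ far t')) = ∅ := by
      rw [Finset.filter_eq_empty_iff]
      rintro t - ⟨h1, h2⟩
      exact hg (ced_subset_edgeSet h1 (far_subset_ced t h2))
    rw [this]
    simp
    linarith

include W in
/-- cycles of `H` with first dart `(v, w)` through a further vertex `z`, whose view is
neither `v` nor the view of `w` -/
theorem card_vertex_le (hT : Typ G D k₁ k₂ T₁ T₂) (v w z : V) (hz : z ≠ v) (hz' : z ≠ w) :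
    (univ.filter fun t : Fin 5 → V => IsC5 H t ∧ t 0 = v ∧ t 1 = w ∧ ∃ i, t i = z).card ≤
      2 * k₂ + k₁ * k₁ := by
  have key : (univ.filter fun t : Fin 5 → V => IsC5 H t ∧ t 0 = v ∧ t 1 = w ∧
      ∃ i, t i = z).card ≤
      ((univ.filter fun t : Fin 5 → V => IsC5 G t ∧ t 0 = v ∧ t 1 = W.g v w ∧
        t 2 = W.g v z) ∪
      ((univ.filter fun t : Fin 5 → V => IsC5 G t ∧ t 0 = v ∧ t 1 = W.g v w ∧
        t 3 = W.g v z) ∪
      (univ.filter fun t : Fin 5 → V => IsC5 G t ∧ t 0 = v ∧ t 1 = W.g v w ∧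
        t 4 = W.g v z))).card := by
    refine Finset.card_le_card_of_injOn (fun t => W.phi t) ?_ ?_
    · intro t ht
      simp only [coe_filter, mem_univ, true_and, Set.mem_ofPred_eq] at ht
      simp only [coe_union, coe_filter, mem_univ, true_and, Set.mem_union, Set.mem_ofPred_eq]
      obtain ⟨h1, h3, h4, i, h2⟩ := ht
      have p0 : W.phi t 0 = v := by rw [W.phi_zero, h3]
      have p1 : W.phi t 1 = W.g v w := by unfold phi; rw [h3, h4]
      have pi : W.phi t i = W.g v z := by unfold phi; rw [h3, h2]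
      fin_cases i
      · exact absurd (h2.symm.trans h3) hz
      · exact absurd (h2.symm.trans h4) hz'
      · left; exact ⟨W.phi_isC5 h1, p0, p1, pi⟩
      · right; left; exact ⟨W.phi_isC5 h1, p0, p1, pi⟩
      · right; right; exact ⟨W.phi_isC5 h1, p0, p1, pi⟩
    · intro t ht t' ht' h
      simp only [coe_filter, mem_univ, true_and, Set.mem_ofPred_eq] at ht ht'
      exact W.phi_inj ht.1 ht'.1 h
  refine key.trans ?_
  have e1 := Finset.card_union_le (univ.filter fun t : Fin 5 → V => IsC5 G t ∧ t 0 = v ∧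
    t 1 = W.g v w ∧ t 2 = W.g v z) ((univ.filter fun t : Fin 5 → V => IsC5 G t ∧ t 0 = v ∧
    t 1 = W.g v w ∧ t 3 = W.g v z) ∪ (univ.filter fun t : Fin 5 → V => IsC5 G t ∧ t 0 = v ∧
    t 1 = W.g v w ∧ t 4 = W.g v z))
  have e2 := Finset.card_union_le (univ.filter fun t : Fin 5 → V => IsC5 G t ∧ t 0 = v ∧
    t 1 = W.g v w ∧ t 3 = W.g v z) (univ.filter fun t : Fin 5 → V => IsC5 G t ∧ t 0 = v ∧
    t 1 = W.g v w ∧ t 4 = W.g v z)
  have f1 := hT.c2 v (W.g v w) (W.g v z)
  have f2 := hT.c3 v (W.g v w) (W.g v z)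
  have f3 := hT.c4 v (W.g v w) (W.g v z)
  omega

/-- cycles of `H` with first dart `(v, w)` whose view has a given second edge -/
theorem card_second_le (hT : Typ G D k₁ k₂ T₁ T₂) (v w : V) (g : Sym2 V) :
    (univ.filter fun t : Fin 5 → V => IsC5 H t ∧ t 0 = v ∧ t 1 = w ∧
      s(W.phi t 1, W.phi t 2) = g).card ≤ k₂ := by
  induction g using Sym2.ind with
  | _ a b =>
  refine le_trans (Finset.card_le_card_of_injOn (fun t => W.phi t) ?_ ?_)
    (hT.c2 v (W.g v w) (if a = W.g v w then b else a))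
  · intro t ht
    simp only [coe_filter, mem_univ, true_and, Set.mem_ofPred_eq] at ht ⊢
    obtain ⟨h1, h3, h4, h2⟩ := ht
    have p1 : W.phi t 1 = W.g v w := by unfold phi; rw [h3, h4]
    refine ⟨W.phi_isC5 h1, by rw [W.phi_zero, h3], p1, ?_⟩
    rw [p1] at h2
    rcases Sym2.eq_iff.mp h2 with ⟨h6, h7⟩ | ⟨h6, h7⟩
    · rw [if_pos h6.symm, h7]
    · by_cases hu : a = W.g v w
      · rw [if_pos hu, h7, hu, h6]
      · rw [if_neg hu, h7]
  · intro t ht t' ht' h
    simp only [coe_filter, mem_univ, true_and, Set.mem_ofPred_eq] at ht ht'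
    exact W.phi_inj ht.1 ht'.1 h

/-- number of popular edges -/
theorem card_popular (hT : Typ G D k₁ k₂ T₁ T₂) {e : Sym2 V} (he : e ∈ H.edgeSet) {θ : ℝ} :
    ((univ.filter fun g : Sym2 V => θ ≤ (W.pop g e : ℝ)).card : ℝ) * θ ≤ 30 * T₂ := by
  have h1 : ∑ g : Sym2 V, (W.pop g e : ℝ) ≤ 30 * T₂ := by
    have h2 : ∑ g : Sym2 V, W.pop g e ≤ 3 * (W.CH.filter fun t => e ∈ ced t).card := by
      unfold pop
      simp only [Finset.card_filter]
      rw [Finset.sum_comm, Finset.mul_sum]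
      refine Finset.sum_le_sum (fun t _ => ?_)
      by_cases h : e ∈ ced t
      · simp only [h, true_and, if_true, mul_one]
        rw [← Finset.card_filter]
        have : (univ.filter fun g => g ∈ far (W.phi t)) = far (W.phi t) := by
          ext g; simp
        rw [this]
        unfold far
        exact Finset.card_le_three
      · simp [h]
    have h3 := W.card_one_edge hT he
    have h4 : ((∑ g : Sym2 V, W.pop g e : ℕ) : ℝ) ≤
        ((3 * (W.CH.filter fun t => e ∈ ced t).card : ℕ) : ℝ) := Nat.cast_le.mpr h2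
    push_cast at h4
    linarith
  refine le_trans ?_ h1
  calc ((univ.filter fun g : Sym2 V => θ ≤ (W.pop g e : ℝ)).card : ℝ) * θ
      = ∑ g ∈ univ.filter (fun g : Sym2 V => θ ≤ (W.pop g e : ℝ)), θ := by
        rw [Finset.sum_const, nsmul_eq_mul]
    _ ≤ ∑ g ∈ univ.filter (fun g : Sym2 V => θ ≤ (W.pop g e : ℝ)), (W.pop g e : ℝ) :=
        Finset.sum_le_sum (fun g hg => (mem_filter.mp hg).2)
    _ ≤ ∑ g : Sym2 V, (W.pop g e : ℝ) :=
        Finset.sum_le_sum_of_subset_of_nonneg (Finset.filter_subset _ _)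
          (fun g _ _ => Nat.cast_nonneg _)

end Views

end count

end Pool.Agent.H90.Shot
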