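import Mathlib
import Pool.Agent.H90.Shot.Cyc2

/-!
# From families of cycles with private far edges to codes of type II
-/

set_option autoImplicit false
set_option linter.unusedSectionVars false

open Finset Classical

namespace Pool.Agent.H90.Shot

/-- Independent sets in digraphs of bounded out-degree. -/
theorem exists_indep {ι : Type*} (d : ℕ) (b : ι → Finset ι) :
    ∀ (N : ℕ) (S : Finset ι), S.card = N → (∀ i ∈ S, (b i).card ≤ d) →
      ∃ I, I ⊆ S ∧ S.card ≤ (2 * d + 1) * I.card ∧ ∀ i ∈ I, ∀ j ∈ I, i ≠ j → j ∉ b i := by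
  intro N
  induction N using Nat.strong_induction_on with
  | _ N ih =>
  intro S hS hb
  rcases S.eq_empty_or_nonempty with rfl | hne
  · exact ⟨∅, le_rfl, by simp, by simp⟩
  · -- an element of small in-degree
    have h1 : ∃ i ∈ S, (S.filter fun j => i ∈ b j).card ≤ d := by
      by_contra hcon
      push Not at hcon
      have h2 : ∑ i ∈ S, (S.filter fun j => i ∈ b j).card ≤ ∑ j ∈ S, (b j).card := by
        simp only [Finset.card_filter]
        rw [Finset.sum_comm]
        refine Finset.sum_le_sum (fun j _ => ?_)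
        rw [← Finset.card_filter]
        refine Finset.card_le_card (fun i hi => (mem_filter.mp hi).2)
      have h3 : ∑ j ∈ S, (b j).card ≤ ∑ _j ∈ S, d := Finset.sum_le_sum hb
      have h4 : ∑ _j ∈ S, d < ∑ i ∈ S, (S.filter fun j => i ∈ b j).card :=
        Finset.sum_lt_sum_of_nonempty hne hcon
      omega
    obtain ⟨i, hi, hin⟩ := h1
    obtain ⟨R, hR⟩ : ∃ R, R = insert i ((b i) ∪ (S.filter fun j => i ∈ b j)) := ⟨_, rfl⟩
    have hRc : R.card ≤ 2 * d + 1 := by
      rw [hR]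
      refine (Finset.card_insert_le _ _).trans ?_
      have := Finset.card_union_le (b i) (S.filter fun j => i ∈ b j)
      have := hb i hi
      omega
    have hlt : (S \ R).card < N := by
      rw [← hS]
      refine Finset.card_lt_card ⟨Finset.sdiff_subset, fun h => ?_⟩
      have := h hi
      rw [mem_sdiff] at this
      apply this.2
      rw [hR]
      exact mem_insert_self _ _
    obtain ⟨I, hI1, hI2, hI3⟩ := ih _ hlt (S \ R) rfl
      (fun j hj => hb j (mem_sdiff.mp hj).1)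
    have hiI : i ∉ I := by
      intro h
      have := (mem_sdiff.mp (hI1 h)).2
      apply this
      rw [hR]
      exact mem_insert_self _ _
    refine ⟨insert i I, ?_, ?_, ?_⟩
    · intro j hj
      rcases mem_insert.mp hj with rfl | hj
      · exact hi
      · exact (mem_sdiff.mp (hI1 hj)).1
    · rw [card_insert_of_notMem hiI]
      have h5 : S.card ≤ (S \ R).card + R.card := by
        have := Finset.card_le_card_sdiff_add_card (s := S) (t := R)
        omega
      rw [mul_add]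
      omega
    · intro j hj k hk hjk
      rcases mem_insert.mp hj with hj' | hj'
      · rcases mem_insert.mp hk with hk' | hk'
        · exact absurd (hj'.trans hk'.symm) hjk
        · intro h
          rw [hj'] at h
          apply (mem_sdiff.mp (hI1 hk')).2
          rw [hR]
          exact mem_insert_of_mem (mem_union_left _ h)
      · rcases mem_insert.mp hk with hk' | hk'
        · intro h
          rw [hk'] at h
          apply (mem_sdiff.mp (hI1 hj')).2
          rw [hR]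
          refine mem_insert_of_mem (mem_union_right _ ?_)
          exact mem_filter.mpr ⟨(mem_sdiff.mp (hI1 hj')).1, h⟩
        · exact hI3 j hj' k hk' hjk

section

variable {V : Type*} [Fintype V] {G H : SimpleGraph V}

theorem dg_le_of_subset {K : SimpleGraph V} {D : ℕ}
    (hK : ∀ v, (univ.filter fun z => K.Adj v z).card ≤ D) {F : Finset (Sym2 V)}
    (hF : ∀ e ∈ F, e ∈ K.edgeSet) (v : V) : dg F v ≤ D := by
  refine le_trans ?_ (hK v)
  unfold dg
  refine Finset.card_le_card_of_surjOn (fun z => s(v, z)) ?_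
  intro e he
  simp only [coe_filter, Set.mem_ofPred_eq] at he
  obtain ⟨z, rfl⟩ := he.2
  refine ⟨z, ?_, rfl⟩
  simp only [coe_filter, mem_univ, true_and, Set.mem_ofPred_eq]
  exact hF _ he.1

theorem dg_mono {F F' : Finset (Sym2 V)} (h : F ⊆ F') (v : V) : dg F v ≤ dg F' v :=
  Finset.card_le_card (Finset.filter_subset_filter _ h)

namespace Views

variable (W : Views G H)

theorem wrong_subset_edgeSet {e : Sym2 V} (he : e ∈ W.wrong) : e ∈ H.edgeSet :=
  (W.mem_wrong.mp he).1

theorem ced_eq {t : Fin 5 → V} (ht : IsC5 H t) : ced t = W.ri t ∪ W.wr t := by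
  ext e
  simp only [ri, wr, mem_union, mem_inter]
  constructor
  · intro h
    by_cases hr : e ∈ W.right
    · exact Or.inl ⟨h, hr⟩
    · exact Or.inr ⟨h, W.mem_wrong.mpr ⟨ced_subset_edgeSet ht h, hr⟩⟩
  · rintro (h | h)
    · exact h.1
    · exact h.1

theorem inter_E₁ {E₁ : Finset (Sym2 V)} (hE : E₁ ⊆ W.wrong) {t : Fin 5 → V}
    (ht : W.wr t ⊆ E₁) : ced t ∩ E₁ = W.wr t := by
  ext e
  simp only [wr, mem_inter]
  constructor
  · rintro ⟨h1, h2⟩
    exact ⟨h1, hE h2⟩
  · rintro ⟨h1, h2⟩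
    exact ⟨h1, ht (mem_inter.mpr ⟨h1, h2⟩)⟩

theorem cyr_eq {E₁ : Finset (Sym2 V)} (hE : E₁ ⊆ W.wrong) {t : Fin 5 → V} (hc : IsC5 H t)
    (ht : W.wr t ⊆ E₁) : cyr E₁ t = W.ri t := by
  ext e
  simp only [cyr, mem_sdiff, ri, mem_inter]
  constructor
  · rintro ⟨h1, h2⟩
    refine ⟨h1, ?_⟩
    by_contra hr
    exact h2 (ht (mem_inter.mpr ⟨h1, W.mem_wrong.mpr ⟨ced_subset_edgeSet hc h1, hr⟩⟩))
  · rintro ⟨h1, h2⟩
    exact ⟨h1, fun h => (W.mem_wrong.mp (hE h)).2 h2⟩

/-- the partner function restricted to `E₁` -/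
noncomputable def nu (E₁ : Finset (Sym2 V)) (u v : V) : V := if s(u, v) ∈ E₁ then W.g u v else v

/-- the item of a cycle -/
noncomputable def item (t : Fin 5 → V) : Item V :=
  (t, W.phi t 2, W.phi t 3, fun k =>
    decide ((![s(W.phi t 1, W.phi t 2), s(W.phi t 2, W.phi t 3), s(W.phi t 3, W.phi t 4)] :
      Fin 3 → Sym2 V) k ∈ W.right))

theorem fe_item {E₁ : Finset (Sym2 V)} {t : Fin 5 → V} (hc : IsC5 H t)
    (ht : W.wr t ⊆ E₁) : fe E₁ (W.nu E₁) (W.item t) =
      ![s(W.phi t 1, W.phi t 2), s(W.phi t 2, W.phi t 3), s(W.phi t 3, W.phi t 4)] := by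
  have hx : ix E₁ (W.nu E₁) (W.item t) = W.phi t 1 := by
    unfold ix nu item
    simp only
    split_ifs with h
    · rfl
    · have h1 : s(t 0, t 1) ∈ ced t := mem_ced t 0
      have h2 : s(t 0, t 1) ∈ W.right := by
        by_contra hr
        exact h (ht (mem_inter.mpr ⟨h1, W.mem_wrong.mpr ⟨ced_subset_edgeSet hc h1, hr⟩⟩))
      exact (W.mem_right_mk.mp h2).2.1.symm
  have hy : ic E₁ (W.nu E₁) (W.item t) = W.phi t 4 := by
    unfold ic nu item
    simp only
    split_ifs with h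
    · rfl
    · have h1 : s(t 0, t 4) ∈ ced t := by
        rw [Sym2.eq_swap]; exact mem_ced t 4
      have h2 : s(t 0, t 4) ∈ W.right := by
        by_contra hr
        exact h (ht (mem_inter.mpr ⟨h1, W.mem_wrong.mpr ⟨ced_subset_edgeSet hc h1, hr⟩⟩))
      exact (W.mem_right_mk.mp h2).2.1.symm
  unfold fe
  rw [hx, hy]
  rfl

theorem image_fe_item {E₁ : Finset (Sym2 V)} {t : Fin 5 → V} (hc : IsC5 H t)
    (ht : W.wr t ⊆ E₁) : univ.image (fe E₁ (W.nu E₁) (W.item t)) = far (W.phi t) := by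
  rw [W.fe_item hc ht]
  unfold far
  ext e
  simp only [mem_image, mem_univ, true_and, mem_insert, mem_singleton]
  constructor
  · rintro ⟨i, rfl⟩
    fin_cases i <;> simp
  · rintro (rfl | rfl | rfl)
    · exact ⟨0, rfl⟩
    · exact ⟨1, rfl⟩
    · exact ⟨2, rfl⟩

theorem iF_item {E₁ : Finset (Sym2 V)} (hE : E₁ ⊆ W.wrong) {t : Fin 5 → V} (hc : IsC5 H t)
    (ht : W.wr t ⊆ E₁) : iF E₁ (W.nu E₁) (W.item t) = W.ri t ∪ far (W.phi t) := by
  unfold iF
  rw [W.image_fe_item hc ht, ← W.cyr_eq hE hc ht]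
  rfl

theorem iR_item_subset {E₁ : Finset (Sym2 V)} (hE : E₁ ⊆ W.wrong) {t : Fin 5 → V}
    (hc : IsC5 H t) (ht : W.wr t ⊆ E₁) : iR E₁ (W.nu E₁) (W.item t) ⊆ W.right := by
  intro e he
  unfold iR at he
  rcases mem_union.mp he with h | h
  · have : e ∈ W.ri t := by
      rw [← W.cyr_eq hE hc ht]
      exact h
    exact (mem_inter.mp this).2
  · obtain ⟨k, hk, rfl⟩ := mem_image.mp h
    simp only [mem_filter, mem_univ, true_and] at hk
    rw [W.fe_item hc ht]
    unfold item at hk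
    simpa using hk

/-- A family of cycles with private far edges gives a code of type II. -/
theorem codeII_of_family {D Δ₁ A₀ M₀ m : ℕ}
    (hG : ∀ v, (univ.filter fun z => G.Adj v z).card ≤ D)
    {E₁ : Finset (Sym2 V)} (hE : E₁ ⊆ W.wrong) (hA : E₁.card ≤ A₀) (hΔ : ∀ v, dg E₁ v ≤ Δ₁)
    (hM : (W.CH.filter fun t => (W.wr t).card = m ∧ W.wr t ⊆ E₁).card ≤ M₀)
    {T₀ : Finset (Fin 5 → V)} (hT₀ : ∀ t ∈ T₀, IsC5 H t ∧ (W.wr t).card = m ∧ W.wr t ⊆ E₁)
    (γ : (Fin 5 → V) → Sym2 V) (hγ : ∀ t ∈ T₀, γ t ∈ far (W.phi t) ∧ γ t ∉ W.ri t ∧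
      ∀ t' ∈ T₀, t' ≠ t → γ t ∉ W.ri t' ∪ far (W.phi t')) :
    CodeII G m M₀ D Δ₁ A₀ T₀.card := by
  have hinj : Function.Injective W.item := fun t t' h => congrArg Prod.fst h
  have hF : (tF E₁ (W.nu E₁) (T₀.image W.item) : Set (Sym2 V)) ⊆ G.edgeSet := by
    intro e he
    simp only [tF, coe_biUnion, Set.mem_iUnion, mem_coe] at he
    obtain ⟨i, hi, he⟩ := he
    obtain ⟨t, ht, rfl⟩ := mem_image.mp hi
    obtain ⟨h1, h2, h3⟩ := hT₀ t ht
    rw [W.iF_item hE h1 h3] at he
    rcases mem_union.mp he with h | h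
    · exact W.right_subset (mem_inter.mp h).2
    · exact ced_subset_edgeSet (W.phi_isC5 h1) (far_subset_ced _ h)
  refine ⟨E₁, W.nu E₁, T₀.image W.item, hA, hΔ, ?_, ?_, ?_, hF⟩
  · intro u v h
    unfold nu
    rw [if_neg h]
  · exact Finset.card_image_of_injective _ hinj
  · constructor
    · intro i hi
      obtain ⟨t, ht, rfl⟩ := mem_image.mp hi
      exact (hT₀ t ht).1.1
    · intro i hi
      obtain ⟨t, ht, rfl⟩ := mem_image.mp hi
      obtain ⟨h1, h2, h3⟩ := hT₀ t ht
      have : ced (W.item t).1 ∩ E₁ = W.wr t := W.inter_E₁ hE h3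
      rw [this, h2]
    · intro i hi
      obtain ⟨t, ht, rfl⟩ := mem_image.mp hi
      obtain ⟨h1, h2, h3⟩ := hT₀ t ht
      rw [W.fe_item h1 h3]
      have hi' := edge_injective (W.phi_isC5 h1).1
      intro j k hjk
      have key : ∀ j : Fin 3, (![s(W.phi t 1, W.phi t 2), s(W.phi t 2, W.phi t 3),
          s(W.phi t 3, W.phi t 4)] : Fin 3 → Sym2 V) j =
          (fun i : Fin 5 => s(W.phi t i, W.phi t (i + 1))) (![1, 2, 3] j) := by
        intro j
        fin_cases j <;> rfl
      rw [key j, key k] at hjk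
      have := hi' hjk
      fin_cases j <;> fin_cases k <;> first | rfl | (exact absurd this (by decide))
    · exact dg_le_of_subset hG (fun e he => hF (mem_coe.mpr he))
    · intro i hi
      obtain ⟨t, ht, rfl⟩ := mem_image.mp hi
      obtain ⟨h1, h2, h3⟩ := hT₀ t ht
      obtain ⟨g1, g2, g3⟩ := hγ t ht
      have g1' := g1
      rw [← W.image_fe_item h1 h3] at g1
      obtain ⟨k, _, hk⟩ := mem_image.mp g1
      refine ⟨k, ?_, ?_⟩
      · rw [hk]
        have : cyr E₁ (W.item t).1 = W.ri t := W.cyr_eq hE h1 h3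
        rw [this]
        exact g2
      · intro i' hi' hne
        obtain ⟨t', ht', rfl⟩ := mem_image.mp hi'
        obtain ⟨h1', h2', h3'⟩ := hT₀ t' ht'
        rw [hk, W.iF_item hE h1' h3']
        exact g3 t' ht' (fun h => hne (by rw [h]))
    · intro i hi i' hi' k hk
      obtain ⟨t, ht, rfl⟩ := mem_image.mp hi
      obtain ⟨t', ht', rfl⟩ := mem_image.mp hi'
      obtain ⟨h1, h2, h3⟩ := hT₀ t ht
      obtain ⟨h1', h2', h3'⟩ := hT₀ t' ht'
      have : cyr E₁ (W.item t').1 = W.ri t' := W.cyr_eq hE h1' h3'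
      rw [this, W.fe_item h1 h3] at hk
      have hr := (mem_inter.mp hk).2
      unfold item
      simpa using hr
    · refine le_trans (Finset.card_le_card ?_) hM
      intro t ht
      simp only [mem_filter, mem_univ, true_and] at ht
      obtain ⟨h1, h2, h3⟩ := ht
      have hR : tR E₁ (W.nu E₁) (T₀.image W.item) ⊆ W.right := by
        intro e he
        simp only [tR, mem_biUnion] at he
        obtain ⟨i, hi, he⟩ := he
        obtain ⟨t', ht', rfl⟩ := mem_image.mp hi
        obtain ⟨h1', h2', h3'⟩ := hT₀ t' ht'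
        exact W.iR_item_subset hE h1' h3' he
      have hH : IsC5 H t := by
        refine ⟨h1, fun i => ?_⟩
        by_cases hi : s(t i, t (i + 1)) ∈ E₁
        · exact W.wrong_subset_edgeSet (hE hi)
        · have : s(t i, t (i + 1)) ∈ W.right :=
            hR (h3 (mem_sdiff.mpr ⟨mem_ced t i, hi⟩))
          exact (W.mem_right.mp this).1
      have hwr : W.wr t ⊆ E₁ := by
        intro e he
        by_contra hcon
        have := hR (h3 (mem_sdiff.mpr ⟨(mem_inter.mp he).1, hcon⟩))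
        exact (W.mem_wrong.mp (mem_inter.mp he).2).2 this
      rw [mem_filter, W.mem_CH]
      refine ⟨hH, ?_, hwr⟩
      rw [← W.inter_E₁ hE hwr, h2]

/-- Many distinct far edges give a family with private far edges. -/
theorem codeII_of_distinct {D Δ₁ A₀ M₀ m K : ℕ}
    (hG : ∀ v, (univ.filter fun z => G.Adj v z).card ≤ D)
    {E₁ : Finset (Sym2 V)} (hE : E₁ ⊆ W.wrong) (hA : E₁.card ≤ A₀) (hΔ : ∀ v, dg E₁ v ≤ Δ₁)
    (hM : (W.CH.filter fun t => (W.wr t).card = m ∧ W.wr t ⊆ E₁).card ≤ M₀)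
    {T₀ : Finset (Fin 5 → V)} (hT₀ : ∀ t ∈ T₀, IsC5 H t ∧ (W.wr t).card = m ∧ W.wr t ⊆ E₁)
    (γ : (Fin 5 → V) → Sym2 V) (hγ : ∀ t ∈ T₀, γ t ∈ far (W.phi t) ∧ γ t ∉ W.ri t)
    (hK : 17 * K ≤ (T₀.image γ).card) :
    CodeII G m M₀ D Δ₁ A₀ K := by
  rcases T₀.eq_empty_or_nonempty with rfl | ⟨t₀, ht₀⟩
  · have hK0 : K = 0 := by
      simp only [image_empty, card_empty] at hK
      omega
    have := W.codeII_of_family hG hE hA hΔ hM (T₀ := ∅) (by simp) γ (by simp)
    rw [hK0]
    simpa using this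
  have hNe : Nonempty (Fin 5 → V) := ⟨t₀⟩
  have hsec : ∀ g ∈ T₀.image γ, ∃ t ∈ T₀, γ t = g := fun g hg => mem_image.mp hg
  choose! σ hσ1 hσ2 using hsec
  obtain ⟨I, hI1, hI2, hI3⟩ := exists_indep 8
    (fun g => W.ri (σ g) ∪ far (W.phi (σ g))) _ (T₀.image γ) rfl (fun g hg => by
      refine (Finset.card_union_le _ _).trans ?_
      have h1 : (W.ri (σ g)).card ≤ 5 := by
        refine (Finset.card_le_card Finset.inter_subset_left).trans ?_
        rw [card_ced (hT₀ _ (hσ1 g hg)).1.1]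
      have h2 : (far (W.phi (σ g))).card ≤ 3 := by
        unfold far
        exact Finset.card_le_three
      omega)
  have hKI : K ≤ I.card := by omega
  obtain ⟨J, hJ, hJc⟩ := Finset.exists_subset_card_eq hKI
  have hinj : Set.InjOn σ (J : Set (Sym2 V)) := by
    intro g hg g' hg' h
    have e1 := hσ2 g (hI1 (hJ hg))
    have e2 := hσ2 g' (hI1 (hJ hg'))
    rw [← e1, ← e2, h]
  have hc : (J.image σ).card = K := by
    rw [Finset.card_image_of_injOn hinj, hJc]
  rw [← hc]
  refine W.codeII_of_family hG hE hA hΔ hM (fun t ht => ?_) γ (fun t ht => ?_)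
  · obtain ⟨g, hg, rfl⟩ := mem_image.mp ht
    exact hT₀ _ (hσ1 g (hI1 (hJ hg)))
  · obtain ⟨g, hg, rfl⟩ := mem_image.mp ht
    obtain ⟨e1, e2⟩ := hγ _ (hσ1 g (hI1 (hJ hg)))
    refine ⟨e1, e2, fun t' ht' hne => ?_⟩
    obtain ⟨g', hg', rfl⟩ := mem_image.mp ht'
    rw [hσ2 g (hI1 (hJ hg))]
    exact hI3 g' (hJ hg') g (hJ hg) (fun h => hne (by rw [h]))

end Views

end

end Pool.Agent.H90.Shot
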