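import Mathlib
import Pool.Agent.H90.Shot.Prob

/-!
# First and second moments for families of subsets of a random set
-/

set_option autoImplicit false
set_option linter.unusedSectionVars false

open Finset Classical

namespace Pool.Agent.H90.Shot

section

variable {α ι : Type*}

theorem ind_mul_ind (P Q : Prop) : ind P * ind Q = ind (P ∧ Q) := by
  unfold ind
  by_cases h : P <;> by_cases h' : Q <;> simp [h, h']

theorem card_filter_eq_sum_ind (A : Finset ι) (P : ι → Prop) [DecidablePred P] :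
    ((A.filter P).card : ℝ) = ∑ i ∈ A, ind (P i) := by
  rw [Finset.card_filter]
  push_cast
  exact Finset.sum_congr rfl (fun i _ => by unfold ind; split_ifs <;> rfl)

theorem Ex_ind_subset {s : ℝ} {B F : Finset α} (hF : F ⊆ B) :
    Ex s B (fun S => ind (F ⊆ S)) = s ^ F.card := Pr_subset s hF

theorem Ex_count {s : ℝ} {B : Finset α} (A : Finset ι) (w : ι → Finset α)
    (hw : ∀ i ∈ A, w i ⊆ B) :
    Ex s B (fun S => ((A.filter fun i => w i ⊆ S).card : ℝ)) = ∑ i ∈ A, s ^ (w i).card := by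
  simp only [card_filter_eq_sum_ind]
  rw [Ex_sum]
  exact Finset.sum_congr rfl (fun i hi => Ex_ind_subset (hw i hi))

theorem Ex_count' {s : ℝ} {B : Finset α} (A : Finset ι) (w : ι → Finset α)
    (hw : ∀ i ∈ A, w i ⊆ B) :
    Ex s B (fun S => ∑ i ∈ A, ind (w i ⊆ S)) = ∑ i ∈ A, s ^ (w i).card := by
  rw [Ex_sum]
  exact Finset.sum_congr rfl (fun i hi => Ex_ind_subset (hw i hi))

theorem Ex_card (s : ℝ) (B : Finset α) : Ex s B (fun S => (S.card : ℝ)) = s * B.card := by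
  have h3 := Ex_count' (s := s) (B := B) B (fun e => ({e} : Finset α))
    (fun e he => Finset.singleton_subset_iff.mpr he)
  have h4 : Ex s B (fun S => (S.card : ℝ)) = Ex s B (fun S =>
      ∑ e ∈ B, ind (({e} : Finset α) ⊆ S)) := by
    refine Ex_congr (fun S hS => ?_)
    rw [← card_filter_eq_sum_ind]
    congr 2
    ext e
    simp only [mem_filter, singleton_subset_iff]
    exact ⟨fun h => ⟨hS h, h⟩, fun h => h.2⟩
  rw [h4, h3]
  simp [mul_comm]

/-- pairs of members inside the random set -/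
theorem Ex_pairs {s : ℝ} {B : Finset α} (A : Finset ι) (J : ι → Finset ι) (w : ι → Finset α)
    (hw : ∀ i ∈ A, w i ⊆ B) (hJ : ∀ i ∈ A, J i ⊆ A) :
    Ex s B (fun S => ∑ i ∈ A, ∑ j ∈ J i, ind (w i ⊆ S) * ind (w j ⊆ S)) =
      ∑ i ∈ A, ∑ j ∈ J i, s ^ (w i ∪ w j).card := by
  rw [Ex_sum]
  refine Finset.sum_congr rfl (fun i hi => ?_)
  rw [Ex_sum]
  refine Finset.sum_congr rfl (fun j hj => ?_)
  rw [← Ex_ind_subset (Finset.union_subset (hw i hi) (hw j (hJ i hi hj)))]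
  refine Ex_congr (fun S _ => ?_)
  rw [ind_mul_ind]
  congr 1
  exact propext Finset.union_subset_iff.symm

theorem Pr_filter_card_ge {s : ℝ} (h0 : 0 ≤ s) (h1 : s ≤ 1) {B : Finset α} (I : Finset ι)
    (P : ι → α → Prop) [∀ v, DecidablePred (P v)] {D k : ℕ}
    (hD : ∀ v ∈ I, (B.filter (P v)).card ≤ D) :
    Pr s B (fun S => ∃ v ∈ I, k ≤ (S.filter (P v)).card) ≤
      I.card * ((D.choose k : ℝ) * s ^ k) := by
  refine (Pr_exists_le h0 h1 _ _ _).trans ?_
  have h2 : ∀ v ∈ I, Pr s B (fun S => k ≤ (S.filter (P v)).card) ≤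
      (D.choose k : ℝ) * s ^ k := by
    intro v hv
    have h3 := Pr_card_ge h0 h1 B (B.filter (P v)) k
    have h4 : Pr s B (fun S => k ≤ (S.filter (P v)).card) ≤
        Pr s B (fun S => k ≤ (S ∩ (B.filter (P v))).card) := by
      refine Pr_mono h0 h1 (fun S hS hk => ?_)
      refine hk.trans (Finset.card_le_card ?_)
      intro e he
      rw [mem_filter] at he
      rw [mem_inter, mem_filter]
      exact ⟨he.1, hS he.1, he.2⟩
    refine h4.trans (h3.trans ?_)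
    refine mul_le_mul_of_nonneg_right ?_ (by positivity)
    exact Nat.cast_le.mpr (Nat.choose_le_choose _ (hD v hv))
  refine (Finset.sum_le_sum h2).trans ?_
  rw [Finset.sum_const, nsmul_eq_mul]

/-- number of ordered pairs of distinct common elements -/
noncomputable def two (A B : Finset α) : ℕ :=
  ∑ e ∈ A, ∑ e' ∈ A, if e ≠ e' ∧ e ∈ B ∧ e' ∈ B then 1 else 0

theorem pow_union_le {s : ℝ} (h0 : 0 ≤ s) (h1 : s ≤ 1) {m : ℕ} {A B : Finset α}
    (hA : A.card = m) (hB : B.card = m) :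
    s ^ (A ∪ B).card ≤ (if Disjoint A B then s ^ (2 * m) else 0) +
      ((A ∩ B).card : ℝ) * s ^ (2 * m - 1) + (two A B : ℝ) * s ^ m := by
  have hu := Finset.card_union_add_card_inter A B
  have hm : (A ∩ B).card ≤ m := hA ▸ Finset.card_le_card Finset.inter_subset_left
  have p1 : 0 ≤ s ^ (2 * m - 1) := pow_nonneg h0 _
  have p2 : 0 ≤ s ^ m := pow_nonneg h0 _
  by_cases hd : Disjoint A B
  · rw [if_pos hd]
    have h3 : (A ∩ B).card = 0 := by
      rw [Finset.card_eq_zero]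
      exact Finset.disjoint_iff_inter_eq_empty.mp hd
    have h4 : (A ∪ B).card = 2 * m := by omega
    rw [h4, h3]
    have : (0 : ℝ) ≤ (two A B : ℝ) * s ^ m := by positivity
    simp only [Nat.cast_zero, zero_mul, add_zero]
    linarith
  · rw [if_neg hd, zero_add]
    have h3 : 1 ≤ (A ∩ B).card := by
      rw [Nat.one_le_iff_ne_zero]
      intro h
      exact hd (Finset.disjoint_iff_inter_eq_empty.mpr (Finset.card_eq_zero.mp h))
    rcases Nat.lt_or_ge (A ∩ B).card 2 with h4 | h4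
    · have h5 : (A ∩ B).card = 1 := by omega
      have h6 : (A ∪ B).card = 2 * m - 1 := by omega
      rw [h5, h6]
      have : (0 : ℝ) ≤ (two A B : ℝ) * s ^ m := by positivity
      simp only [Nat.cast_one, one_mul]
      linarith
    · have h5 : 1 ≤ two A B := by
        obtain ⟨e, he, e', he', hne⟩ := Finset.one_lt_card.mp (show 1 < (A ∩ B).card by omega)
        rw [mem_inter] at he he'
        unfold two
        have i1 : (if e ≠ e' ∧ e ∈ B ∧ e' ∈ B then 1 else 0) ≤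
            ∑ e' ∈ A, if e ≠ e' ∧ e ∈ B ∧ e' ∈ B then 1 else 0 :=
          Finset.single_le_sum (f := fun e' => if e ≠ e' ∧ e ∈ B ∧ e' ∈ B then 1 else 0)
            (fun _ _ => Nat.zero_le _) he'.1
        have i2 : ∑ e' ∈ A, (if e ≠ e' ∧ e ∈ B ∧ e' ∈ B then 1 else 0) ≤
            ∑ e ∈ A, ∑ e' ∈ A, if e ≠ e' ∧ e ∈ B ∧ e' ∈ B then 1 else 0 :=
          Finset.single_le_sum (f := fun e => ∑ e' ∈ A, if e ≠ e' ∧ e ∈ B ∧ e' ∈ B then 1 else 0)
            (fun _ _ => Nat.zero_le _) he.1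
        rw [if_pos ⟨hne, he.2, he'.2⟩] at i1
        exact i1.trans i2
      have h6 : s ^ (A ∪ B).card ≤ s ^ m :=
        pow_le_pow_of_le_one h0 h1 (by omega)
      have h7 : (1 : ℝ) ≤ (two A B : ℝ) := by exact_mod_cast h5
      have h8 : 0 ≤ ((A ∩ B).card : ℝ) * s ^ (2 * m - 1) := by positivity
      nlinarith

/-- summing over a family -/
theorem sum_pow_union_le {s : ℝ} (h0 : 0 ≤ s) (h1 : s ≤ 1) {m : ℕ} {A : Finset α}
    (hA : A.card = m) (J : Finset ι) (w : ι → Finset α) (hw : ∀ j ∈ J, (w j).card = m)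
    {c₁ c₂ : ℝ} (hc₁ : ∀ e ∈ A, ((J.filter fun j => e ∈ w j).card : ℝ) ≤ c₁)
    (hc₂ : ∀ e ∈ A, ∀ e' ∈ A, e ≠ e' → ((J.filter fun j => e ∈ w j ∧ e' ∈ w j).card : ℝ) ≤ c₂) :
    (∑ j ∈ J, ((A ∩ w j).card : ℝ) * s ^ (2 * m - 1)) + (∑ j ∈ J, (two A (w j) : ℝ) * s ^ m) ≤
      m * c₁ * s ^ (2 * m - 1) + m ^ 2 * max c₂ 0 * s ^ m := by
  refine add_le_add ?_ ?_
  · rw [← Finset.sum_mul]
    refine mul_le_mul_of_nonneg_right ?_ (pow_nonneg h0 _)
    have e1 : ∑ j ∈ J, ((A ∩ w j).card : ℝ) = ∑ e ∈ A, ((J.filter fun j => e ∈ w j).card : ℝ) := by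
      simp only [card_filter_eq_sum_ind]
      rw [Finset.sum_comm]
      refine Finset.sum_congr rfl (fun j _ => ?_)
      rw [← card_filter_eq_sum_ind, Finset.filter_mem_eq_inter]
    rw [e1]
    refine (Finset.sum_le_sum hc₁).trans ?_
    rw [Finset.sum_const, hA, nsmul_eq_mul]
  · rw [← Finset.sum_mul]
    refine mul_le_mul_of_nonneg_right ?_ (pow_nonneg h0 _)
    have e1 : ∑ j ∈ J, (two A (w j) : ℝ) = ∑ e ∈ A, ∑ e' ∈ A,
        ∑ j ∈ J, (if e ≠ e' ∧ e ∈ w j ∧ e' ∈ w j then (1 : ℝ) else 0) := by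
      unfold two
      push_cast
      rw [Finset.sum_comm]
      refine Finset.sum_congr rfl (fun e _ => ?_)
      rw [Finset.sum_comm]
    rw [e1]
    have e2 : ∀ e ∈ A, ∀ e' ∈ A,
        ∑ j ∈ J, (if e ≠ e' ∧ e ∈ w j ∧ e' ∈ w j then (1 : ℝ) else 0) ≤ max c₂ 0 := by
      intro e he e' he'
      by_cases hne : e = e'
      · simp [hne]
      · simp only [ne_eq, hne, not_false_eq_true, true_and]
        have := hc₂ e he e' he' hne
        rw [Finset.card_filter] at this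
        push_cast at this
        exact this.trans (le_max_left _ _)
    refine (Finset.sum_le_sum (fun e he => Finset.sum_le_sum (fun e' he' => e2 e he e' he'))).trans
      ?_
    simp only [Finset.sum_const, hA, nsmul_eq_mul]
    rw [pow_two, mul_assoc]

/-- bound for the expected number of pairs inside the random set -/
theorem Ex_pairs_le {s : ℝ} (h0 : 0 ≤ s) (h1 : s ≤ 1) {B : Finset α} {m : ℕ} (A : Finset ι)
    (J : ι → Finset ι) (w : ι → Finset α) (hw : ∀ i ∈ A, w i ⊆ B) (hJ : ∀ i ∈ A, J i ⊆ A)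
    (hm : ∀ i ∈ A, (w i).card = m) {c₀ c₁ c₂ : ℝ} (hc2 : 0 ≤ c₂)
    (hc₀ : ∀ i ∈ A, ((J i).card : ℝ) ≤ c₀)
    (hc₁ : ∀ i ∈ A, ∀ e ∈ w i, (((J i).filter fun j => e ∈ w j).card : ℝ) ≤ c₁)
    (hc₂ : ∀ i ∈ A, ∀ e ∈ w i, ∀ e' ∈ w i, e ≠ e' →
      (((J i).filter fun j => e ∈ w j ∧ e' ∈ w j).card : ℝ) ≤ c₂) :
    Ex s B (fun S => ∑ i ∈ A, ∑ j ∈ J i, ind (w i ⊆ S) * ind (w j ⊆ S)) ≤
      A.card * (c₀ * s ^ (2 * m) + m * c₁ * s ^ (2 * m - 1) + m ^ 2 * c₂ * s ^ m) := by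
  rw [Ex_pairs A J w hw hJ]
  have e3 : ∀ i ∈ A, ∑ j ∈ J i, s ^ (w i ∪ w j).card ≤
      c₀ * s ^ (2 * m) + m * c₁ * s ^ (2 * m - 1) + m ^ 2 * c₂ * s ^ m := by
    intro i hi
    have hmJ : ∀ j ∈ J i, (w j).card = m := fun j hj => hm j (hJ i hi hj)
    have h3 := sum_pow_union_le h0 h1 (hm i hi) (J i) w hmJ (hc₁ i hi) (hc₂ i hi)
    rw [max_eq_left hc2] at h3
    have h6 : ∑ j ∈ J i, s ^ (w i ∪ w j).card ≤ ∑ j ∈ J i,
        ((s ^ (2 * m) + ((w i ∩ w j).card : ℝ) * s ^ (2 * m - 1)) +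
          (two (w i) (w j) : ℝ) * s ^ m) := by
      refine Finset.sum_le_sum (fun j hj => ?_)
      have h4 := pow_union_le h0 h1 (hm i hi) (hmJ j hj)
      have h5 : (if Disjoint (w i) (w j) then s ^ (2 * m) else 0) ≤ s ^ (2 * m) := by
        split_ifs
        · exact le_rfl
        · positivity
      linarith
    refine h6.trans ?_
    rw [Finset.sum_add_distrib, Finset.sum_add_distrib, Finset.sum_const, nsmul_eq_mul]
    have h11 : ((J i).card : ℝ) * s ^ (2 * m) ≤ c₀ * s ^ (2 * m) :=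
      mul_le_mul_of_nonneg_right (hc₀ i hi) (by positivity)
    linarith
  refine (Finset.sum_le_sum e3).trans ?_
  rw [Finset.sum_const, nsmul_eq_mul]

/-- Chebyshev's inequality for the number of members inside the random set. -/
theorem chebyshev {s : ℝ} (h0 : 0 < s) (h1 : s ≤ 1) {B : Finset α} {m : ℕ}
    (A : Finset ι) (w : ι → Finset α) (hw : ∀ i ∈ A, w i ⊆ B) (hm : ∀ i ∈ A, (w i).card = m)
    (hA : A.Nonempty) {c₁ c₂ : ℝ} (hc2 : 0 ≤ c₂)
    (hc₁ : ∀ i ∈ A, ∀ e ∈ w i, ((A.filter fun j => e ∈ w j).card : ℝ) ≤ c₁)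
    (hc₂ : ∀ i ∈ A, ∀ e ∈ w i, ∀ e' ∈ w i, e ≠ e' →
      ((A.filter fun j => e ∈ w j ∧ e' ∈ w j).card : ℝ) ≤ c₂) :
    Pr s B (fun S => (∑ i ∈ A, ind (w i ⊆ S)) ≤ A.card * s ^ m / 2) ≤
      4 * (m * c₁ * s ^ (2 * m - 1) + m ^ 2 * c₂ * s ^ m) / (A.card * s ^ (2 * m)) := by
  have hN : (0 : ℝ) < A.card := by exact_mod_cast hA.card_pos
  set μ : ℝ := A.card * s ^ m with hμ
  have hμ0 : 0 < μ := by positivity
  set X : Finset α → ℝ := fun S => ∑ i ∈ A, ind (w i ⊆ S) with hX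
  have hEX : Ex s B X = μ := by
    rw [hX, Ex_count' A w hw, Finset.sum_congr rfl (fun i hi => by rw [hm i hi]),
      Finset.sum_const, nsmul_eq_mul]
  have hX2 : Ex s B (fun S => X S ^ 2) = ∑ i ∈ A, ∑ j ∈ A, s ^ (w i ∪ w j).card := by
    rw [← Ex_pairs A (fun _ => A) w hw (fun _ _ => le_rfl)]
    refine Ex_congr (fun S _ => ?_)
    simp only [hX]
    rw [pow_two, Finset.sum_mul_sum]
  have hvar : Ex s B (fun S => (X S - μ) ^ 2) ≤
      A.card * (m * c₁ * s ^ (2 * m - 1) + m ^ 2 * c₂ * s ^ m) := by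
    have e1 : Ex s B (fun S => (X S - μ) ^ 2) =
        Ex s B (fun S => X S ^ 2) - μ ^ 2 := by
      have : (fun S => (X S - μ) ^ 2) = (fun S => (X S ^ 2 + (-2 * μ) * X S) + μ ^ 2) := by
        funext S; ring
      rw [this, Ex_add, Ex_add, Ex_smul, hEX, Ex_const]
      ring
    rw [e1, hX2]
    have e2 : μ ^ 2 = ∑ i ∈ A, ∑ j ∈ A, s ^ (2 * m) := by
      simp only [Finset.sum_const, nsmul_eq_mul]
      rw [hμ, mul_pow, ← pow_mul]
      ring
    rw [e2, ← Finset.sum_sub_distrib]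
    have e3 : ∀ i ∈ A, (∑ j ∈ A, s ^ (w i ∪ w j).card) - ∑ j ∈ A, s ^ (2 * m) ≤
        m * c₁ * s ^ (2 * m - 1) + m ^ 2 * c₂ * s ^ m := by
      intro i hi
      have h3 := sum_pow_union_le h0.le h1 (hm i hi) A w hm (hc₁ i hi) (hc₂ i hi)
      rw [max_eq_left hc2] at h3
      refine le_trans ?_ h3
      rw [← Finset.sum_sub_distrib, ← Finset.sum_add_distrib]
      refine Finset.sum_le_sum (fun j hj => ?_)
      have h4 := pow_union_le h0.le h1 (hm i hi) (hm j hj)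
      have h5 : (if Disjoint (w i) (w j) then s ^ (2 * m) else 0) ≤ s ^ (2 * m) := by
        split_ifs
        · exact le_rfl
        · positivity
      linarith
    refine (Finset.sum_le_sum e3).trans ?_
    rw [Finset.sum_const, nsmul_eq_mul]
  have hc : 0 < (μ / 2) ^ 2 := by positivity
  have hmk := Pr_markov (p := s) h0.le h1 B (f := fun S => (X S - μ) ^ 2)
    (fun S _ => sq_nonneg _) hc
  have hsub : Pr s B (fun S => (∑ i ∈ A, ind (w i ⊆ S)) ≤ A.card * s ^ m / 2) ≤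
      Pr s B (fun S => (μ / 2) ^ 2 ≤ (X S - μ) ^ 2) := by
    refine Pr_mono h0.le h1 (fun S _ hS => ?_)
    have : μ / 2 ≤ μ - X S := by
      have : X S ≤ μ / 2 := hS
      linarith
    have h2 : (X S - μ) ^ 2 = (μ - X S) ^ 2 := by ring
    rw [h2]
    exact pow_le_pow_left₀ (by positivity) this 2
  refine hsub.trans (hmk.trans ?_)
  rw [div_le_div_iff₀ hc (by positivity)]
  have e4 : (μ / 2) ^ 2 = A.card * (A.card * s ^ (2 * m)) / 4 := by
    rw [hμ, div_pow, mul_pow, ← pow_mul, mul_comm m 2]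
    ring
  rw [e4]
  have hq : (0 : ℝ) < A.card * s ^ (2 * m) := by positivity
  nlinarith [mul_le_mul_of_nonneg_right hvar hq.le]

end

end Pool.Agent.H90.Shot
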