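import Mathlib
import Pool.Agent.H90.Shot.Moment

/-!
# Sampling lemma for predicted elements
-/

set_option autoImplicit false
set_option linter.unusedSectionVars false

open Finset Classical

namespace Pool.Agent.H90.Shot

section

variable {α ι : Type*}

theorem sample_half {s : ℝ} (h0 : 0 < s) (h1 : s ≤ 1 / 10) {B : Finset α} {m : ℕ}
    (I : Finset α) (hI : I ⊆ B) (C : α → Finset ι) (w : α → ι → Finset α)
    (hw : ∀ e ∈ I, ∀ t ∈ C e, w e t ⊆ B) (hm : ∀ e ∈ I, ∀ t ∈ C e, (w e t).card = m)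
    {L c : ℝ} (hL : 0 < L) (hCL : ∀ e ∈ I, L ≤ ((C e).card : ℝ)) (hc0 : 0 ≤ c)
    (hc : ∀ e ∈ I, ∀ t ∈ C e, ∀ f ∈ w e t, (∑ t' ∈ C e, ind (f ∈ w e t')) ≤ c)
    (hV : 4 * (m * c * s ^ (2 * m - 1) + m ^ 2 * c * s ^ m) / (L * s ^ (2 * m)) ≤ 1 / 10) :
    ∃ E₁, E₁ ⊆ B ∧ (E₁.card : ℝ) ≤ 8 * (s * B.card) ∧
      ∃ I', I' ⊆ I ∧ I.card ≤ 2 * I'.card ∧ ∀ e ∈ I', e ∉ E₁ ∧ ∃ t ∈ C e, w e t ⊆ E₁ := by
  have hs1 : s ≤ 1 := by linarith
  rcases I.eq_empty_or_nonempty with rfl | hne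
  · refine ⟨∅, by simp, ?_, ∅, by simp, by simp, by simp⟩
    simp only [card_empty, Nat.cast_zero]
    positivity
  have hIpos : (0 : ℝ) < I.card := by exact_mod_cast hne.card_pos
  have hBpos : (0 : ℝ) < B.card := by
    have := Finset.card_le_card hI
    have h2 := hne.card_pos
    exact_mod_cast (by omega : 0 < B.card)
  set bad : α → Finset α → Prop := fun e S => e ∈ S ∨
    (∑ t ∈ C e, ind (w e t ⊆ S)) ≤ (C e).card * s ^ m / 2 with hbad
  have hb : ∀ e ∈ I, Pr s B (bad e) ≤ 1 / 5 := by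
    intro e he
    have q1 := Pr_or_le h0.le hs1 B (fun S => e ∈ S)
      (fun S => (∑ t ∈ C e, ind (w e t ⊆ S)) ≤ (C e).card * s ^ m / 2)
    have q2 : Pr s B (fun S => e ∈ S) = s := by
      have := Pr_subset s (Finset.singleton_subset_iff.mpr (hI he))
      simp only [Finset.singleton_subset_iff, card_singleton, pow_one] at this
      exact this
    have hCpos : (0 : ℝ) < (C e).card := hL.trans_le (hCL e he)
    have hCne : (C e).Nonempty := Finset.card_pos.mp (by exact_mod_cast hCpos)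
    have hc' : ∀ t ∈ C e, ∀ f ∈ w e t, (((C e).filter fun t' => f ∈ w e t').card : ℝ) ≤ c := by
      intro t ht f hf
      rw [card_filter_eq_sum_ind]
      exact hc e he t ht f hf
    have q3 := chebyshev h0 hs1 (C e) (w e) (hw e he) (hm e he) hCne hc0 hc'
      (c₂ := c) (fun t ht f hf f' _ _ => by
        refine le_trans ?_ (hc' t ht f hf)
        refine Nat.cast_le.mpr (Finset.card_le_card ?_)
        intro t' ht'
        rw [mem_filter] at ht' ⊢
        exact ⟨ht'.1, ht'.2.1⟩)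
    have q4 : 4 * (m * c * s ^ (2 * m - 1) + m ^ 2 * c * s ^ m) /
        ((C e).card * s ^ (2 * m)) ≤ 1 / 10 := by
      refine le_trans ?_ hV
      refine div_le_div_of_nonneg_left (by positivity) (by positivity) ?_
      exact mul_le_mul_of_nonneg_right (hCL e he) (by positivity)
    have : Pr s B (bad e) = Pr s B (fun S => e ∈ S ∨
      (∑ t ∈ C e, ind (w e t ⊆ S)) ≤ (C e).card * s ^ m / 2) := rfl
    linarith
  have p1 : Pr s B (fun S => 8 * (s * B.card) ≤ (S.card : ℝ)) ≤ 1 / 8 := by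
    have h1 := Pr_markov h0.le hs1 B (f := fun S => (S.card : ℝ))
      (fun S _ => Nat.cast_nonneg _) (show 0 < 8 * (s * (B.card : ℝ)) by positivity)
    refine h1.trans ?_
    rw [Ex_card, div_le_iff₀ (by positivity)]
    linarith
  have p2 : Pr s B (fun S => (I.card : ℝ) / 2 ≤ ∑ e ∈ I, ind (bad e S)) ≤ 2 / 5 := by
    have h1 := Pr_markov h0.le hs1 B (f := fun S => ∑ e ∈ I, ind (bad e S))
      (fun S _ => Finset.sum_nonneg (fun e _ => ind_nonneg _))
      (show 0 < (I.card : ℝ) / 2 by positivity)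
    refine h1.trans ?_
    rw [Ex_sum, div_le_iff₀ (by positivity)]
    have h3 : ∑ e ∈ I, Ex s B (fun S => ind (bad e S)) ≤ ∑ _e ∈ I, (1 / 5 : ℝ) :=
      Finset.sum_le_sum hb
    rw [Finset.sum_const, nsmul_eq_mul] at h3
    linarith
  obtain ⟨E₁, hE, hno⟩ := exists_of_Pr_lt_one (p := s) B (P := fun S =>
    (8 * (s * B.card) ≤ (S.card : ℝ)) ∨ ((I.card : ℝ) / 2 ≤ ∑ e ∈ I, ind (bad e S))) (by
    have q1 := Pr_or_le h0.le hs1 B (fun S => 8 * (s * B.card) ≤ (S.card : ℝ))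
      (fun S => (I.card : ℝ) / 2 ≤ ∑ e ∈ I, ind (bad e S))
    linarith)
  push Not at hno
  obtain ⟨b1, b2⟩ := hno
  refine ⟨E₁, hE, b1.le, I.filter (fun e => ¬ bad e E₁), Finset.filter_subset _ _, ?_, ?_⟩
  · rw [← card_filter_eq_sum_ind] at b2
    have h3 := Finset.card_filter_add_card_filter_not (s := I) (fun e => bad e E₁)
    have h4 : (((I.filter fun e => bad e E₁).card : ℝ)) + ((I.filter fun e => ¬ bad e E₁).card : ℝ)
        = I.card := by exact_mod_cast h3
    have h5 : (I.card : ℝ) ≤ 2 * ((I.filter fun e => ¬ bad e E₁).card : ℝ) := by linarith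
    exact_mod_cast h5
  · intro e he
    rw [mem_filter] at he
    obtain ⟨he1, he2⟩ := he
    simp only [hbad, not_or, not_le] at he2
    refine ⟨he2.1, ?_⟩
    by_contra hcon
    push Not at hcon
    have h6 : ∑ t ∈ C e, ind (w e t ⊆ E₁) = 0 :=
      Finset.sum_eq_zero (fun t ht => ind_false (hcon t ht))
    rw [h6] at he2
    have : (0 : ℝ) ≤ (C e).card * s ^ m / 2 := by positivity
    linarith [he2.2]

end

end Pool.Agent.H90.Shot
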