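import Mathlib
import Pool.Agent.H90.Shot.Build
import Pool.Agent.H90.Shot.Moment2

/-!
# Codes of type I from predicted partners
-/

set_option autoImplicit false
set_option linter.unusedSectionVars false

open Finset Classical

namespace Pool.Agent.H90.Shot

section

variable {V : Type*} [Fintype V] {G H : SimpleGraph V}

theorem card_mem_sym2 (g : Sym2 V) : (univ.filter fun z : V => z ∈ g).card ≤ 2 := by
  induction g using Sym2.ind with
  | _ a b =>
  have : (univ.filter fun z : V => z ∈ s(a, b)) ⊆ {a, b} := by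
    intro z hz
    simp only [mem_filter, mem_univ, true_and, Sym2.mem_iff] at hz
    simp only [mem_insert, mem_singleton]
    exact hz
  exact (Finset.card_le_card this).trans Finset.card_le_two

namespace Views

variable (W : Views G H)

/-- vertices of the popular edges -/
noncomputable def Vp (θ : ℝ) (e : Sym2 V) : Finset V :=
  univ.filter fun z => ∃ g : Sym2 V, θ ≤ (W.pop g e : ℝ) ∧ z ∈ g

theorem card_Vp {D k₁ k₂ : ℕ} {T₁ T₂ : ℝ} (hT : Typ G D k₁ k₂ T₁ T₂) {e : Sym2 V}
    (he : e ∈ H.edgeSet) {θ : ℝ} (hθ : 0 < θ) : ((W.Vp θ e).card : ℝ) * θ ≤ 60 * T₂ := by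
  have h1 : W.Vp θ e ⊆ (univ.filter fun g : Sym2 V => θ ≤ (W.pop g e : ℝ)).biUnion
      (fun g => univ.filter fun z : V => z ∈ g) := by
    intro z hz
    simp only [Vp, mem_filter, mem_univ, true_and] at hz
    simp only [mem_biUnion, mem_filter, mem_univ, true_and]
    exact hz
  have h2 : (W.Vp θ e).card ≤ (univ.filter fun g : Sym2 V => θ ≤ (W.pop g e : ℝ)).card * 2 := by
    refine (Finset.card_le_card h1).trans (Finset.card_biUnion_le.trans ?_)
    refine (Finset.sum_le_sum (fun g _ => card_mem_sym2 g)).trans ?_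
    rw [Finset.sum_const, smul_eq_mul]
  have h3 := W.card_popular hT he (θ := θ)
  have h4 : ((W.Vp θ e).card : ℝ) ≤
      ((univ.filter fun g : Sym2 V => θ ≤ (W.pop g e : ℝ)).card : ℝ) * 2 := by
    exact_mod_cast h2
  have h5 := mul_le_mul_of_nonneg_right h4 hθ.le
  linarith

/-- the neighbour with a given view -/
noncomputable def ginv (a b : V) : V := if h : ∃ z, H.Adj a z ∧ W.g a z = b then h.choose else a

theorem ginv_spec {a z : V} (h : H.Adj a z) : W.ginv a (W.g a z) = z := by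
  have hex : ∃ z', H.Adj a z' ∧ W.g a z' = W.g a z := ⟨z, h, rfl⟩
  unfold ginv
  rw [dif_pos hex]
  exact W.inj (mem_ball_of_adj hex.choose_spec.1) (mem_ball_of_adj h) hex.choose_spec.2

/-- edges with a given partner edge -/
noncomputable def src (f : Sym2 V) : Finset (Sym2 V) :=
  {s((Quot.out f).1, W.ginv (Quot.out f).1 (Quot.out f).2),
    s((Quot.out f).2, W.ginv (Quot.out f).2 (Quot.out f).1)}

theorem mem_src {u v : V} (h : H.Adj u v) : s(u, v) ∈ W.src s(u, W.g u v) := by
  obtain ⟨a, b, hab⟩ : ∃ a b, Quot.out s(u, W.g u v) = (a, b) := ⟨_, _, rfl⟩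
  have h1 : s(a, b) = s(u, W.g u v) := by
    have := Quot.out_eq s(u, W.g u v)
    rw [hab] at this
    exact this
  unfold src
  rw [hab]
  simp only [mem_insert, mem_singleton]
  rcases Sym2.eq_iff.mp h1 with ⟨h2, h3⟩ | ⟨h2, h3⟩
  · left
    rw [h2, h3, W.ginv_spec h]
  · right
    rw [h2, h3, W.ginv_spec h]

theorem card_src (f : Sym2 V) : (W.src f).card ≤ 2 := Finset.card_le_two

/-- A family of wrong edges with predicted partners gives a code of type I. -/
theorem codeI_of_family {D A₀ KA K : ℕ} {θ : ℝ}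
    (hG : ∀ v, (univ.filter fun z => G.Adj v z).card ≤ D)
    {E₁ : Finset (Sym2 V)} (hE : E₁ ⊆ W.wrong) (hA : E₁.card ≤ A₀)
    (hKA : ∀ e ∈ W.wrong, (W.Vp θ e).card ≤ KA)
    (I' : Finset (Sym2 V)) (hIw : I' ⊆ W.wrong) (hIE : ∀ e ∈ I', e ∉ E₁)
    (τ : Sym2 V → Fin 5 → V) (hτ : ∀ e ∈ I', IsC5 H (τ e) ∧ s(τ e 0, τ e 1) = e ∧
      (W.wr (τ e)).erase e ⊆ E₁ ∧ 2 ≤ (W.wr (τ e)).card ∧
      (W.g (τ e 0) (τ e 1) = τ e 1 ∨
        ∃ e' ∈ W.wr (τ e), e' ≠ e ∧ W.g (τ e 0) (τ e 1) ∈ W.Vp θ e') ∧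
      (W.g (τ e 1) (τ e 0) = τ e 0 ∨
        ∃ e' ∈ W.wr (τ e), e' ≠ e ∧ W.g (τ e 1) (τ e 0) ∈ W.Vp θ e'))
    (hK : 9 * K ≤ I'.card) :
    CodeI G D A₀ KA K := by
  -- conflict digraph
  obtain ⟨I, hI1, hI2, hI3⟩ := exists_indep 4
    (fun e => W.src s(τ e 0, W.g (τ e 0) (τ e 1)) ∪ W.src s(τ e 1, W.g (τ e 1) (τ e 0)))
    _ I' rfl (fun e _ => by
      refine (Finset.card_union_le _ _).trans ?_
      have h1 := W.card_src s(τ e 0, W.g (τ e 0) (τ e 1))
      have h2 := W.card_src s(τ e 1, W.g (τ e 1) (τ e 0))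
      omega)
  have hKI : K ≤ I.card := by omega
  obtain ⟨J, hJ, hJc⟩ := Finset.exists_subset_card_eq hKI
  have hJI' : J ⊆ I' := hJ.trans hI1
  set it : Sym2 V → Item1 V := fun e => (τ e, W.g (τ e 0) (τ e 1), W.g (τ e 1) (τ e 0)) with hit
  have hinj : Set.InjOn it (J : Set (Sym2 V)) := by
    intro e he e' he' h
    have h1 : τ e = τ e' := congrArg Prod.fst h
    have e1 := (hτ e (hJI' he)).2.1
    have e2 := (hτ e' (hJI' he')).2.1
    rw [← e1, ← e2, h1]
  have hwr : ∀ e ∈ I', ∀ f ∈ (ced (τ e) \ E₁).erase s(τ e 0, τ e 1), f ∈ W.right := by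
    intro e he f hf
    obtain ⟨h1, h2, h3, -⟩ := hτ e he
    rw [h2, mem_erase, mem_sdiff] at hf
    by_contra hr
    have h4 : f ∈ W.wrong := W.mem_wrong.mpr ⟨ced_subset_edgeSet h1 hf.2.1, hr⟩
    exact hf.2.2 (h3 (mem_erase.mpr ⟨hf.1, mem_inter.mpr ⟨hf.2.1, h4⟩⟩))
  have hadj : ∀ e ∈ I', H.Adj (τ e 0) (τ e 1) := fun e he => (hτ e he).1.2 0
  have hwrong : ∀ e ∈ I', s(τ e 0, τ e 1) ∈ W.wrong := by
    intro e he
    rw [(hτ e he).2.1]
    exact hIw he
  have hpe : ∀ e ∈ I', ∀ f ∈ pe (it e), f ∉ W.right ∧ f ∈ G.edgeSet := by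
    intro e he f hf
    simp only [pe, hit, mem_insert, mem_singleton] at hf
    rcases hf with rfl | rfl
    · exact ⟨W.partner_not_right (hwrong e he), W.g_adj (hadj e he)⟩
    · refine ⟨W.partner_not_right ?_, W.g_adj (hadj e he).symm⟩
      rw [Sym2.eq_swap]
      exact hwrong e he
  have hF : (tF1 E₁ (J.image it) : Set (Sym2 V)) ⊆ G.edgeSet := by
    intro f hf
    simp only [tF1, coe_biUnion, Set.mem_iUnion, mem_coe] at hf
    obtain ⟨i, hi, hf⟩ := hf
    obtain ⟨e, he, rfl⟩ := mem_image.mp hi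
    unfold iF1 at hf
    rcases mem_union.mp hf with h | h
    · exact W.right_subset (hwr e (hJI' he) f h)
    · exact (hpe e (hJI' he) f h).2
  refine ⟨E₁, fun e => if e ∈ E₁ then W.Vp θ e else ∅, J.image it, hA, ?_, ?_, ?_, ?_, ?_, hF⟩
  · exact fun v => dg_le_of_subset (K := H) (fun v => by rw [W.card_nbr]; exact hG v)
      (fun e he => W.wrong_subset_edgeSet (hE he)) v
  · intro e he
    simp only [he, if_false]
  · intro e
    simp only
    split_ifs with h
    · exact hKA e (hE h)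
    · simp
  · rw [Finset.card_image_of_injOn hinj, hJc]
  · constructor
    · intro i hi
      obtain ⟨e, he, rfl⟩ := mem_image.mp hi
      exact (hτ e (hJI' he)).1.1
    · intro i hi
      obtain ⟨e, he, rfl⟩ := mem_image.mp hi
      have h2 : s((it e).1 0, (it e).1 1) = e := (hτ e (hJI' he)).2.1
      rw [h2]
      exact hIE e (hJI' he)
    · intro i hi
      obtain ⟨e, he, rfl⟩ := mem_image.mp hi
      obtain ⟨h1, h2, h3, h4, -⟩ := hτ e (hJI' he)
      have h5 : 0 < ((W.wr (τ e)).erase e).card := by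
        have := Finset.pred_card_le_card_erase (s := W.wr (τ e)) (a := e)
        omega
      obtain ⟨f, hf⟩ := Finset.card_pos.mp h5
      exact ⟨f, mem_inter.mpr ⟨(mem_inter.mp (mem_erase.mp hf).2).1, h3 hf⟩⟩
    · intro i hi
      obtain ⟨e, he, rfl⟩ := mem_image.mp hi
      obtain ⟨h1, h2, h3, h4, h5, h6⟩ := hτ e (hJI' he)
      rw [mem_insert]
      rcases h5 with h5 | ⟨e', he', hne, hm⟩
      · exact Or.inl h5
      · refine Or.inr ?_
        unfold cand
        have hE' : e' ∈ E₁ := h3 (mem_erase.mpr ⟨hne, he'⟩)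
        rw [mem_biUnion]
        refine ⟨e', mem_inter.mpr ⟨(mem_inter.mp he').1, hE'⟩, ?_⟩
        rw [if_pos hE']
        exact hm
    · intro i hi
      obtain ⟨e, he, rfl⟩ := mem_image.mp hi
      obtain ⟨h1, h2, h3, h4, h5, h6⟩ := hτ e (hJI' he)
      rw [mem_insert]
      rcases h6 with h6 | ⟨e', he', hne, hm⟩
      · exact Or.inl h6
      · refine Or.inr ?_
        unfold cand
        have hE' : e' ∈ E₁ := h3 (mem_erase.mpr ⟨hne, he'⟩)
        rw [mem_biUnion]
        refine ⟨e', mem_inter.mpr ⟨(mem_inter.mp he').1, hE'⟩, ?_⟩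
        rw [if_pos hE']
        exact hm
    · intro i hi
      obtain ⟨e, he, rfl⟩ := mem_image.mp hi
      exact W.partner_ne (hwrong e (hJI' he))
    · exact dg_le_of_subset hG (fun e he => hF (mem_coe.mpr he))
    · intro i hi f hf
      obtain ⟨e, he, rfl⟩ := mem_image.mp hi
      refine ⟨fun h => (hpe e (hJI' he) f hf).1 (hwr e (hJI' he) f h), ?_⟩
      intro i' hi' hne hmem
      obtain ⟨e', he', rfl⟩ := mem_image.mp hi'
      have hee : e ≠ e' := fun h => hne (by rw [h])
      unfold iF1 at hmem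
      rcases mem_union.mp hmem with h | h
      · exact (hpe e (hJI' he) f hf).1 (hwr e' (hJI' he') f h)
      · -- `f` is a partner edge of both
        have hsrc : e' ∈ W.src f := by
          have h7 := (hτ e' (hJI' he')).2.1
          simp only [pe, hit, mem_insert, mem_singleton] at h
          rcases h with rfl | rfl
          · have := W.mem_src (hadj e' (hJI' he'))
            rwa [h7] at this
          · have := W.mem_src (hadj e' (hJI' he')).symm
            have h9 : s(τ e' 1, τ e' 0) = e' := Sym2.eq_swap.trans h7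
            rwa [h9] at this
        have h8 := hI3 e (hJ he) e' (hJ he') hee
        apply h8
        simp only [pe, hit, mem_insert, mem_singleton] at hf
        rcases hf with rfl | rfl
        · exact mem_union_left _ hsrc
        · exact mem_union_right _ hsrc

end Views

end

end Pool.Agent.H90.Shot
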