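import Mathlib
import Pool.Agent.H90.Shot.Build
import Pool.Agent.H90.Shot.Moment

/-!
# Sampling, unexplained case
-/

set_option autoImplicit false
set_option linter.unusedSectionVars false

open Finset Classical

namespace Pool.Agent.H90.Shot

section

variable {V : Type*} [Fintype V] {G H : SimpleGraph V}

namespace Views

variable (W : Views G H)

theorem mem_ced_of_mem_wr {t : Fin 5 → V} {e : Sym2 V} (h : e ∈ W.wr t) : e ∈ ced t :=
  (mem_inter.mp h).1

/-- number of cycles of type `m` -/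
theorem card_type_le {D k₁ k₂ : ℕ} {T₁ T₂ : ℝ} (hT : Typ G D k₁ k₂ T₁ T₂) {m : ℕ}
    (hm : 1 ≤ m) :
    ((W.CH.filter fun t => (W.wr t).card = m).card : ℝ) ≤ 10 * T₂ * W.wrong.card := by
  have h1 : W.CH.filter (fun t => (W.wr t).card = m) ⊆
      W.wrong.biUnion (fun e => W.CH.filter fun t => e ∈ ced t) := by
    intro t ht
    simp only [mem_filter] at ht
    obtain ⟨e, he⟩ := Finset.card_pos.mp (show 0 < (W.wr t).card by omega)
    rw [mem_biUnion]
    exact ⟨e, (mem_inter.mp he).2, mem_filter.mpr ⟨ht.1, (mem_inter.mp he).1⟩⟩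
  have h2 := (Finset.card_le_card h1).trans Finset.card_biUnion_le
  refine (Nat.cast_le.mpr h2).trans ?_
  rw [Nat.cast_sum]
  refine (Finset.sum_le_sum (fun e he => W.card_one_edge hT (W.wrong_subset_edgeSet he))).trans ?_
  rw [Finset.sum_const, nsmul_eq_mul]
  linarith

/-- Sampling in the unexplained case. -/
theorem sampleII {D k₁ k₂ : ℕ} {T₁ T₂ : ℝ} (hT : Typ G D k₁ k₂ T₁ T₂) (hT₂ : 0 < T₂)
    {m Δ₁ : ℕ} (hm : 1 ≤ m) {s θ : ℝ} (hs0 : 0 < s) (hs1 : s ≤ 1) (hθ : 0 ≤ θ)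
    {UE : Finset (Fin 5 → V)} (γ : (Fin 5 → V) → Sym2 V)
    (hUE : ∀ t ∈ UE, IsC5 H t ∧ (W.wr t).card = m ∧ W.Unex θ t (γ t)) (hne : UE.Nonempty)
    (hV : 4 * (m * (10 * T₂) * s ^ (2 * m - 1) + m ^ 2 * (10 * (2 * k₂ + 4 * k₁)) * s ^ m) /
      (UE.card * s ^ (2 * m)) ≤ 1 / 8)
    (hΔ : (Fintype.card V : ℝ) * ((D.choose (Δ₁ + 1) : ℝ) * s ^ (Δ₁ + 1)) ≤ 1 / 8) :
    ∃ E₁, E₁ ⊆ W.wrong ∧ (E₁.card : ℝ) ≤ 8 * (s * W.wrong.card) ∧
      ((W.CH.filter fun t => (W.wr t).card = m ∧ W.wr t ⊆ E₁).card : ℝ) ≤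
        8 * (10 * T₂ * W.wrong.card * s ^ m) ∧ (∀ v, dg E₁ v ≤ Δ₁) ∧
      UE.card * s ^ (2 * m) / (32 * (6 * T₂ * s ^ (2 * m) + m * θ * s ^ (2 * m - 1) +
        m ^ 2 * (10 * (2 * k₂ + 4 * k₁)) * s ^ m)) ≤
        (((UE.filter fun t => W.wr t ⊆ E₁).image γ).card : ℝ) := by
  have hwr : ∀ t, W.wr t ⊆ W.wrong := fun t => Finset.inter_subset_right
  have hb : 0 < W.wrong.card := by
    obtain ⟨t, ht⟩ := hne
    have h1 := (hUE t ht).2.1
    obtain ⟨e, he⟩ := Finset.card_pos.mp (show 0 < (W.wr t).card by omega)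
    exact Finset.card_pos.mpr ⟨e, hwr t he⟩
  have hb' : (0 : ℝ) < W.wrong.card := by exact_mod_cast hb
  have hN : (0 : ℝ) < UE.card := by exact_mod_cast hne.card_pos
  obtain ⟨K2, hK2⟩ : ∃ K2 : ℝ, K2 = 10 * (2 * k₂ + 4 * k₁) := ⟨_, rfl⟩
  have hK20 : 0 ≤ K2 := by rw [hK2]; positivity
  rw [← hK2] at hV ⊢
  obtain ⟨Q, hQ⟩ : ∃ Q : ℝ, Q = 6 * T₂ * s ^ (2 * m) + m * θ * s ^ (2 * m - 1) +
        m ^ 2 * K2 * s ^ m := ⟨_, rfl⟩
  have hQ0 : 0 < Q := by rw [hQ]; positivity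
  rw [← hQ]
  -- the pair count
  set J : (Fin 5 → V) → Finset (Fin 5 → V) := fun t => UE.filter fun t' => γ t' = γ t with hJ
  set P2 : Finset (Sym2 V) → ℝ := fun S =>
    ∑ t ∈ UE, ∑ t' ∈ J t, ind (W.wr t ⊆ S) * ind (W.wr t' ⊆ S) with hP2
  have hP20 : ∀ S, 0 ≤ P2 S := fun S => Finset.sum_nonneg (fun t _ => Finset.sum_nonneg
    (fun t' _ => mul_nonneg (ind_nonneg _) (ind_nonneg _)))
  have hEP2 : Ex s W.wrong P2 ≤ UE.card * Q := by
    rw [hQ, hP2]
    refine Ex_pairs_le hs0.le hs1 UE J W.wr (fun t _ => hwr t) (fun t _ => Finset.filter_subset _ _)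
      (fun t ht => (hUE t ht).2.1) hK20 ?_ ?_ ?_
    · intro t ht
      have h10 := W.card_far_le hT hT₂.le (γ t)
      refine le_trans ?_ h10
      refine Nat.cast_le.mpr (Finset.card_le_card ?_)
      intro t' ht'
      simp only [hJ, mem_filter] at ht'
      obtain ⟨g1, g2⟩ := ht'
      obtain ⟨f1, f2, f3⟩ := hUE t' g1
      rw [mem_filter, W.mem_CH]
      refine ⟨f1, ?_⟩
      rw [← g2]
      exact f3.1
    · intro t ht e he
      have h5 := (hUE t ht).2.2.2.2 e he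
      refine le_trans ?_ h5.le
      refine Nat.cast_le.mpr (Finset.card_le_card ?_)
      intro t' ht'
      simp only [hJ, mem_filter] at ht'
      obtain ⟨⟨g1, g2⟩, g3⟩ := ht'
      obtain ⟨f1, f2, f3⟩ := hUE t' g1
      rw [mem_filter, W.mem_CH]
      refine ⟨f1, W.mem_ced_of_mem_wr g3, ?_⟩
      rw [← g2]
      exact f3.1
    · intro t ht e he e' he' hee
      have h5 := W.card_two_edges hT hee
      rw [hK2]
      refine le_trans ?_ h5
      refine Nat.cast_le.mpr (Finset.card_le_card ?_)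
      intro t' ht'
      simp only [hJ, mem_filter] at ht'
      obtain ⟨⟨g1, g2⟩, g3, g4⟩ := ht'
      obtain ⟨f1, f2, f3⟩ := hUE t' g1
      rw [mem_filter, W.mem_CH]
      exact ⟨f1, W.mem_ced_of_mem_wr g3, W.mem_ced_of_mem_wr g4⟩
  -- the five bad events
  have p1 : Pr s W.wrong (fun S => 8 * (s * W.wrong.card) ≤ (S.card : ℝ)) ≤ 1 / 8 := by
    have h1 := Pr_markov hs0.le hs1 W.wrong (f := fun S => (S.card : ℝ))
      (fun S _ => Nat.cast_nonneg _) (show 0 < 8 * (s * (W.wrong.card : ℝ)) by positivity)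
    refine h1.trans ?_
    rw [Ex_card, div_le_iff₀ (by positivity)]
    linarith
  have p2 : Pr s W.wrong (fun S => 8 * (10 * T₂ * W.wrong.card * s ^ m) ≤
      ((W.CH.filter fun t => (W.wr t).card = m ∧ W.wr t ⊆ S).card : ℝ)) ≤ 1 / 8 := by
    have h1 := Pr_markov hs0.le hs1 W.wrong
      (f := fun S => ((W.CH.filter fun t => (W.wr t).card = m ∧ W.wr t ⊆ S).card : ℝ))
      (fun S _ => Nat.cast_nonneg _)
      (show 0 < 8 * (10 * T₂ * (W.wrong.card : ℝ) * s ^ m) by positivity)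
    refine h1.trans ?_
    have h3 := Ex_count' (s := s) (B := W.wrong) (W.CH.filter fun t => (W.wr t).card = m)
      W.wr (fun t _ => hwr t)
    have h4 : Ex s W.wrong (fun S =>
        ((W.CH.filter fun t => (W.wr t).card = m ∧ W.wr t ⊆ S).card : ℝ)) =
        ∑ t ∈ W.CH.filter (fun t => (W.wr t).card = m), s ^ (W.wr t).card := by
      rw [← h3]
      refine Ex_congr (fun S hS => ?_)
      rw [← card_filter_eq_sum_ind, Finset.filter_filter]
    rw [h4, Finset.sum_congr rfl (fun t ht => by rw [(mem_filter.mp ht).2]), Finset.sum_const,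
      nsmul_eq_mul, div_le_iff₀ (by positivity)]
    have h5 := W.card_type_le hT hm
    have h6 := mul_le_mul_of_nonneg_right h5 (show 0 ≤ s ^ m by positivity)
    linarith
  have p3 : Pr s W.wrong (fun S => ∃ v ∈ (univ : Finset V),
      Δ₁ + 1 ≤ (S.filter fun e => v ∈ e).card) ≤ 1 / 8 := by
    refine (Pr_filter_card_ge (D := D) hs0.le hs1 (univ : Finset V) (fun v e => v ∈ e)
      ?_).trans ?_
    · intro v _
      have := dg_le_of_subset (K := H) (D := D) (fun v => by rw [W.card_nbr]; exact hT.deg v)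
        (F := W.wrong) (fun e he => W.wrong_subset_edgeSet he) v
      exact this
    · rw [card_univ]
      exact hΔ
  have p4 : Pr s W.wrong (fun S => 8 * (UE.card * Q) ≤ P2 S) ≤ 1 / 8 := by
    have h1 := Pr_markov hs0.le hs1 W.wrong (f := P2) (fun S _ => hP20 S)
      (show 0 < 8 * ((UE.card : ℝ) * Q) by positivity)
    refine h1.trans ?_
    rw [div_le_iff₀ (by positivity)]
    linarith
  have p5 : Pr s W.wrong (fun S => ((UE.filter fun t => W.wr t ⊆ S).card : ℝ) ≤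
      UE.card * s ^ m / 2) ≤ 1 / 8 := by
    simp only [card_filter_eq_sum_ind]
    refine (chebyshev hs0 hs1 UE W.wr (fun t _ => hwr t) (fun t ht => (hUE t ht).2.1) hne
      (c₁ := 10 * T₂) (c₂ := K2) hK20 ?_ ?_).trans hV
    · intro t ht e he
      have h5 := W.card_one_edge hT (W.wrong_subset_edgeSet (hwr t he))
      refine le_trans ?_ h5
      refine Nat.cast_le.mpr (Finset.card_le_card ?_)
      intro t' ht'
      simp only [mem_filter] at ht'
      rw [mem_filter, W.mem_CH]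
      exact ⟨(hUE t' ht'.1).1, W.mem_ced_of_mem_wr ht'.2⟩
    · intro t ht e he e' he' hee
      have h5 := W.card_two_edges hT hee
      rw [hK2]
      refine le_trans ?_ h5
      refine Nat.cast_le.mpr (Finset.card_le_card ?_)
      intro t' ht'
      simp only [mem_filter] at ht'
      rw [mem_filter, W.mem_CH]
      exact ⟨(hUE t' ht'.1).1, W.mem_ced_of_mem_wr ht'.2.1, W.mem_ced_of_mem_wr ht'.2.2⟩
  -- combine
  obtain ⟨E₁, hE, hbad⟩ := exists_of_Pr_lt_one (p := s) W.wrong (P := fun S =>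
    (8 * (s * W.wrong.card) ≤ (S.card : ℝ)) ∨
    ((8 * (10 * T₂ * W.wrong.card * s ^ m) ≤
      ((W.CH.filter fun t => (W.wr t).card = m ∧ W.wr t ⊆ S).card : ℝ)) ∨
    ((∃ v ∈ (univ : Finset V), Δ₁ + 1 ≤ (S.filter fun e => v ∈ e).card) ∨
    ((8 * (UE.card * Q) ≤ P2 S) ∨
      ((UE.filter fun t => W.wr t ⊆ S).card : ℝ) ≤ UE.card * s ^ m / 2)))) (by
    have q1 := Pr_or_le hs0.le hs1 W.wrong (fun S => 8 * (s * W.wrong.card) ≤ (S.card : ℝ))
      (fun S => (8 * (10 * T₂ * W.wrong.card * s ^ m) ≤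
      ((W.CH.filter fun t => (W.wr t).card = m ∧ W.wr t ⊆ S).card : ℝ)) ∨
      ((∃ v ∈ (univ : Finset V), Δ₁ + 1 ≤ (S.filter fun e => v ∈ e).card) ∨
      ((8 * (UE.card * Q) ≤ P2 S) ∨
      ((UE.filter fun t => W.wr t ⊆ S).card : ℝ) ≤ UE.card * s ^ m / 2)))
    have q2 := Pr_or_le hs0.le hs1 W.wrong (fun S => (8 * (10 * T₂ * W.wrong.card * s ^ m) ≤
      ((W.CH.filter fun t => (W.wr t).card = m ∧ W.wr t ⊆ S).card : ℝ)))
      (fun S => (∃ v ∈ (univ : Finset V), Δ₁ + 1 ≤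
        (S.filter fun e => v ∈ e).card) ∨
      ((8 * (UE.card * Q) ≤ P2 S) ∨
      ((UE.filter fun t => W.wr t ⊆ S).card : ℝ) ≤ UE.card * s ^ m / 2))
    have q3 := Pr_or_le hs0.le hs1 W.wrong (fun S => (∃ v ∈ (univ : Finset V), Δ₁ + 1 ≤
        (S.filter fun e => v ∈ e).card)) (fun S =>
      ((8 * (UE.card * Q) ≤ P2 S) ∨
      ((UE.filter fun t => W.wr t ⊆ S).card : ℝ) ≤ UE.card * s ^ m / 2))
    have q4 := Pr_or_le hs0.le hs1 W.wrong (fun S => 8 * (UE.card * Q) ≤ P2 S)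
      (fun S => ((UE.filter fun t => W.wr t ⊆ S).card : ℝ) ≤ UE.card * s ^ m / 2)
    linarith)
  push Not at hbad
  obtain ⟨b1, b2, b3, b4, b5⟩ := hbad
  refine ⟨E₁, hE, b1.le, b2.le, ?_, ?_⟩
  · intro v
    have h1 := b3 v (mem_univ v)
    unfold dg
    omega
  · -- Cauchy-Schwarz
    set XS := UE.filter fun t => W.wr t ⊆ E₁ with hXS
    have h1 : P2 E₁ = ∑ t ∈ XS, ((XS.filter fun t' => γ t' = γ t).card : ℝ) := by
      rw [hXS, Finset.sum_filter, hP2]
      refine Finset.sum_congr rfl (fun t _ => ?_)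
      split_ifs with h
      · simp only [ind_true h, one_mul]
        rw [← card_filter_eq_sum_ind, hJ]
        congr 2
        ext t'
        simp only [mem_filter]
        tauto
      · simp only [ind_false h, zero_mul, Finset.sum_const_zero]
    have h2 : ∑ t ∈ XS, ((XS.filter fun t' => γ t' = γ t).card : ℝ) =
        ∑ g ∈ XS.image γ, ((XS.filter fun t' => γ t' = g).card : ℝ) ^ 2 := by
      rw [← Finset.sum_fiberwise_of_maps_to (s := XS) (t := XS.image γ) (g := γ)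
        (fun t ht => mem_image_of_mem γ ht)]
      refine Finset.sum_congr rfl (fun g _ => ?_)
      rw [Finset.sum_congr rfl (fun t ht => by rw [(mem_filter.mp ht).2]), Finset.sum_const,
        nsmul_eq_mul, pow_two]
    have h3 : (XS.card : ℝ) = ∑ g ∈ XS.image γ, ((XS.filter fun t' => γ t' = g).card : ℝ) := by
      rw [← Nat.cast_sum]
      congr 1
      exact Finset.card_eq_sum_card_image γ XS
    have h4 : (XS.card : ℝ) ^ 2 ≤ ((XS.image γ).card : ℝ) * P2 E₁ := by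
      rw [h1, h2, h3]
      exact sq_sum_le_card_mul_sum_sq
    have h5 : (UE.card * s ^ m / 2) ^ 2 ≤ (XS.card : ℝ) ^ 2 :=
      pow_le_pow_left₀ (by positivity) b5.le 2
    have h6 : ((XS.image γ).card : ℝ) * P2 E₁ ≤
        ((XS.image γ).card : ℝ) * (8 * (UE.card * Q)) :=
      mul_le_mul_of_nonneg_left b4.le (Nat.cast_nonneg _)
    rw [div_le_iff₀ (by positivity)]
    have h7 : (UE.card * s ^ m / 2) ^ 2 = UE.card * (UE.card * s ^ (2 * m)) / 4 := by
      rw [div_pow, mul_pow, ← pow_mul, mul_comm m 2]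
      ring
    rw [h7] at h5
    have h8 : UE.card * (UE.card * s ^ (2 * m)) / 4 ≤
        ((XS.image γ).card : ℝ) * (8 * (UE.card * Q)) := h5.trans (h4.trans h6)
    have h9 : (UE.card : ℝ) * (UE.card * s ^ (2 * m)) ≤
        UE.card * (((XS.image γ).card : ℝ) * (32 * Q)) := by linarith
    exact le_of_mul_le_mul_left h9 hN

end Views

end

end Pool.Agent.H90.Shot
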