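import Mathlib
import Pool.Agent.H90.Shot.SampleI
import Pool.Agent.H90.Shot.SampleII

/-!
# The dichotomy: a second preimage yields a code
-/

set_option autoImplicit false
set_option linter.unusedSectionVars false

open Finset Classical

namespace Pool.Agent.H90.Shot

section

variable {V : Type*} [Fintype V] {G H : SimpleGraph V}

/-- the same cycle seen from its second vertex -/
def rv (t : Fin 5 → V) : Fin 5 → V := fun i => t (1 - i)

theorem rv_rv (t : Fin 5 → V) : rv (rv t) = t := by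
  funext i
  unfold rv
  congr 1
  abel

theorem rv_inj : Function.Injective (rv : (Fin 5 → V) → (Fin 5 → V)) := fun t t' h => by
  rw [← rv_rv t, h, rv_rv]

theorem rv_zero (t : Fin 5 → V) : rv t 0 = t 1 := rfl

theorem rv_one (t : Fin 5 → V) : rv t 1 = t 0 := rfl

namespace Views

variable (W : Views G H)

theorem wr_rv (t : Fin 5 → V) : W.wr (rv t) = W.wr t := by
  unfold wr rv
  rw [ced_rev]

/-- unexplained from its root -/
def UX (θ : ℝ) (t : Fin 5 → V) : Prop := ∃ g, W.Unex θ t g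

theorem not_UX {θ : ℝ} {t : Fin 5 → V} (h : ¬ W.UX θ t) :
    s(W.phi t 1, W.phi t 2) ∈ W.ri t ∨ ∃ e ∈ W.wr t, θ ≤ (W.pop s(W.phi t 1, W.phi t 2) e : ℝ) := by
  by_contra hcon
  push Not at hcon
  apply h
  refine ⟨s(W.phi t 1, W.phi t 2), ?_, hcon.1, hcon.2⟩
  unfold far
  simp

/-- few explained cycles fail to predict the partner -/
theorem card_not_pred {D k₁ k₂ : ℕ} {T₁ T₂ : ℝ} (hT : Typ G D k₁ k₂ T₁ T₂) (hT₂ : 0 ≤ T₂)
    {θ : ℝ} (hθ : 0 < θ) {v w : V} (hvw : s(v, w) ∈ W.wrong) :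
    ((univ.filter fun t : Fin 5 → V => IsC5 H t ∧ t 0 = v ∧ t 1 = w ∧ ¬ W.UX θ t ∧
      ¬ (W.g v w = w ∨ ∃ e ∈ W.wr t, e ≠ s(v, w) ∧ W.g v w ∈ W.Vp θ e)).card : ℝ) ≤
      2 * k₂ + k₁ * k₁ + (30 * T₂ / θ) * k₂ := by
  have hadj := (W.mem_wrong_mk.mp hvw).1
  by_cases hx : W.g v w = w
  · have : (univ.filter fun t : Fin 5 → V => IsC5 H t ∧ t 0 = v ∧ t 1 = w ∧ ¬ W.UX θ t ∧
      ¬ (W.g v w = w ∨ ∃ e ∈ W.wr t, e ≠ s(v, w) ∧ W.g v w ∈ W.Vp θ e)) = ∅ := by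
      rw [Finset.filter_eq_empty_iff]
      rintro t - ⟨_, _, _, _, h⟩
      exact h (Or.inl hx)
    rw [this]
    simp only [card_empty, Nat.cast_zero]
    positivity
  have hsub : (univ.filter fun t : Fin 5 → V => IsC5 H t ∧ t 0 = v ∧ t 1 = w ∧ ¬ W.UX θ t ∧
      ¬ (W.g v w = w ∨ ∃ e ∈ W.wr t, e ≠ s(v, w) ∧ W.g v w ∈ W.Vp θ e)) ⊆
      (univ.filter fun t : Fin 5 → V => IsC5 H t ∧ t 0 = v ∧ t 1 = w ∧ ∃ i, t i = W.g v w) ∪
      (univ.filter fun g : Sym2 V => θ ≤ (W.pop g s(v, w) : ℝ)).biUnion (fun g =>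
        univ.filter fun t : Fin 5 → V => IsC5 H t ∧ t 0 = v ∧ t 1 = w ∧
          s(W.phi t 1, W.phi t 2) = g) := by
    intro t ht
    simp only [mem_filter, mem_univ, true_and] at ht
    obtain ⟨h1, h2, h3, h4, h5⟩ := ht
    push Not at h5
    have hp1 : W.phi t 1 = W.g v w := by unfold phi; rw [h2, h3]
    simp only [mem_union, mem_biUnion, mem_filter, mem_univ, true_and]
    rcases W.not_UX h4 with h6 | ⟨e, he, h6⟩
    · left
      refine ⟨h1, h2, h3, ?_⟩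
      obtain ⟨i, _, hi⟩ := mem_image.mp (mem_inter.mp h6).1
      rw [hp1] at hi
      rcases Sym2.eq_iff.mp hi with ⟨h7, _⟩ | ⟨_, h7⟩
      · exact ⟨i, h7⟩
      · exact ⟨i + 1, h7⟩
    · by_cases hee : e = s(v, w)
      · right
        refine ⟨s(W.phi t 1, W.phi t 2), ?_, h1, h2, h3, rfl⟩
        rw [← hee]
        exact h6
      · exfalso
        refine h5.2 e he hee ?_
        unfold Vp
        rw [mem_filter]
        exact ⟨mem_univ _, s(W.phi t 1, W.phi t 2), h6, by rw [hp1]; exact Sym2.mem_mk_left _ _⟩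
  have hxv : W.g v w ≠ v := fun h => (W.g_adj hadj).ne h.symm
  have hv := W.card_vertex_le hT v w (W.g v w) hxv hx
  have hc := (Finset.card_le_card hsub).trans (Finset.card_union_le _ _)
  have h8 : ((univ.filter fun g : Sym2 V => θ ≤ (W.pop g s(v, w) : ℝ)).biUnion (fun g =>
        univ.filter fun t : Fin 5 → V => IsC5 H t ∧ t 0 = v ∧ t 1 = w ∧
          s(W.phi t 1, W.phi t 2) = g)).card ≤
      (univ.filter fun g : Sym2 V => θ ≤ (W.pop g s(v, w) : ℝ)).card * k₂ := by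
    refine Finset.card_biUnion_le.trans ?_
    refine (Finset.sum_le_sum (fun g _ => W.card_second_le hT v w g)).trans ?_
    rw [Finset.sum_const, smul_eq_mul]
  have h9 := W.card_popular hT (W.wrong_subset_edgeSet hvw) (θ := θ)
  have h10 : ((univ.filter fun g : Sym2 V => θ ≤ (W.pop g s(v, w) : ℝ)).card : ℝ) ≤
      30 * T₂ / θ := by
    rw [le_div_iff₀ hθ]
    exact h9
  have h11 := mul_le_mul_of_nonneg_right h10 (Nat.cast_nonneg (α := ℝ) k₂)
  have hc' : ((univ.filter fun t : Fin 5 → V => IsC5 H t ∧ t 0 = v ∧ t 1 = w ∧ ¬ W.UX θ t ∧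
      ¬ (W.g v w = w ∨ ∃ e ∈ W.wr t, e ≠ s(v, w) ∧ W.g v w ∈ W.Vp θ e)).card : ℝ) ≤
      ((univ.filter fun t : Fin 5 → V => IsC5 H t ∧ t 0 = v ∧ t 1 = w ∧
        ∃ i, t i = W.g v w).card : ℝ) +
      (((univ.filter fun g : Sym2 V => θ ≤ (W.pop g s(v, w) : ℝ)).biUnion (fun g =>
        univ.filter fun t : Fin 5 → V => IsC5 H t ∧ t 0 = v ∧ t 1 = w ∧
          s(W.phi t 1, W.phi t 2) = g)).card : ℝ) := by exact_mod_cast hc
  have hv' : ((univ.filter fun t : Fin 5 → V => IsC5 H t ∧ t 0 = v ∧ t 1 = w ∧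
        ∃ i, t i = W.g v w).card : ℝ) ≤ 2 * k₂ + k₁ * k₁ := by exact_mod_cast hv
  have h8' : (((univ.filter fun g : Sym2 V => θ ≤ (W.pop g s(v, w) : ℝ)).biUnion (fun g =>
        univ.filter fun t : Fin 5 → V => IsC5 H t ∧ t 0 = v ∧ t 1 = w ∧
          s(W.phi t 1, W.phi t 2) = g)).card : ℝ) ≤
      ((univ.filter fun g : Sym2 V => θ ≤ (W.pop g s(v, w) : ℝ)).card : ℝ) * k₂ := by
    exact_mod_cast h8
  linarith

/-- the same from the other end -/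
theorem card_not_pred' {D k₁ k₂ : ℕ} {T₁ T₂ : ℝ} (hT : Typ G D k₁ k₂ T₁ T₂) (hT₂ : 0 ≤ T₂)
    {θ : ℝ} (hθ : 0 < θ) {v w : V} (hvw : s(v, w) ∈ W.wrong) :
    ((univ.filter fun t : Fin 5 → V => IsC5 H t ∧ t 0 = v ∧ t 1 = w ∧ ¬ W.UX θ (rv t) ∧
      ¬ (W.g w v = v ∨ ∃ e ∈ W.wr t, e ≠ s(v, w) ∧ W.g w v ∈ W.Vp θ e)).card : ℝ) ≤
      2 * k₂ + k₁ * k₁ + (30 * T₂ / θ) * k₂ := by
  have hwv : s(w, v) ∈ W.wrong := by rw [Sym2.eq_swap]; exact hvw
  refine le_trans ?_ (W.card_not_pred hT hT₂ hθ hwv)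
  refine Nat.cast_le.mpr (Finset.card_le_card_of_injOn rv ?_ (rv_inj.injOn))
  intro t ht
  simp only [coe_filter, mem_univ, true_and, Set.mem_ofPred_eq] at ht ⊢
  obtain ⟨h1, h2, h3, h4, h5⟩ := ht
  refine ⟨h1.rev 1, h3, h2, h4, ?_⟩
  rw [W.wr_rv]
  intro h6
  apply h5
  rcases h6 with h6 | ⟨e, he, hne, hm⟩
  · exact Or.inl h6
  · refine Or.inr ⟨e, he, ?_, hm⟩
    intro h7
    exact hne (h7.trans Sym2.eq_swap)

/-- cycles of type `m` through a dart -/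
noncomputable def Nm (m : ℕ) (v w : V) : Finset (Fin 5 → V) :=
  univ.filter fun t => IsC5 H t ∧ t 0 = v ∧ t 1 = w ∧ (W.wr t).card = m

theorem mem_Nm {m : ℕ} {v w : V} {t : Fin 5 → V} : t ∈ W.Nm m v w ↔
    IsC5 H t ∧ t 0 = v ∧ t 1 = w ∧ (W.wr t).card = m := by
  unfold Nm
  simp

/-- some type is frequent -/
theorem exists_type {D k₁ k₂ : ℕ} {T₁ T₂ : ℝ} (hT : Typ G D k₁ k₂ T₁ T₂)
    {v w : V} (hvw : s(v, w) ∈ W.wrong) (h1 : ((W.Nm 1 v w).card : ℝ) < T₁ / 5) :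
    ∃ m, 2 ≤ m ∧ m ≤ 5 ∧ T₁ / 5 ≤ ((W.Nm m v w).card : ℝ) := by
  have hadj := (W.mem_wrong_mk.mp hvw).1
  have h2 := W.le_ncyc hT hadj
  have h3 : (univ.filter fun t : Fin 5 → V => IsC5 H t ∧ t 0 = v ∧ t 1 = w) ⊆
      (Finset.Icc 1 5).biUnion (fun m => W.Nm m v w) := by
    intro t ht
    simp only [mem_filter, mem_univ, true_and] at ht
    rw [mem_biUnion]
    refine ⟨(W.wr t).card, ?_, W.mem_Nm.mpr ⟨ht.1, ht.2.1, ht.2.2, rfl⟩⟩
    rw [Finset.mem_Icc]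
    constructor
    · refine Finset.card_pos.mpr ⟨s(v, w), mem_inter.mpr ⟨?_, hvw⟩⟩
      rw [← ht.2.1, ← ht.2.2]
      exact mem_ced t 0
    · refine (Finset.card_le_card Finset.inter_subset_left).trans ?_
      rw [card_ced ht.1.1]
  have h4 := (Finset.card_le_card h3).trans Finset.card_biUnion_le
  have h5 : (ncyc H v w : ℝ) ≤ ∑ m ∈ Finset.Icc 1 5, ((W.Nm m v w).card : ℝ) := by
    unfold ncyc
    exact_mod_cast h4
  by_contra hcon
  push Not at hcon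
  have h6 : ∀ m ∈ Finset.Icc 1 5, ((W.Nm m v w).card : ℝ) < T₁ / 5 := by
    intro m hm
    rw [Finset.mem_Icc] at hm
    rcases Nat.lt_or_ge 1 m with h | h
    · exact hcon m h hm.2
    · have : m = 1 := le_antisymm h hm.1
      rw [this]
      exact h1
  have h7 : ∑ m ∈ Finset.Icc 1 5, ((W.Nm m v w).card : ℝ) <
      ∑ _m ∈ Finset.Icc 1 5, T₁ / 5 :=
    Finset.sum_lt_sum_of_nonempty ⟨1, by simp⟩ h6
  rw [Finset.sum_const, nsmul_eq_mul] at h7
  simp only [Nat.card_Icc] at h7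
  norm_num at h7
  linarith

/-- a type with more wrong edges forces many wrong edges -/
theorem wrong_large {D k₁ k₂ : ℕ} {T₁ T₂ : ℝ} (hT : Typ G D k₁ k₂ T₁ T₂) {m : ℕ}
    (hm : 2 ≤ m) {v w : V} : ((W.Nm m v w).card : ℝ) ≤ W.wrong.card * (2 * k₂ + 4 * k₁) := by
  have h1 : W.Nm m v w ⊆ (W.wrong.filter fun e => e ≠ s(v, w)).biUnion (fun e =>
      univ.filter fun t : Fin 5 → V => IsC5 H t ∧ e ∈ ced t ∧ t 0 = v ∧ t 1 = w) := by
    intro t ht
    obtain ⟨h1, h2, h3, h4⟩ := W.mem_Nm.mp ht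
    have h5 : 0 < ((W.wr t).erase s(v, w)).card := by
      have := Finset.pred_card_le_card_erase (s := W.wr t) (a := s(v, w))
      omega
    obtain ⟨e, he⟩ := Finset.card_pos.mp h5
    rw [mem_erase] at he
    rw [mem_biUnion]
    refine ⟨e, mem_filter.mpr ⟨(mem_inter.mp he.2).2, he.1⟩, ?_⟩
    rw [mem_filter]
    exact ⟨mem_univ _, h1, (mem_inter.mp he.2).1, h2, h3⟩
  have h2 := (Finset.card_le_card h1).trans Finset.card_biUnion_le
  have h3 : ∑ e ∈ W.wrong.filter (fun e => e ≠ s(v, w)), (univ.filter fun t : Fin 5 → V =>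
      IsC5 H t ∧ e ∈ ced t ∧ t 0 = v ∧ t 1 = w).card ≤ W.wrong.card * (2 * k₂ + 4 * k₁) := by
    refine (Finset.sum_le_sum (fun e he => W.card_edge_le hT v w (mem_filter.mp he).2)).trans ?_
    rw [Finset.sum_const, smul_eq_mul]
    exact Nat.mul_le_mul_right _ (Finset.card_le_card (Finset.filter_subset _ _))
  exact_mod_cast h2.trans h3

end Views

end

end Pool.Agent.H90.Shot
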