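import Mathlib
import Pool.Agent.H90.Shot.Dicho

/-!
# A second preimage yields a code of type I or II
-/

set_option autoImplicit false
set_option linter.unusedSectionVars false

open Finset Classical

namespace Pool.Agent.H90.Shot

section

variable {V : Type*} [Fintype V] {G H : SimpleGraph V}

namespace Views

variable (W : Views G H)

/-- a wrong edge with many cycles on which it is the only wrong edge -/
theorem code_zero {D k₁ k₂ : ℕ} {T₁ T₂ : ℝ} (hT : Typ G D k₁ k₂ T₁ T₂)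
    {v w : V} (hvw : s(v, w) ∈ W.wrong) (hx : W.g v w ≠ w)
    (h1 : T₁ / 5 ≤ ((W.Nm 1 v w).card : ℝ)) {K₀ : ℕ}
    (hK₀ : 17 * K₀ * k₂ ≤ T₁ / 5 - 2 * k₂ - k₁ * k₁) (hT₁ : 2 * k₂ + k₁ * k₁ < T₁ / 5) :
    CodeII G 1 ⌊10 * T₂⌋₊ D 1 1 K₀ := by
  have hadj := (W.mem_wrong_mk.mp hvw).1
  have hxv : W.g v w ≠ v := fun h => (W.g_adj hadj).ne h.symm
  -- the cycles whose view does not reuse a right edge
  obtain ⟨X, hX⟩ : ∃ X, X = (W.Nm 1 v w).filter (fun t => s(W.phi t 1, W.phi t 2) ∉ W.ri t) :=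
    ⟨_, rfl⟩
  have hmX : ∀ t ∈ X, IsC5 H t ∧ t 0 = v ∧ t 1 = w ∧ (W.wr t).card = 1 ∧
      s(W.phi t 1, W.phi t 2) ∉ W.ri t := by
    intro t ht
    rw [hX, mem_filter, W.mem_Nm] at ht
    exact ⟨ht.1.1, ht.1.2.1, ht.1.2.2.1, ht.1.2.2.2, ht.2⟩
  have hwrX : ∀ t ∈ X, W.wr t = {s(v, w)} := by
    intro t ht
    obtain ⟨h1, h2, h3, h4, -⟩ := hmX t ht
    obtain ⟨e, he⟩ := Finset.card_eq_one.mp h4
    have : s(v, w) ∈ W.wr t := by
      refine mem_inter.mpr ⟨?_, hvw⟩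
      rw [← h2, ← h3]
      exact mem_ced t 0
    rw [he, mem_singleton] at this
    rw [he, this]
  have hXc : T₁ / 5 - 2 * k₂ - k₁ * k₁ ≤ (X.card : ℝ) := by
    have h2 : (W.Nm 1 v w) ⊆ X ∪ (univ.filter fun t : Fin 5 → V => IsC5 H t ∧ t 0 = v ∧
        t 1 = w ∧ ∃ i, t i = W.g v w) := by
      intro t ht
      by_cases h : s(W.phi t 1, W.phi t 2) ∈ W.ri t
      · rw [mem_union]
        right
        obtain ⟨g1, g2, g3, g4⟩ := W.mem_Nm.mp ht
        have hp1 : W.phi t 1 = W.g v w := by unfold phi; rw [g2, g3]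
        rw [mem_filter]
        refine ⟨mem_univ _, g1, g2, g3, ?_⟩
        obtain ⟨i, _, hi⟩ := mem_image.mp (mem_inter.mp h).1
        rw [hp1] at hi
        rcases Sym2.eq_iff.mp hi with ⟨h7, _⟩ | ⟨_, h7⟩
        · exact ⟨i, h7⟩
        · exact ⟨i + 1, h7⟩
      · rw [mem_union]
        left
        rw [hX, mem_filter]
        exact ⟨ht, h⟩
    have h3 := (Finset.card_le_card h2).trans (Finset.card_union_le _ _)
    have h4 := W.card_vertex_le hT v w (W.g v w) hxv hx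
    have h5 : ((W.Nm 1 v w).card : ℝ) ≤ X.card + (2 * k₂ + k₁ * k₁) := by
      exact_mod_cast h3.trans (Nat.add_le_add_left h4 _)
    linarith
  have hfib : X.card ≤ (X.image fun t => s(W.phi t 1, W.phi t 2)).card * k₂ := by
    refine (Finset.card_le_mul_card_image (f := fun t => s(W.phi t 1, W.phi t 2)) X k₂ ?_).trans
      (le_of_eq (Nat.mul_comm _ _))
    intro g _
    refine le_trans (Finset.card_le_card ?_) (W.card_second_le hT v w g)
    intro t ht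
    rw [mem_filter] at ht
    obtain ⟨g1, g2, g3, -, -⟩ := hmX t ht.1
    rw [mem_filter]
    exact ⟨mem_univ _, g1, g2, g3, ht.2⟩
  have hk₂ : 0 < k₂ := by
    rcases Nat.eq_zero_or_pos k₂ with h | h
    · exfalso
      rw [h, Nat.mul_zero] at hfib
      have : (X.card : ℝ) ≤ 0 := by exact_mod_cast hfib
      linarith
    · exact h
  have hK : 17 * K₀ ≤ (X.image fun t => s(W.phi t 1, W.phi t 2)).card := by
    have h2 : ((17 * K₀ * k₂ : ℕ) : ℝ) ≤
        (((X.image fun t => s(W.phi t 1, W.phi t 2)).card * k₂ : ℕ) : ℝ) := by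
      have h3 : (X.card : ℝ) ≤
          (((X.image fun t => s(W.phi t 1, W.phi t 2)).card * k₂ : ℕ) : ℝ) := by
        exact_mod_cast hfib
      push_cast at h3 ⊢
      linarith
    have h4 := Nat.cast_le.mp h2
    exact Nat.le_of_mul_le_mul_right h4 hk₂
  refine W.codeII_of_distinct (E₁ := {s(v, w)}) hT.deg (Finset.singleton_subset_iff.mpr hvw)
    (by simp) ?_ ?_ (T₀ := X) ?_ (fun t => s(W.phi t 1, W.phi t 2)) ?_ hK
  · intro u
    unfold dg
    exact (Finset.card_le_card (Finset.filter_subset _ _)).trans (by simp)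
  · refine Nat.le_floor ?_
    have h5 := W.card_one_edge hT (W.wrong_subset_edgeSet hvw)
    refine le_trans ?_ h5
    refine Nat.cast_le.mpr (Finset.card_le_card ?_)
    intro t ht
    rw [mem_filter] at ht ⊢
    refine ⟨ht.1, ?_⟩
    obtain ⟨e, he⟩ := Finset.card_eq_one.mp ht.2.1
    have h6 : e ∈ W.wr t := by rw [he]; exact mem_singleton_self e
    have h7 := mem_singleton.mp (ht.2.2 h6)
    rw [h7] at h6
    exact (mem_inter.mp h6).1
  · intro t ht
    obtain ⟨g1, g2, g3, g4, g5⟩ := hmX t ht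
    exact ⟨g1, g4, by rw [hwrX t ht]⟩
  · intro t ht
    obtain ⟨g1, g2, g3, g4, g5⟩ := hmX t ht
    refine ⟨?_, g5⟩
    unfold far
    simp

/-- many wrong edges with unexplained cycles -/
theorem code_unexplained {D k₁ k₂ : ℕ} {T₁ T₂ : ℝ} (hT : Typ G D k₁ k₂ T₁ T₂)
    (hT₁ : 0 < T₁) (hT₂ : 0 < T₂)
    {m Δ₁ : ℕ} (hm : 2 ≤ m) {s θ : ℝ} (hs0 : 0 < s) (hs1 : s ≤ 1) (hθ : 0 ≤ θ)
    (II : Finset (Sym2 V)) (hb : 0 < W.wrong.card)
    (hIIc : (W.wrong.card : ℝ) / 8 ≤ II.card)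
    (va wa : Sym2 V → V) (hvw : ∀ e ∈ II, s(va e, wa e) = e)
    (hU : ∀ e ∈ II, T₁ / 10 ≤
      (((W.Nm m (va e) (wa e)).filter fun t => W.UX θ t ∨ W.UX θ (rv t)).card : ℝ))
    (hV : 4 * (m * (10 * T₂) * s ^ (2 * m - 1) + m ^ 2 * (10 * (2 * k₂ + 4 * k₁)) * s ^ m) /
      ((W.wrong.card * T₁ / 160) * s ^ (2 * m)) ≤ 1 / 8)
    (hΔ : (Fintype.card V : ℝ) * ((D.choose (Δ₁ + 1) : ℝ) * s ^ (Δ₁ + 1)) ≤ 1 / 8)
    {K : ℕ} (hK : 17 * (K : ℝ) ≤ (W.wrong.card * T₁ / 160) * s ^ (2 * m) /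
      (32 * (6 * T₂ * s ^ (2 * m) + m * θ * s ^ (2 * m - 1) +
        m ^ 2 * (10 * (2 * k₂ + 4 * k₁)) * s ^ m))) :
    CodeII G m ⌊8 * (10 * T₂ * W.wrong.card * s ^ m)⌋₊ D Δ₁ ⌊8 * (s * W.wrong.card)⌋₊ K := by
  obtain ⟨UE, hUE⟩ : ∃ UE : Finset (Fin 5 → V), UE = univ.filter (fun t : Fin 5 → V =>
    IsC5 H t ∧ (W.wr t).card = m ∧ W.UX θ t) := ⟨_, rfl⟩
  have hbR : (0 : ℝ) < W.wrong.card := by exact_mod_cast hb
  -- lower bound for the number of unexplained cycles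
  have hUEc : W.wrong.card * T₁ / 160 ≤ (UE.card : ℝ) := by
    have e1 : ∑ e ∈ II, ((W.Nm m (va e) (wa e)).filter fun t => W.UX θ t).card ≤ UE.card := by
      rw [← Finset.card_biUnion]
      · refine Finset.card_le_card ?_
        intro t ht
        rw [mem_biUnion] at ht
        obtain ⟨e, he, ht⟩ := ht
        rw [mem_filter, W.mem_Nm] at ht
        rw [hUE, mem_filter]
        exact ⟨mem_univ _, ht.1.1, ht.1.2.2.2, ht.2⟩
      · intro e he e' he' hne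
        rw [Function.onFun, Finset.disjoint_left]
        intro t ht ht'
        rw [mem_filter, W.mem_Nm] at ht ht'
        apply hne
        rw [← hvw e he, ← hvw e' he', ← ht.1.2.1, ← ht.1.2.2.1, ht'.1.2.1, ht'.1.2.2.1]
    have e2 : ∑ e ∈ II, ((W.Nm m (va e) (wa e)).filter fun t => W.UX θ (rv t)).card ≤
        UE.card := by
      rw [← Finset.card_biUnion]
      · refine Finset.card_le_card_of_injOn rv ?_ (rv_inj.injOn)
        intro t ht
        rw [mem_coe, mem_biUnion] at ht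
        obtain ⟨e, he, ht⟩ := ht
        rw [mem_filter, W.mem_Nm] at ht
        rw [mem_coe, hUE, mem_filter]
        exact ⟨mem_univ _, ht.1.1.rev 1, by rw [W.wr_rv]; exact ht.1.2.2.2, ht.2⟩
      · intro e he e' he' hne
        rw [Function.onFun, Finset.disjoint_left]
        intro t ht ht'
        rw [mem_filter, W.mem_Nm] at ht ht'
        apply hne
        rw [← hvw e he, ← hvw e' he', ← ht.1.2.1, ← ht.1.2.2.1, ht'.1.2.1, ht'.1.2.2.1]
    have e3 : ∑ e ∈ II, T₁ / 10 ≤ ∑ e ∈ II,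
        ((((W.Nm m (va e) (wa e)).filter fun t => W.UX θ t).card : ℝ) +
        (((W.Nm m (va e) (wa e)).filter fun t => W.UX θ (rv t)).card : ℝ)) := by
      refine Finset.sum_le_sum (fun e he => (hU e he).trans ?_)
      rw [Finset.filter_or]
      exact_mod_cast Finset.card_union_le _ _
    rw [Finset.sum_add_distrib, Finset.sum_const, nsmul_eq_mul] at e3
    have e1' : ∑ e ∈ II, (((W.Nm m (va e) (wa e)).filter fun t => W.UX θ t).card : ℝ) ≤
        UE.card := by exact_mod_cast e1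
    have e2' : ∑ e ∈ II, (((W.Nm m (va e) (wa e)).filter fun t => W.UX θ (rv t)).card : ℝ) ≤
        UE.card := by exact_mod_cast e2
    have e4 := mul_le_mul_of_nonneg_right hIIc (show 0 ≤ T₁ / 10 by positivity)
    linarith
  have hUEpos : (0 : ℝ) < UE.card := lt_of_lt_of_le (by positivity) hUEc
  have hne : UE.Nonempty := Finset.card_pos.mp (by exact_mod_cast hUEpos)
  have hmem : ∀ t ∈ UE, IsC5 H t ∧ (W.wr t).card = m ∧ W.UX θ t := by
    intro t ht
    rw [hUE, mem_filter] at ht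
    exact ht.2
  have hg : ∀ t ∈ UE, ∃ g, W.Unex θ t g := fun t ht => (hmem t ht).2.2
  have hNe : Nonempty (Sym2 V) := by
    obtain ⟨t, ht⟩ := hne
    exact ⟨(hg t ht).choose⟩
  choose! γ hγ using hg
  have hs2 : 0 < s ^ (2 * m) := by positivity
  obtain ⟨E₁, g1, g2, g3, g4, g5⟩ := W.sampleII (m := m) (Δ₁ := Δ₁) (UE := UE) hT hT₂
    (by omega) hs0 hs1 hθ γ (fun t ht => ⟨(hmem t ht).1, (hmem t ht).2.1, hγ t ht⟩) hne
    (by
      refine le_trans ?_ hV
      refine div_le_div_of_nonneg_left (by positivity) (by positivity) ?_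
      exact mul_le_mul_of_nonneg_right hUEc hs2.le) hΔ
  refine W.codeII_of_distinct hT.deg g1 (Nat.le_floor g2) g4 (Nat.le_floor g3)
    (T₀ := UE.filter fun t => W.wr t ⊆ E₁) ?_ γ ?_ ?_
  · intro t ht
    rw [mem_filter] at ht
    exact ⟨(hmem t ht.1).1, (hmem t ht.1).2.1, ht.2⟩
  · intro t ht
    rw [mem_filter] at ht
    exact ⟨(hγ t ht.1).1, (hγ t ht.1).2.1⟩
  · have h6 : (17 * (K : ℝ)) ≤ (((UE.filter fun t => W.wr t ⊆ E₁).image γ).card : ℝ) := by
      refine hK.trans (le_trans ?_ g5)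
      refine div_le_div_of_nonneg_right ?_ (by positivity)
      exact mul_le_mul_of_nonneg_right hUEc hs2.le
    exact_mod_cast h6

/-- many wrong edges with predicted partners -/
theorem code_predicted {D k₁ k₂ : ℕ} {T₁ T₂ : ℝ} (hT : Typ G D k₁ k₂ T₁ T₂)
    (hT₁ : 0 < T₁) (hT₂ : 0 < T₂)
    {m : ℕ} (hm : 2 ≤ m) {s θ : ℝ} (hs0 : 0 < s) (hs1 : s ≤ 1 / 10) (hθ : 0 < θ)
    (I : Finset (Sym2 V)) (hI : I ⊆ W.wrong) (hb : 0 < W.wrong.card)
    (hIc : (W.wrong.card : ℝ) / 8 ≤ I.card)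
    (va wa : Sym2 V → V) (hvw : ∀ e ∈ I, s(va e, wa e) = e)
    (hU : ∀ e ∈ I, T₁ / 10 ≤
      (((W.Nm m (va e) (wa e)).filter fun t => ¬ (W.UX θ t ∨ W.UX θ (rv t))).card : ℝ))
    (hex : 2 * (2 * k₂ + k₁ * k₁ + (30 * T₂ / θ) * k₂) ≤ T₁ / 20)
    {KA : ℕ} (hKA : 60 * T₂ / θ ≤ KA)
    (hV : 4 * ((m - 1 : ℕ) * (10 * (2 * k₂ + 4 * k₁)) * s ^ (2 * (m - 1) - 1) +
      (m - 1 : ℕ) ^ 2 * (10 * (2 * k₂ + 4 * k₁)) * s ^ (m - 1)) /
      ((T₁ / 20) * s ^ (2 * (m - 1))) ≤ 1 / 10)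
    {K : ℕ} (hK : 144 * K ≤ W.wrong.card) :
    CodeI G D ⌊8 * (s * W.wrong.card)⌋₊ KA K := by
  -- the predicting cycles
  set C : Sym2 V → Finset (Fin 5 → V) := fun e => (W.Nm m (va e) (wa e)).filter fun t =>
    (W.g (va e) (wa e) = wa e ∨ ∃ e' ∈ W.wr t, e' ≠ e ∧ W.g (va e) (wa e) ∈ W.Vp θ e') ∧
    (W.g (wa e) (va e) = va e ∨ ∃ e' ∈ W.wr t, e' ≠ e ∧ W.g (wa e) (va e) ∈ W.Vp θ e') with hC
  have hwrong : ∀ e ∈ I, s(va e, wa e) ∈ W.wrong := fun e he => by rw [hvw e he]; exact hI he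
  have hCL : ∀ e ∈ I, T₁ / 20 ≤ ((C e).card : ℝ) := by
    intro e he
    have h1 := W.card_not_pred hT hT₂.le hθ (hwrong e he)
    have h2 := W.card_not_pred' hT hT₂.le hθ (hwrong e he)
    have h3 : ((W.Nm m (va e) (wa e)).filter fun t => ¬ (W.UX θ t ∨ W.UX θ (rv t))) ⊆
        C e ∪ ((univ.filter fun t : Fin 5 → V => IsC5 H t ∧ t 0 = va e ∧ t 1 = wa e ∧
          ¬ W.UX θ t ∧ ¬ (W.g (va e) (wa e) = wa e ∨ ∃ e' ∈ W.wr t, e' ≠ s(va e, wa e) ∧
            W.g (va e) (wa e) ∈ W.Vp θ e')) ∪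
          (univ.filter fun t : Fin 5 → V => IsC5 H t ∧ t 0 = va e ∧ t 1 = wa e ∧
          ¬ W.UX θ (rv t) ∧ ¬ (W.g (wa e) (va e) = va e ∨ ∃ e' ∈ W.wr t, e' ≠ s(va e, wa e) ∧
            W.g (wa e) (va e) ∈ W.Vp θ e'))) := by
      intro t ht
      rw [mem_filter, W.mem_Nm] at ht
      obtain ⟨⟨g1, g2, g3, g4⟩, g5⟩ := ht
      push Not at g5
      rw [mem_union, mem_union]
      by_cases q1 : (W.g (va e) (wa e) = wa e ∨ ∃ e' ∈ W.wr t, e' ≠ s(va e, wa e) ∧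
            W.g (va e) (wa e) ∈ W.Vp θ e')
      · by_cases q2 : (W.g (wa e) (va e) = va e ∨ ∃ e' ∈ W.wr t, e' ≠ s(va e, wa e) ∧
            W.g (wa e) (va e) ∈ W.Vp θ e')
        · left
          rw [hC, mem_filter, W.mem_Nm]
          rw [hvw e he] at q1 q2
          exact ⟨⟨g1, g2, g3, g4⟩, q1, q2⟩
        · right; right
          rw [mem_filter]
          exact ⟨mem_univ _, g1, g2, g3, g5.2, q2⟩
      · right; left
        rw [mem_filter]
        exact ⟨mem_univ _, g1, g2, g3, g5.1, q1⟩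
    have h4 := (Finset.card_le_card h3).trans ((Finset.card_union_le _ _).trans
      (Nat.add_le_add_left (Finset.card_union_le _ _) _))
    have h5 : (((W.Nm m (va e) (wa e)).filter fun t =>
        ¬ (W.UX θ t ∨ W.UX θ (rv t))).card : ℝ) ≤ ((C e).card : ℝ) +
        (((univ.filter fun t : Fin 5 → V => IsC5 H t ∧ t 0 = va e ∧ t 1 = wa e ∧
          ¬ W.UX θ t ∧ ¬ (W.g (va e) (wa e) = wa e ∨ ∃ e' ∈ W.wr t, e' ≠ s(va e, wa e) ∧
            W.g (va e) (wa e) ∈ W.Vp θ e')).card : ℝ) +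
          ((univ.filter fun t : Fin 5 → V => IsC5 H t ∧ t 0 = va e ∧ t 1 = wa e ∧
          ¬ W.UX θ (rv t) ∧ ¬ (W.g (wa e) (va e) = va e ∨ ∃ e' ∈ W.wr t, e' ≠ s(va e, wa e) ∧
            W.g (wa e) (va e) ∈ W.Vp θ e')).card : ℝ)) := by exact_mod_cast h4
    have h6 := hU e he
    linarith
  have hCm : ∀ e ∈ I, ∀ t ∈ C e, IsC5 H t ∧ t 0 = va e ∧ t 1 = wa e ∧ (W.wr t).card = m ∧
      e ∈ W.wr t := by
    intro e he t ht
    rw [hC, mem_filter, W.mem_Nm] at ht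
    obtain ⟨⟨g1, g2, g3, g4⟩, -⟩ := ht
    refine ⟨g1, g2, g3, g4, mem_inter.mpr ⟨?_, hI he⟩⟩
    have := mem_ced t 0
    rw [zero_add, g2, g3, hvw e he] at this
    exact this
  obtain ⟨E₁, hE, hEc, I', hI', hI'c, hgood⟩ := sample_half (α := Sym2 V) hs0 hs1
    (B := W.wrong) (m := m - 1) I hI C (fun e t => (W.wr t).erase e)
    (fun e he t ht => (Finset.erase_subset _ _).trans Finset.inter_subset_right)
    (fun e he t ht => by
      obtain ⟨-, -, -, h4, h5⟩ := hCm e he t ht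
      rw [Finset.card_erase_of_mem h5, h4])
    (L := T₁ / 20) (c := 10 * (2 * k₂ + 4 * k₁)) (by positivity) hCL (by positivity)
    (fun e he t ht f hf => by
      have hfe : f ≠ e := (mem_erase.mp hf).1
      have h5 := W.card_two_edges hT hfe
      rw [← card_filter_eq_sum_ind]
      refine le_trans ?_ h5
      refine Nat.cast_le.mpr (Finset.card_le_card ?_)
      intro t' ht'
      rw [mem_filter] at ht'
      obtain ⟨g1, g2, g3, g4, g5⟩ := hCm e he t' ht'.1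
      rw [mem_filter, W.mem_CH]
      exact ⟨g1, (mem_inter.mp (mem_erase.mp ht'.2).2).1, (mem_inter.mp g5).1⟩) hV
  have hNe : Nonempty (Fin 5 → V) := by
    obtain ⟨e, -⟩ := Finset.card_pos.mp hb
    induction e using Sym2.ind with
    | _ a b => exact ⟨fun _ => a⟩
  choose! hnE τ hτC hτE using hgood
  refine W.codeI_of_family (θ := θ) hT.deg hE (Nat.le_floor hEc) ?_ I' (hI'.trans hI) hnE τ ?_ ?_
  · intro e he
    have h1 := W.card_Vp hT (W.wrong_subset_edgeSet he) hθ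
    have h2 : ((W.Vp θ e).card : ℝ) ≤ 60 * T₂ / θ := by
      rw [le_div_iff₀ hθ]
      exact h1
    exact_mod_cast h2.trans hKA
  · intro e he
    have hC' := hτC e he
    obtain ⟨g1, g2, g3, g4, g5⟩ := hCm e (hI' he) _ hC'
    rw [hC, mem_filter] at hC'
    rw [g2, g3]
    refine ⟨g1, hvw e (hI' he), hτE e he, by omega, hC'.2.1, hC'.2.2⟩
  · have h1 : (W.wrong.card : ℝ) ≤ 8 * (2 * I'.card) := by
      have h2 : (I.card : ℝ) ≤ 2 * I'.card := by exact_mod_cast hI'c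
      linarith
    have h3 : W.wrong.card ≤ 8 * (2 * I'.card) := by exact_mod_cast h1
    omega

end Views

end

end Pool.Agent.H90.Shot
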