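import Mathlib
import Pool.Agent.H90.Shot.Reduce

/-!
# The reduction: a second preimage yields a code
-/

set_option autoImplicit false
set_option linter.unusedSectionVars false

open Finset Classical

namespace Pool.Agent.H90.Shot

section

variable {V : Type*} [Fintype V] {G H : SimpleGraph V}

theorem exists_dart (W : Views G H) {e : Sym2 V} (he : e ∈ W.wrong) :
    ∃ v w, s(v, w) = e ∧ W.g v w ≠ w := by
  induction e using Sym2.ind with
  | _ a b =>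
  rcases (W.mem_wrong_mk.mp he).2 with h | h
  · exact ⟨a, b, rfl, h⟩
  · exact ⟨b, a, Sym2.eq_swap, h⟩

theorem card_sym2_le (S : Finset (Sym2 V)) : S.card ≤ Fintype.card V ^ 2 := by
  refine (Finset.card_le_univ S).trans ?_
  have h := Fintype.card_le_of_surjective (fun x : V × V => s(x.1, x.2)) (fun e => by
    induction e using Sym2.ind with
    | _ a b => exact ⟨(a, b), rfl⟩)
  rw [Fintype.card_prod, ← pow_two] at h
  exact h

/-- If `G` is typical and has the same views as `H ≠ G`, then `G` has a code. -/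
theorem reduction {D k₁ k₂ : ℕ} {T₁ T₂ θ s₀ : ℝ} {KA K₀ : ℕ} (hT : Typ G D k₁ k₂ T₁ T₂)
    (W : Views G H) (hne : H ≠ G)
    (hT₁ : 0 < T₁) (hT₂ : 0 < T₂) (hθ : 0 < θ) (hs₀ : 0 < s₀) (hs₀' : s₀ ≤ 1 / 10)
    (hex : 2 * (2 * k₂ + k₁ * k₁ + (30 * T₂ / θ) * k₂) ≤ T₁ / 20)
    (hKA : 60 * T₂ / θ ≤ KA)
    (hK₀ : 17 * K₀ * k₂ ≤ T₁ / 5 - 2 * k₂ - k₁ * k₁)
    (hV₀ : ∀ j : ℕ, 1 ≤ j → j ≤ 4 → 4 * (j * (10 * (2 * k₂ + 4 * k₁)) * s₀ ^ (2 * j - 1) +
      (j : ℝ) ^ 2 * (10 * (2 * k₂ + 4 * k₁)) * s₀ ^ j) / ((T₁ / 20) * s₀ ^ (2 * j)) ≤ 1 / 10)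
    (s : ℕ → ℝ) (Δ₁ : ℕ → ℕ) (hs : ∀ m, 2 ≤ m → m ≤ 5 → 0 < s m ∧ s m ≤ 1)
    (hV : ∀ m : ℕ, 2 ≤ m → m ≤ 5 → ∀ b : ℕ, T₁ / 5 ≤ b * (2 * k₂ + 4 * k₁) →
      4 * (m * (10 * T₂) * s m ^ (2 * m - 1) + m ^ 2 * (10 * (2 * k₂ + 4 * k₁)) * s m ^ m) /
      ((b * T₁ / 160) * s m ^ (2 * m)) ≤ 1 / 8)
    (hΔ : ∀ m, 2 ≤ m → m ≤ 5 →
      (Fintype.card V : ℝ) * ((D.choose (Δ₁ m + 1) : ℝ) * s m ^ (Δ₁ m + 1)) ≤ 1 / 8) :
    CodeII G 1 ⌊10 * T₂⌋₊ D 1 1 K₀ ∨
    ∃ b : ℕ, b ≤ Fintype.card V ^ 2 ∧ T₁ / 5 ≤ b * (2 * k₂ + 4 * k₁) ∧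
      ((∀ K, 144 * K ≤ b → CodeI G D ⌊8 * (s₀ * b)⌋₊ KA K) ∨
      ∃ m, 2 ≤ m ∧ m ≤ 5 ∧ ∀ K : ℕ, 17 * (K : ℝ) ≤ (b * T₁ / 160) * s m ^ (2 * m) /
        (32 * (6 * T₂ * s m ^ (2 * m) + m * θ * s m ^ (2 * m - 1) +
          m ^ 2 * (10 * (2 * k₂ + 4 * k₁)) * s m ^ m)) →
        CodeII G m ⌊8 * (10 * T₂ * b * s m ^ m)⌋₊ D (Δ₁ m) ⌊8 * (s m * b)⌋₊ K) := by
  have hb : 0 < W.wrong.card := by
    rw [Finset.card_pos, Finset.nonempty_iff_ne_empty]
    exact fun h => hne (W.eq_of_wrong_empty h)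
  have hex0 : 0 ≤ (30 * T₂ / θ) * k₂ := by positivity
  have hk0 : (0 : ℝ) ≤ 2 * k₂ + k₁ * k₁ := by positivity
  have hNe : Nonempty V := by
    obtain ⟨e, -⟩ := Finset.card_pos.mp hb
    induction e using Sym2.ind with
    | _ a b => exact ⟨a⟩
  have hdart : ∀ e ∈ W.wrong, ∃ v w, s(v, w) = e ∧ W.g v w ≠ w := fun e he => exists_dart W he
  choose! va wa hvw hgne using hdart
  by_cases hz : ∃ e ∈ W.wrong, T₁ / 5 ≤ ((W.Nm 1 (va e) (wa e)).card : ℝ)
  · left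
    obtain ⟨e, he, h1⟩ := hz
    refine W.code_zero hT (v := va e) (w := wa e) ?_ (hgne e he) h1 hK₀ (by linarith)
    rw [hvw e he]
    exact he
  · right
    push Not at hz
    have htype : ∀ e ∈ W.wrong, ∃ m, 2 ≤ m ∧ m ≤ 5 ∧
        T₁ / 5 ≤ ((W.Nm m (va e) (wa e)).card : ℝ) := by
      intro e he
      refine W.exists_type hT ?_ (hz e he)
      rw [hvw e he]
      exact he
    choose! μ hμ2 hμ5 hμ using htype
    -- pigeonhole
    obtain ⟨m, hm, hmc⟩ : ∃ m ∈ Finset.Icc 2 5,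
        W.wrong.card ≤ 4 * (W.wrong.filter fun e => μ e = m).card := by
      by_contra hcon
      push Not at hcon
      have h1 := Finset.card_eq_sum_card_fiberwise (f := μ) (s := W.wrong)
        (t := Finset.Icc 2 5) (fun e he => by
          rw [mem_coe, Finset.mem_Icc]
          exact ⟨hμ2 e he, hμ5 e he⟩)
      have h2 : ∑ m ∈ Finset.Icc 2 5, 4 * (W.wrong.filter fun e => μ e = m).card <
          ∑ _m ∈ Finset.Icc 2 5, W.wrong.card :=
        Finset.sum_lt_sum_of_nonempty ⟨2, by simp⟩ hcon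
      rw [← Finset.mul_sum, Finset.sum_const, smul_eq_mul] at h2
      have h3 : (Finset.Icc 2 5).card = 4 := by simp
      rw [h3] at h2
      have h4 : ∑ m ∈ Finset.Icc 2 5, (W.wrong.filter fun e => μ e = m).card =
          W.wrong.card := by rw [h1]
      omega
    rw [Finset.mem_Icc] at hm
    obtain ⟨Bm, hBm⟩ : ∃ Bm, Bm = W.wrong.filter fun e => μ e = m := ⟨_, rfl⟩
    rw [← hBm] at hmc
    have hBmw : ∀ e ∈ Bm, e ∈ W.wrong ∧ T₁ / 5 ≤ ((W.Nm m (va e) (wa e)).card : ℝ) := by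
      intro e he
      rw [hBm, mem_filter] at he
      have := hμ e he.1
      rw [he.2] at this
      exact ⟨he.1, this⟩
    obtain ⟨e₀, he₀⟩ : Bm.Nonempty := by
      rw [← Finset.card_pos]
      omega
    have hbl : T₁ / 5 ≤ (W.wrong.card : ℝ) * (2 * k₂ + 4 * k₁) :=
      (hBmw e₀ he₀).2.trans (W.wrong_large hT hm.1)
    refine ⟨W.wrong.card, card_sym2_le _, hbl, ?_⟩
    obtain ⟨II, hII⟩ : ∃ II, II = Bm.filter (fun e => T₁ / 10 ≤
      (((W.Nm m (va e) (wa e)).filter fun t => W.UX θ t ∨ W.UX θ (rv t)).card : ℝ)) := ⟨_, rfl⟩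
    obtain ⟨I, hI⟩ : ∃ I, I = Bm.filter (fun e => ¬ T₁ / 10 ≤
      (((W.Nm m (va e) (wa e)).filter fun t => W.UX θ t ∨ W.UX θ (rv t)).card : ℝ)) := ⟨_, rfl⟩
    have hsum : II.card + I.card = Bm.card := by
      rw [hII, hI]
      exact Finset.card_filter_add_card_filter_not _
    by_cases hcase : W.wrong.card ≤ 8 * II.card
    · right
      refine ⟨m, hm.1, hm.2, fun K hK => ?_⟩
      refine W.code_unexplained hT hT₁ hT₂ hm.1 (hs m hm.1 hm.2).1 (hs m hm.1 hm.2).2 hθ.le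
        II hb ?_ va wa ?_ ?_ (hV m hm.1 hm.2 _ hbl) (hΔ m hm.1 hm.2) hK
      · have : (W.wrong.card : ℝ) ≤ 8 * II.card := by exact_mod_cast hcase
        linarith
      · intro e he
        rw [hII, mem_filter] at he
        exact hvw e (hBmw e he.1).1
      · intro e he
        rw [hII, mem_filter] at he
        exact he.2
    · left
      intro K hK
      have hIc : W.wrong.card ≤ 8 * I.card := by omega
      refine W.code_predicted hT hT₁ hT₂ hm.1 hs₀ hs₀' hθ I ?_ hb ?_ va wa ?_ ?_ hex hKA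
        (hV₀ (m - 1) (by omega) (by omega)) hK
      · intro e he
        rw [hI, mem_filter] at he
        exact (hBmw e he.1).1
      · have : (W.wrong.card : ℝ) ≤ 8 * I.card := by exact_mod_cast hIc
        linarith
      · intro e he
        rw [hI, mem_filter] at he
        exact hvw e (hBmw e he.1).1
      · intro e he
        rw [hI, mem_filter] at he
        have h1 := (hBmw e he.1).2
        have h2 := he.2
        push Not at h2
        have h3 := Finset.card_filter_add_card_filter_not (s := W.Nm m (va e) (wa e))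
          (fun t => W.UX θ t ∨ W.UX θ (rv t))
        have h4 : (((W.Nm m (va e) (wa e)).filter fun t => W.UX θ t ∨ W.UX θ (rv t)).card : ℝ) +
          (((W.Nm m (va e) (wa e)).filter fun t => ¬ (W.UX θ t ∨ W.UX θ (rv t))).card : ℝ) =
          ((W.Nm m (va e) (wa e)).card : ℝ) := by exact_mod_cast h3
        linarith

end

end Pool.Agent.H90.Shot
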