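import Mathlib
import Pool.Agent.H90.Shot.Param
import Pool.Agent.H90.Shot.Reduction

/-!
# The reduction with explicit parameters
-/

set_option autoImplicit false

open Filter

namespace Pool.Agent.H90.Shot

theorem hV_of {m : ℕ} (hm : 2 ≤ m) (hm5 : m ≤ 5) {s T₁ T₂ K2 b : ℝ} (hs : 0 < s)
    (hT₁ : 0 < T₁) (hT₂ : 0 < T₂) (hK2 : 0 ≤ K2) (hb : 0 < b)
    (h1 : 512000 * T₂ ≤ b * T₁ * s) (h2 : 256000 * K2 ≤ b * T₁ * s ^ m) :
    4 * (m * (10 * T₂) * s ^ (2 * m - 1) + m ^ 2 * K2 * s ^ m) /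
      ((b * T₁ / 160) * s ^ (2 * m)) ≤ 1 / 8 := by
  rw [div_le_iff₀ (by positivity)]
  have e1 : s ^ (2 * m) = s * s ^ (2 * m - 1) := by
    rw [← pow_succ']
    congr 1
    omega
  have e2 : s ^ (2 * m) = s ^ m * s ^ m := by
    rw [← pow_add]
    congr 1
    omega
  have hmR : (m : ℝ) ≤ 5 := by exact_mod_cast hm5
  have hm0 : (0 : ℝ) ≤ m := Nat.cast_nonneg m
  have p1 : 0 < s ^ (2 * m - 1) := by positivity
  have p2 : 0 < s ^ m := by positivity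
  have q1 := mul_le_mul_of_nonneg_right h1 p1.le
  have q2 := mul_le_mul_of_nonneg_right h2 p2.le
  have q3 : m * (10 * T₂) * s ^ (2 * m - 1) ≤ 5 * (10 * T₂) * s ^ (2 * m - 1) :=
    mul_le_mul_of_nonneg_right (mul_le_mul_of_nonneg_right hmR (by positivity)) p1.le
  have hm25 : (m : ℝ) ^ 2 ≤ 25 := by nlinarith
  have q4 : (m : ℝ) ^ 2 * K2 * s ^ m ≤ 25 * K2 * s ^ m :=
    mul_le_mul_of_nonneg_right (mul_le_mul_of_nonneg_right hm25 hK2) p2.le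
  have r1 : b * T₁ * s * s ^ (2 * m - 1) = b * T₁ * s ^ (2 * m) := by rw [e1]; ring
  have r2 : b * T₁ * s ^ m * s ^ m = b * T₁ * s ^ (2 * m) := by rw [e2]; ring
  rw [r1] at q1
  rw [r2] at q2
  linarith

theorem hV₀_of {j : ℕ} (hj : 1 ≤ j) (hj4 : j ≤ 4) {s T₁ K2 : ℝ} (hs : 0 < s) (hs1 : s ≤ 1)
    (hT₁ : 0 < T₁) (hK2 : 0 ≤ K2) (h1 : 16000 * K2 ≤ T₁ * s ^ 4) :
    4 * (j * K2 * s ^ (2 * j - 1) + (j : ℝ) ^ 2 * K2 * s ^ j) / ((T₁ / 20) * s ^ (2 * j)) ≤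
      1 / 10 := by
  rw [div_le_iff₀ (by positivity)]
  have e2 : s ^ (2 * j) = s ^ j * s ^ j := by
    rw [← pow_add]
    congr 1
    omega
  have hjR : (j : ℝ) ≤ 4 := by exact_mod_cast hj4
  have hj0 : (0 : ℝ) ≤ j := Nat.cast_nonneg j
  have p2 : 0 < s ^ j := by positivity
  have h3 : s ^ (2 * j - 1) ≤ s ^ j := pow_le_pow_of_le_one hs.le hs1 (by omega)
  have h4 : s ^ 4 ≤ s ^ j := pow_le_pow_of_le_one hs.le hs1 hj4
  have q1 : j * K2 * s ^ (2 * j - 1) ≤ 4 * K2 * s ^ j :=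
    mul_le_mul (mul_le_mul_of_nonneg_right hjR hK2) h3 (by positivity) (by positivity)
  have hj16 : (j : ℝ) ^ 2 ≤ 16 := by nlinarith
  have q2 : (j : ℝ) ^ 2 * K2 * s ^ j ≤ 16 * K2 * s ^ j :=
    mul_le_mul_of_nonneg_right (mul_le_mul_of_nonneg_right hj16 hK2) p2.le
  have q3 : 16000 * K2 ≤ T₁ * s ^ j := h1.trans (mul_le_mul_of_nonneg_left h4 hT₁.le)
  have q4 := mul_le_mul_of_nonneg_right q3 p2.le
  rw [e2]
  linarith

theorem R_ge {m : ℕ} (hm : 2 ≤ m) (hm5 : m ≤ 5) {s T₁ T₂ K2 b K' : ℝ} (hs : 0 < s)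
    (hT₁ : 0 < T₁) (hT₂ : 0 < T₂) (hK2 : 0 ≤ K2) (hb : 0 < b) (hK' : 0 < K')
    (h1 : s ≤ 1 / K') (h2 : 25 * K2 * K' ≤ T₂ * s ^ (m - 1)) :
    b * s * T₁ * K' / (61440 * T₂) ≤ (b * T₁ / 160) * s ^ (2 * m) /
        (32 * (6 * T₂ * s ^ (2 * m) + m * (T₂ / K') * s ^ (2 * m - 1) +
          m ^ 2 * K2 * s ^ m)) := by
  have e1 : s ^ (2 * m) = s * s ^ (2 * m - 1) := by
    rw [← pow_succ']
    congr 1
    omega
  have e3 : s ^ (2 * m - 1) = s ^ (m - 1) * s ^ m := by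
    rw [← pow_add]
    congr 1
    omega
  have hmR : (m : ℝ) ≤ 5 := by exact_mod_cast hm5
  have hm2 : (2 : ℝ) ≤ m := by exact_mod_cast hm
  have hm0 : (0 : ℝ) ≤ m := Nat.cast_nonneg m
  have p1 : 0 < s ^ (2 * m - 1) := by positivity
  have p2 : 0 < s ^ m := by positivity
  set P := s ^ (2 * m - 1) with hP
  have hsK : s * K' ≤ 1 := by
    rw [le_div_iff₀ hK'] at h1
    exact h1
  -- the denominator
  have d1 : 6 * T₂ * s ^ (2 * m) ≤ 6 * T₂ * P / K' := by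
    rw [e1, le_div_iff₀ hK']
    have := mul_le_mul_of_nonneg_left hsK (show 0 ≤ 6 * T₂ * P by positivity)
    linarith
  have d2 : m * (T₂ / K') * P ≤ 5 * T₂ * P / K' := by
    have := mul_le_mul_of_nonneg_right hmR (show 0 ≤ T₂ / K' * P by positivity)
    calc m * (T₂ / K') * P = m * (T₂ / K' * P) := by ring
      _ ≤ 5 * (T₂ / K' * P) := this
      _ = 5 * T₂ * P / K' := by ring
  have hm25 : (m : ℝ) ^ 2 ≤ 25 := by nlinarith
  have d3 : (m : ℝ) ^ 2 * K2 * s ^ m ≤ T₂ * P / K' := by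
    rw [le_div_iff₀ hK']
    have q1 : (m : ℝ) ^ 2 * K2 * s ^ m ≤ 25 * K2 * s ^ m :=
      mul_le_mul_of_nonneg_right (mul_le_mul_of_nonneg_right hm25 hK2) p2.le
    have q2 := mul_le_mul_of_nonneg_right h2 p2.le
    have q3 := mul_le_mul_of_nonneg_right q1 hK'.le
    have q4 : T₂ * s ^ (m - 1) * s ^ m = T₂ * P := by rw [e3]; ring
    rw [q4] at q2
    linarith
  have hQ : 6 * T₂ * s ^ (2 * m) + m * (T₂ / K') * P + m ^ 2 * K2 * s ^ m ≤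
      12 * T₂ * P / K' := by
    have : 12 * T₂ * P / K' = 6 * T₂ * P / K' + 5 * T₂ * P / K' + T₂ * P / K' := by ring
    linarith
  have hQ0 : 0 < 6 * T₂ * s ^ (2 * m) + m * (T₂ / K') * P + m ^ 2 * K2 * s ^ m := by
    have : 0 ≤ m * (T₂ / K') * P + m ^ 2 * K2 * s ^ m := by positivity
    have h3 : 0 < 6 * T₂ * s ^ (2 * m) := by positivity
    linarith
  have hfin : (b * T₁ / 160) * s ^ (2 * m) / (32 * (12 * T₂ * P / K')) ≤
      (b * T₁ / 160) * s ^ (2 * m) /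
        (32 * (6 * T₂ * s ^ (2 * m) + m * (T₂ / K') * P + m ^ 2 * K2 * s ^ m)) := by
    refine div_le_div_of_nonneg_left (by positivity) (by positivity) ?_
    linarith
  refine le_trans (le_of_eq ?_) hfin
  rw [e1]
  field_simp
  ring

end Pool.Agent.H90.Shot
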