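import Mathlib
import Pool.Agent.H90.Shot.ParamC
import Pool.Agent.H49.Shot.Pack

/-!
# The reduction in the range `n^(-3/4+ε) ≤ p ≤ n^(-2/3-δ)`
-/

set_option autoImplicit false

open Filter

namespace Pool.Agent.H90.Shot

theorem hΔ_of {n D : ℕ} {s Y : ℝ} (hn : 1 ≤ n) (hs : 0 < s) (hY : Real.log n + 3 ≤ Y)
    (hD : Y ≤ D * s) :
    (Fintype.card (Fin n) : ℝ) * ((D.choose (⌈6 * (D * s)⌉₊ + 1) : ℝ) *
      s ^ (⌈6 * (D * s)⌉₊ + 1)) ≤ 1 / 8 := by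
  have hn0 : (0 : ℝ) < n := by exact_mod_cast hn
  rw [Fintype.card_fin]
  set k := ⌈6 * (D * s)⌉₊ + 1 with hk
  have hk1 : 6 * ((D : ℝ) * s) ≤ k := by
    have := Nat.le_ceil (6 * ((D : ℝ) * s))
    rw [hk]
    push_cast
    linarith
  have h1 := Pool.Agent.H49.Shot.choose_mul_pow_le hs.le hk1
  have h2 : ((1 : ℝ) / 2) ^ k ≤ Real.exp (-(Real.log n + 3)) := by
    have e : ((1 : ℝ) / 2) ^ k = Real.exp (-(Real.log 2 * k)) := by
      rw [one_div, inv_pow, ← Real.exp_log (show (0 : ℝ) < 2 by norm_num), ← Real.exp_nat_mul,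
        ← Real.exp_neg, Real.exp_log (by norm_num)]
      ring_nf
    rw [e]
    refine Real.exp_le_exp.mpr ?_
    have h3 : (1 : ℝ) / 2 ≤ Real.log 2 := by
      have := Real.log_two_gt_d9
      linarith
    have h4 : 0 ≤ Real.log n := Real.log_nonneg (by exact_mod_cast hn)
    have h5 : (0 : ℝ) ≤ k := Nat.cast_nonneg k
    have h6 := mul_le_mul_of_nonneg_right h3 h5
    have h7 : 6 * Y ≤ k := by linarith
    nlinarith
  have h3 : Real.exp (-(Real.log n + 3)) = (n : ℝ)⁻¹ * Real.exp (-3) := by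
    rw [neg_add, Real.exp_add, Real.exp_neg, Real.exp_log hn0]
  have h4 : Real.exp (-3) ≤ 1 / 8 := by
    rw [Real.exp_neg, one_div]
    refine inv_anti₀ (by norm_num) ?_
    have h5 := Real.exp_one_gt_d9
    have h6 : Real.exp 3 = Real.exp 1 ^ 3 := by
      rw [← Real.exp_nat_mul]
      norm_num
    rw [h6]
    have h7 : (2 : ℝ) ^ 3 ≤ Real.exp 1 ^ 3 := pow_le_pow_left₀ (by norm_num) (by linarith) 3
    linarith
  calc (n : ℝ) * ((D.choose k : ℝ) * s ^ k) ≤ n * ((n : ℝ)⁻¹ * Real.exp (-3)) :=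
        mul_le_mul_of_nonneg_left (h1.trans (h2.trans h3.le)) hn0.le
    _ = Real.exp (-3) := by field_simp
    _ ≤ 1 / 8 := h4

/-- The reduction with explicit parameters. -/
theorem reduction_C {δ : ℝ} (hδ : 0 < δ) (k₁ k₂ : ℕ) {c₁ C₂ : ℝ} (hc₁ : 0 < c₁) (hC₂ : 0 < C₂) :
    ∃ (σ s₀ κ₀ B : ℝ) (KA : ℕ), 0 < σ ∧ σ ≤ 1 ∧ 0 < s₀ ∧ (2 + 2 * KA) * 8 * s₀ ≤ 1 / 2304 ∧
      0 < κ₀ ∧ ∀ (ε : ℝ) (n : ℕ) (p : ℝ), RC ε δ n p → B ≤ YY ε (3 * δ) σ n →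
      Real.log n + 3 ≤ YY ε (3 * δ) σ n → ∀ G H : SimpleGraph (Fin n),
      Typ G ⌈6 * n * p⌉₊ k₁ k₂ (c₁ * n ^ 3 * p ^ 4) (C₂ * n ^ 3 * p ^ 4) →
      Nonempty (Views G H) → H ≠ G →
      CodeII G 1 ⌊10 * (C₂ * n ^ 3 * p ^ 4)⌋₊ ⌈6 * n * p⌉₊ 1 1 ⌊κ₀ * (n ^ 3 * p ^ 4)⌋₊ ∨
      ∃ b : ℕ, b ≤ n ^ 2 ∧ 9216 ≤ b ∧
        (CodeI G ⌈6 * n * p⌉₊ ⌊8 * (s₀ * b)⌋₊ KA (b / 144) ∨
        ∃ m, 2 ≤ m ∧ m ≤ 5 ∧ 9216 ≤ sm (3 * δ) σ n p m * b ∧
          CodeII G m ⌊8 * (10 * (C₂ * n ^ 3 * p ^ 4) * b * sm (3 * δ) σ n p m ^ m)⌋₊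
            ⌈6 * n * p⌉₊ ⌈6 * (⌈6 * n * p⌉₊ * sm (3 * δ) σ n p m)⌉₊
            ⌊8 * (sm (3 * δ) σ n p m * b)⌋₊ ⌈132 / (3 * δ) * (sm (3 * δ) σ n p m * b)⌉₊) := by
  -- constants
  obtain ⟨κ, hκ⟩ : ∃ κ : ℝ, κ = 132 / (3 * δ) := ⟨_, rfl⟩
  have hκ0 : 0 < κ := by rw [hκ]; positivity
  obtain ⟨κ2, hκ2⟩ : ∃ κ2 : ℝ, κ2 = 2 * k₂ + 4 * k₁ + 1 := ⟨_, rfl⟩
  have hκ20 : 0 < κ2 := by rw [hκ2]; positivity
  obtain ⟨K', hK'⟩ := exists_nat_ge (17 * (κ + 1) * 61440 * C₂ / c₁ + 1)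
  have hK'1 : (1 : ℝ) ≤ K' := by
    have : 0 ≤ 17 * (κ + 1) * 61440 * C₂ / c₁ := by positivity
    linarith
  have hK'0 : (0 : ℝ) < K' := by linarith
  obtain ⟨s₀, hs₀⟩ : ∃ s₀ : ℝ, s₀ = 1 / (18432 * (2 + 2 * ((60 * K' : ℕ) : ℝ))) := ⟨_, rfl⟩
  have hs₀0 : 0 < s₀ := by rw [hs₀]; positivity
  have hs₀1 : s₀ ≤ 1 / 10 := by
    rw [hs₀]
    refine one_div_le_one_div_of_le (by norm_num) ?_
    have : (0 : ℝ) ≤ ((60 * K' : ℕ) : ℝ) := Nat.cast_nonneg _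
    linarith
  obtain ⟨κ₀, hκ₀⟩ : ∃ κ₀ : ℝ, κ₀ = c₁ / (170 * (k₂ + 1)) := ⟨_, rfl⟩
  have hκ₀0 : 0 < κ₀ := by rw [hκ₀]; positivity
  obtain ⟨B, hB⟩ : ∃ B : ℝ, B = 1 + 40 * (2 * k₂ + k₁ * k₁ + 30 * K' * k₂) / c₁ +
    160000 * κ2 / (c₁ * s₀ ^ 4) + 2560000 * κ2 * C₂ / c₁ ^ 2 + 12800000 * κ2 ^ 2 / c₁ ^ 2 +
    250 * κ2 * K' / C₂ + 46080 * κ2 / c₁ := ⟨_, rfl⟩
  refine ⟨1 / K', s₀, κ₀, B, 60 * K', by positivity, ?_, hs₀0, ?_, hκ₀0, ?_⟩
  · rw [div_le_one hK'0]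
    exact hK'1
  · rw [hs₀]
    have : (0 : ℝ) ≤ ((60 * K' : ℕ) : ℝ) := Nat.cast_nonneg _
    rw [mul_one_div, div_le_div_iff₀ (by positivity) (by norm_num)]
    linarith
  intro ε n p hR hBY hlog G H hT hW hne
  obtain ⟨W⟩ := hW
  have hσ1 : 1 / (K' : ℝ) ≤ 1 := by rw [div_le_one hK'0]; exact hK'1
  have hσ0 : 0 < 1 / (K' : ℝ) := by positivity
  obtain ⟨Y, hY⟩ : ∃ Y, Y = YY ε (3 * δ) (1 / (K' : ℝ)) n := ⟨_, rfl⟩
  have hfacts : ∀ m, 2 ≤ m → m ≤ 5 → _ := fun m hm hm5 => sm_facts hR hσ0 hσ1 hm hm5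
  rw [← hY] at hBY hlog hfacts
  have hn0 : (0 : ℝ) < n := by linarith [hR.n_pos]
  have hn1 : 1 ≤ n := by exact_mod_cast hR.n_pos
  have hp0 := hR.p_pos
  obtain ⟨T, hTd⟩ : ∃ T : ℝ, T = (n : ℝ) ^ 3 * p ^ 4 := ⟨_, rfl⟩
  have hT0 : 0 < T := by rw [hTd]; positivity
  have eT₁ : c₁ * n ^ 3 * p ^ 4 = c₁ * T := by rw [hTd]; ring
  have eT₂ : C₂ * n ^ 3 * p ^ 4 = C₂ * T := by rw [hTd]; ring
  rw [eT₁, eT₂] at hT
  rw [eT₂]
  rw [← hTd] at hfacts ⊢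
  -- consequences of `B ≤ Y`
  have t1 : 0 ≤ 40 * (2 * k₂ + k₁ * k₁ + 30 * K' * k₂) / c₁ := by positivity
  have t2 : 0 ≤ 160000 * κ2 / (c₁ * s₀ ^ 4) := by positivity
  have t3 : 0 ≤ 2560000 * κ2 * C₂ / c₁ ^ 2 := by positivity
  have t4 : 0 ≤ 12800000 * κ2 ^ 2 / c₁ ^ 2 := by positivity
  have t5 : 0 ≤ 250 * κ2 * K' / C₂ := by positivity
  have t6 : 0 ≤ 46080 * κ2 / c₁ := by positivity
  have y0 : 1 ≤ Y := by linarith
  have y1 : 40 * (2 * k₂ + k₁ * k₁ + 30 * K' * k₂) ≤ c₁ * Y := by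
    have : 40 * (2 * k₂ + k₁ * k₁ + 30 * K' * k₂) / c₁ ≤ Y := by linarith
    rw [div_le_iff₀ hc₁] at this
    linarith
  have y2 : 160000 * κ2 ≤ c₁ * Y * s₀ ^ 4 := by
    have : 160000 * κ2 / (c₁ * s₀ ^ 4) ≤ Y := by linarith
    rw [div_le_iff₀ (by positivity)] at this
    linarith
  have y3 : 2560000 * κ2 * C₂ ≤ c₁ ^ 2 * Y := by
    have : 2560000 * κ2 * C₂ / c₁ ^ 2 ≤ Y := by linarith
    rw [div_le_iff₀ (by positivity)] at this
    linarith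
  have y4 : 12800000 * κ2 ^ 2 ≤ c₁ ^ 2 * Y := by
    have : 12800000 * κ2 ^ 2 / c₁ ^ 2 ≤ Y := by linarith
    rw [div_le_iff₀ (by positivity)] at this
    linarith
  have y5 : 250 * κ2 * K' ≤ C₂ * Y := by
    have : 250 * κ2 * K' / C₂ ≤ Y := by linarith
    rw [div_le_iff₀ hC₂] at this
    linarith
  have y6 : 46080 * κ2 ≤ c₁ * Y := by
    have : 46080 * κ2 / c₁ ≤ Y := by linarith
    rw [div_le_iff₀ hc₁] at this
    linarith
  have hY0 : 0 < Y := by linarith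
  have hYT : Y ≤ T := by
    obtain ⟨f1, f2, f3, f4, f5⟩ := hfacts 2 le_rfl (by norm_num)
    have h1 : sm (3 * δ) (1 / (K' : ℝ)) n p 2 ^ (2 - 1) ≤ 1 :=
      pow_le_one₀ f1.le (f2.trans hσ1)
    calc Y ≤ T * sm (3 * δ) (1 / (K' : ℝ)) n p 2 ^ (2 - 1) := f4
      _ ≤ T * 1 := mul_le_mul_of_nonneg_left h1 hT0.le
      _ = T := mul_one T
  have hcYT : c₁ * Y ≤ c₁ * T := mul_le_mul_of_nonneg_left hYT hc₁.le
  have hK2 : (10 * (2 * (k₂ : ℝ) + 4 * k₁)) ≤ 10 * κ2 := by rw [hκ2]; linarith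
  have hK20 : (0 : ℝ) ≤ 10 * (2 * (k₂ : ℝ) + 4 * k₁) := by positivity
  -- bounds for `b`
  have hbT : ∀ b : ℕ, c₁ * T / 5 ≤ b * (2 * k₂ + 4 * k₁) → c₁ * T ≤ 5 * κ2 * b := by
    intro b hb
    have : (b : ℝ) * (2 * k₂ + 4 * k₁) ≤ b * κ2 :=
      mul_le_mul_of_nonneg_left (by rw [hκ2]; linarith) (Nat.cast_nonneg b)
    linarith
  have hθ : 0 < C₂ * T / K' := by positivity
  have hθ1 : 30 * (C₂ * T) / (C₂ * T / K') = 30 * K' := by field_simp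
  have hθ2 : 60 * (C₂ * T) / (C₂ * T / K') = 60 * K' := by field_simp
  have hred := reduction (θ := C₂ * T / K') (s₀ := s₀) (KA := 60 * K')
    (K₀ := ⌊κ₀ * T⌋₊) hT W hne (by positivity) (by positivity) hθ hs₀0 hs₀1 (by
      rw [hθ1]
      have h2 : 40 * (2 * k₂ + k₁ * k₁ + 30 * K' * k₂) ≤ c₁ * T := y1.trans hcYT
      linarith only [h2]) (by rw [hθ2]; push_cast; exact le_rfl) (by
      have h1 : (⌊κ₀ * T⌋₊ : ℝ) ≤ κ₀ * T := Nat.floor_le (by positivity)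
      have h2 : 17 * (⌊κ₀ * T⌋₊ : ℝ) * k₂ ≤ 17 * (κ₀ * T) * k₂ := by
        refine mul_le_mul_of_nonneg_right ?_ (Nat.cast_nonneg _)
        linarith only [h1]
      have h3 : 17 * (κ₀ * T) * k₂ ≤ c₁ * T / 10 := by
        rw [hκ₀]
        have : 17 * (c₁ / (170 * ((k₂ : ℝ) + 1)) * T) * k₂ =
          (c₁ * T / 10) * (k₂ / ((k₂ : ℝ) + 1)) := by field_simp; ring
        rw [this]
        have h4 : (k₂ : ℝ) / ((k₂ : ℝ) + 1) ≤ 1 := by
          rw [div_le_one (by positivity)]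
          linarith only
        have h5 : 0 ≤ c₁ * T / 10 := by positivity
        exact (mul_le_mul_of_nonneg_left h4 h5).trans (le_of_eq (mul_one _))
      have h6 : 40 * (2 * k₂ + k₁ * k₁ + 30 * K' * k₂) ≤ c₁ * T := y1.trans hcYT
      have h7 : (0 : ℝ) ≤ K' * k₂ := by positivity
      have h8 : (0 : ℝ) ≤ 2 * k₂ + k₁ * k₁ := by positivity
      linarith only [h2, h3, h6, h7, h8])
    (fun j hj hj4 => hV₀_of hj hj4 hs₀0 (hs₀1.trans (by norm_num)) (by positivity) hK20 (by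
      have h1 : c₁ * Y * s₀ ^ 4 ≤ c₁ * T * s₀ ^ 4 :=
        mul_le_mul_of_nonneg_right hcYT (by positivity)
      linarith only [h1, y2, hK2]))
    (sm (3 * δ) (1 / (K' : ℝ)) n p)
    (fun m => ⌈6 * (⌈6 * n * p⌉₊ * sm (3 * δ) (1 / (K' : ℝ)) n p m)⌉₊)
    (fun m hm hm5 => by
      obtain ⟨f1, f2, f3, f4, f5⟩ := hfacts m hm hm5
      exact ⟨f1, f2.trans hσ1⟩)
    (fun m hm hm5 b hb => by
      obtain ⟨f1, f2, f3, f4, f5⟩ := hfacts m hm hm5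
      obtain ⟨s, hs⟩ : ∃ s, s = sm (3 * δ) (1 / (K' : ℝ)) n p m := ⟨_, rfl⟩
      rw [← hs] at f1 f2 f3 f4 f5 ⊢
      have hb1 := hbT b hb
      have hb0 : (0 : ℝ) < b := by
        have : 0 < 5 * κ2 * (b : ℝ) := lt_of_lt_of_le (by positivity) hb1
        exact pos_of_mul_pos_right this (by positivity)
      have hs1 : s ≤ 1 := f2.trans hσ1
      have hTs : Y ≤ T * s := by
        refine f4.trans (mul_le_mul_of_nonneg_left ?_ hT0.le)
        calc s ^ (m - 1) ≤ s ^ 1 := pow_le_pow_of_le_one f1.le hs1 (by omega)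
          _ = s := pow_one s
      refine hV_of hm hm5 f1 (by positivity) (by positivity) hK20 hb0 ?_ ?_
      · -- `512000 T₂ ≤ b T₁ s`
        have g1 : c₁ * T * (c₁ * (T * s)) ≤ 5 * κ2 * b * (c₁ * (T * s)) :=
          mul_le_mul_of_nonneg_right hb1 (by positivity)
        have g2 : c₁ ^ 2 * T * Y ≤ c₁ ^ 2 * T * (T * s) :=
          mul_le_mul_of_nonneg_left hTs (by positivity)
        have g3 : 2560000 * κ2 * C₂ * T ≤ c₁ ^ 2 * Y * T :=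
          mul_le_mul_of_nonneg_right y3 hT0.le
        have g4 : 5 * κ2 * (512000 * (C₂ * T)) ≤ 5 * κ2 * (b * (c₁ * T) * s) := by
          linarith only [g1, g2, g3]
        exact le_of_mul_le_mul_left g4 (by positivity)
      · have e4 : s ^ m = s * s ^ (m - 1) := by
          rw [← pow_succ']
          congr 1
          omega
        have hsm0 : 0 < s ^ (m - 1) := by positivity
        have g1 : c₁ * T * (c₁ * (T * (s * s ^ (m - 1)))) ≤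
            5 * κ2 * b * (c₁ * (T * (s * s ^ (m - 1)))) :=
          mul_le_mul_of_nonneg_right hb1 (by positivity)
        have g2 : Y * Y ≤ (T * s) * (T * s ^ (m - 1)) :=
          mul_le_mul hTs f4 hY0.le (by positivity)
        have g3 : Y ≤ Y * Y := by
          have := mul_le_mul_of_nonneg_left y0 hY0.le
          linarith only [this]
        have g5 : c₁ ^ 2 * Y ≤ c₁ ^ 2 * ((T * s) * (T * s ^ (m - 1))) :=
          mul_le_mul_of_nonneg_left (g3.trans g2) (by positivity)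
        have g6 : 256000 * (10 * (2 * (k₂ : ℝ) + 4 * k₁)) ≤ 2560000 * κ2 := by
          linarith only [hK2]
        rw [e4]
        refine g6.trans ?_
        have g4 : 5 * κ2 * (2560000 * κ2) ≤ 5 * κ2 * (b * (c₁ * T) * (s * s ^ (m - 1))) := by
          linarith only [g1, g5, y4]
        exact le_of_mul_le_mul_left g4 (by positivity))
    (fun m hm hm5 => by
      obtain ⟨f1, f2, f3, f4, f5⟩ := hfacts m hm hm5
      refine hΔ_of hn1 f1 hlog ?_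
      refine f5.trans ?_
      have h1 : 6 * n * p ≤ (⌈6 * n * p⌉₊ : ℝ) := Nat.le_ceil _
      have h2 : (n : ℝ) * p ≤ (⌈6 * n * p⌉₊ : ℝ) := by
        have : 0 < (n : ℝ) * p := by positivity
        linarith only [this, h1]
      calc sm (3 * δ) (1 / (K' : ℝ)) n p m * (n * p)
          ≤ sm (3 * δ) (1 / (K' : ℝ)) n p m * ⌈6 * n * p⌉₊ :=
            mul_le_mul_of_nonneg_left h2 f1.le
        _ = ⌈6 * n * p⌉₊ * sm (3 * δ) (1 / (K' : ℝ)) n p m := mul_comm _ _)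
  rcases hred with h | ⟨b, hbn, hb, h⟩
  · exact Or.inl h
  · right
    rw [Fintype.card_fin] at hbn
    have hb1 := hbT b hb
    have hb0 : (0 : ℝ) < b := by
      have : 0 < 5 * κ2 * (b : ℝ) := lt_of_lt_of_le (by positivity) hb1
      exact pos_of_mul_pos_right this (by positivity)
    have hsb : ∀ m, 2 ≤ m → m ≤ 5 → 9216 ≤ sm (3 * δ) (1 / (K' : ℝ)) n p m * b := by
      intro m hm hm5
      obtain ⟨f1, f2, f3, f4, f5⟩ := hfacts m hm hm5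
      obtain ⟨s, hs⟩ : ∃ s, s = sm (3 * δ) (1 / (K' : ℝ)) n p m := ⟨_, rfl⟩
      rw [← hs] at f1 f2 f3 f4 f5 ⊢
      have hs1 : s ≤ 1 := f2.trans hσ1
      have hTs : Y ≤ T * s := by
        refine f4.trans (mul_le_mul_of_nonneg_left ?_ hT0.le)
        calc s ^ (m - 1) ≤ s ^ 1 := pow_le_pow_of_le_one f1.le hs1 (by omega)
          _ = s := pow_one s
      have g1 : c₁ * T * s ≤ 5 * κ2 * b * s := mul_le_mul_of_nonneg_right hb1 f1.le
      have g2 : c₁ * Y ≤ c₁ * (T * s) := mul_le_mul_of_nonneg_left hTs hc₁.le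
      have g4 : 5 * κ2 * 9216 ≤ 5 * κ2 * (s * b) := by linarith only [g1, g2, y6]
      exact le_of_mul_le_mul_left g4 (by positivity)
    refine ⟨b, hbn, ?_, ?_⟩
    · obtain ⟨f1, f2, f3, f4, f5⟩ := hfacts 2 le_rfl (by norm_num)
      have h1 := hsb 2 le_rfl (by norm_num)
      have h2 : sm (3 * δ) (1 / (K' : ℝ)) n p 2 * b ≤ 1 * b :=
        mul_le_mul_of_nonneg_right (f2.trans hσ1) hb0.le
      have h3 : (9216 : ℝ) ≤ b := by linarith only [h1, h2]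
      exact_mod_cast h3
    · rcases h with h | ⟨m, hm, hm5, h⟩
      · left
        exact h (b / 144) (Nat.mul_div_le b 144)
      · right
        refine ⟨m, hm, hm5, hsb m hm hm5, ?_⟩
        obtain ⟨f1, f2, f3, f4, f5⟩ := hfacts m hm hm5
        have hsb' := hsb m hm hm5
        refine h _ ?_
        obtain ⟨s, hs⟩ : ∃ s, s = sm (3 * δ) (1 / (K' : ℝ)) n p m := ⟨_, rfl⟩
        rw [← hs] at f1 f2 f3 f4 f5 hsb' ⊢
        rw [← hκ]
        refine le_trans ?_ (R_ge hm hm5 f1 (by positivity) (by positivity) hK20 hb0 hK'0 f2 ?_)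
        · have h1 : (⌈κ * (s * b)⌉₊ : ℝ) ≤ κ * (s * b) + 1 := (Nat.ceil_lt_add_one (by positivity)).le
          have h2 : (⌈κ * (s * b)⌉₊ : ℝ) ≤ (κ + 1) * (s * b) := by linarith only [h1, hsb']
          have h3 : 17 * (κ + 1) * 61440 * C₂ ≤ c₁ * K' := by
            have : 17 * (κ + 1) * 61440 * C₂ / c₁ ≤ K' := by linarith only [hK']
            rw [div_le_iff₀ hc₁] at this
            linarith only [this]
          rw [le_div_iff₀ (by positivity)]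
          have h4 := mul_le_mul_of_nonneg_right h3 (show 0 ≤ s * b * T by positivity)
          have h5 := mul_le_mul_of_nonneg_right h2
            (show 0 ≤ 17 * (61440 * (C₂ * T)) by positivity)
          linarith only [h4, h5]
        · have h1 : C₂ * Y ≤ C₂ * (T * s ^ (m - 1)) := mul_le_mul_of_nonneg_left f4 hC₂.le
          have h2 := mul_le_mul_of_nonneg_right hK2 (show (0 : ℝ) ≤ 25 * K' by positivity)
          linarith only [h1, h2, y5]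

end Pool.Agent.H90.Shot
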