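import Mathlib
import Pool.Agent.H90.Shot.ReductionC
import Pool.Agent.H49.Shot.TypC
import Pool.Agent.H49.Shot.ProbC

/-!
# The range `n^(-3/4+ε) ≤ p ≤ n^(-2/3-δ)`
-/

set_option autoImplicit false

open Filter Finset Classical

namespace Pool.Agent.H90.Shot

theorem log_add_le {a c : ℝ} (ha : 0 < a) (hc : 0 < c) :
    ∀ᶠ n : ℕ in atTop, Real.log n + 3 ≤ c * (n : ℝ) ^ a := by
  have h1 : Tendsto (fun n : ℕ => (n : ℝ) ^ (a / 2)) atTop atTop :=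
    (tendsto_rpow_atTop (by positivity)).comp tendsto_natCast_atTop_atTop
  filter_upwards [h1.eventually_ge_atTop 1, h1.eventually_ge_atTop ((2 / a + 3) / c),
    eventually_ge_atTop 1] with n hn1 hn2 hn
  have hn0 : (0 : ℝ) < n := by exact_mod_cast hn
  have h2 : Real.log n ≤ (n : ℝ) ^ (a / 2) / (a / 2) :=
    Real.log_le_rpow_div hn0.le (by positivity)
  have h3 : (n : ℝ) ^ a = (n : ℝ) ^ (a / 2) * (n : ℝ) ^ (a / 2) := by
    rw [← Real.rpow_add hn0]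
    congr 1
    ring
  rw [div_le_iff₀ hc] at hn2
  set y := (n : ℝ) ^ (a / 2) with hy
  have h4 : y / (a / 2) = (2 / a) * y := by field_simp
  rw [h3]
  rw [h4] at h2
  have h5 := mul_le_mul_of_nonneg_right hn2 (show 0 ≤ y by linarith)
  linarith

theorem log_le_YY {ε c σ : ℝ} (hε : 0 < ε) (hc : 0 < c) (hσ : 0 < σ) :
    ∀ᶠ n : ℕ in atTop, Real.log n + 3 ≤ YY ε c σ n := by
  filter_upwards [log_add_le (a := 4 * ε) (c := σ ^ 4) (by positivity) (by positivity),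
    log_add_le (a := 1 / 4) (c := σ) (by positivity) hσ,
    log_add_le (a := c / 4) (c := 1) (by positivity) one_pos] with n h1 h2 h3
  rw [one_mul] at h3
  exact le_min h1 (le_min h2 h3)

theorem num_small {η : ℝ} (hη : 0 < η) : ∀ᶠ n : ℕ in atTop,
    (n : ℝ) ^ (-4 : ℝ) + ((n : ℝ) ^ 2 + 1) * (5 * (n : ℝ) ^ (-4 : ℝ)) ≤ η := by
  obtain ⟨N, hN⟩ := exists_nat_ge (11 / η)
  filter_upwards [eventually_ge_atTop N, eventually_ge_atTop 1] with n hn hn1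
  have h1 : (1 : ℝ) ≤ n := by exact_mod_cast hn1
  have h2 : 11 / η ≤ (n : ℝ) := hN.trans (by exact_mod_cast hn)
  rw [div_le_iff₀ hη] at h2
  have h0 : (0 : ℝ) < n := by linarith
  have e : (n : ℝ) ^ (-4 : ℝ) = 1 / (n : ℝ) ^ 4 := by
    rw [Real.rpow_neg h0.le, one_div]
    congr 1
    norm_cast
  rw [e]
  have e2 : 1 / (n : ℝ) ^ 4 + ((n : ℝ) ^ 2 + 1) * (5 * (1 / (n : ℝ) ^ 4)) =
      (1 + 5 * ((n : ℝ) ^ 2 + 1)) / (n : ℝ) ^ 4 := by ring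
  rw [e2, div_le_iff₀ (by positivity)]
  have h3 : (1 : ℝ) ≤ (n : ℝ) ^ 2 := one_le_pow₀ h1
  have h4 : (11 : ℝ) * (n : ℝ) ^ 2 ≤ (n * η) * (n : ℝ) ^ 2 :=
    mul_le_mul_of_nonneg_right h2 (by positivity)
  have h5 : (n * η) * (n : ℝ) ^ 2 ≤ (n * η) * (n : ℝ) ^ 2 * n := by
    have : 0 ≤ (n * η) * (n : ℝ) ^ 2 := by positivity
    exact le_mul_of_one_le_right this h1
  have h6 : (n * η) * (n : ℝ) ^ 2 * n = η * (n : ℝ) ^ 4 := by ring
  linarith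

/-- Range (C). -/
theorem rangeC (ε δ : ℝ) (hε : 0 < ε) (hδ : 0 < δ) (η : ℝ) (hη : 0 < η) :
    ∀ᶠ n : ℕ in atTop, ∀ p : ℝ,
      (n : ℝ) ^ (-3 / 4 + ε) ≤ p → p ≤ (n : ℝ) ^ (-2 / 3 - δ) →
      GP n p (fun G => ∃ H, Nonempty (Views G H) ∧ H ≠ G) ≤ η := by
  obtain ⟨k₁, k₂, c₁, C₂, hc₁, hC₂, htyp⟩ := Pool.Agent.H49.Shot.typ_eventually ε δ hε hδ
  obtain ⟨σ, s₀, κ₀, B, KA, hσ, hσ1, hs₀, hKA, hκ₀, hred⟩ := reduction_C hδ k₁ k₂ hc₁ hC₂
  filter_upwards [htyp (η / 2) (by positivity),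
    Pool.Agent.H49.Shot.P1 ε δ hε hδ (10 * C₂) κ₀ (by positivity) hκ₀,
    Pool.Agent.H49.Shot.P2 ε δ hδ (80 * C₂) 43 (by positivity) (by norm_num),
    Pool.Agent.H49.Shot.P3 ε δ hδ KA s₀ hs₀ (by linarith),
    (tendsto_YY (c := 3 * δ) hε (by positivity) hσ).eventually_ge_atTop B,
    log_le_YY (c := 3 * δ) hε (by positivity) hσ,
    num_small (η := η / 2) (by positivity), eventually_ge_atTop 1] with
    n htyp hP1 hP2 hP3 hB hlog hnum hn p hp hp'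
  have hR := rc_of hε hδ hn hp hp'
  have hn0 : (0 : ℝ) < n := by linarith [hR.n_pos]
  have h0 := hR.p_pos.le
  have h1 := hR.p_le
  have hred' := hred ε n p hR hB hlog
  -- the degree bound
  obtain ⟨D, hD⟩ : ∃ D, D = ⌈6 * n * p⌉₊ := ⟨_, rfl⟩
  have hnp : 1 ≤ (n : ℝ) * p := by
    refine le_trans ?_ hR.d_ge
    exact Real.one_le_rpow hR.n_pos (by norm_num)
  have hD7 : (D : ℝ) ≤ 7 * (n * p) := by
    have : (D : ℝ) ≤ 6 * n * p + 1 := by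
      rw [hD]
      exact (Nat.ceil_lt_add_one (by positivity)).le
    linarith
  have hT0 : 0 < (n : ℝ) ^ 3 * p ^ 4 := by
    have := hR.p_pos
    positivity
  have eC : C₂ * (n : ℝ) ^ 3 * p ^ 4 = C₂ * (n ^ 3 * p ^ 4) := by ring
  rw [← hD, eC] at hred'
  have b1 := htyp p hp hp'
  rw [← hD, eC] at b1
  have hsm : ∀ m, 2 ≤ m → m ≤ 5 → _ := fun m hm hm5 => sm_facts hR hσ hσ1 hm hm5
  have hq0 : (0 : ℝ) ≤ (n : ℝ) ^ (-4 : ℝ) := Real.rpow_nonneg hn0.le _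
  -- the bad event
  have hbad : GP n p (fun G => ∃ H, Nonempty (Views G H) ∧ H ≠ G) ≤
      GP n p (fun G => (¬ Typ G D k₁ k₂ (c₁ * n ^ 3 * p ^ 4) (C₂ * (n ^ 3 * p ^ 4))) ∨
        ((CodeII G 1 ⌊10 * (C₂ * ((n : ℝ) ^ 3 * p ^ 4))⌋₊ D 1 1 ⌊κ₀ * ((n : ℝ) ^ 3 * p ^ 4)⌋₊) ∨
        (∃ b ∈ (range (n ^ 2 + 1)).filter (fun b => 9216 ≤ b),
          (CodeI G D ⌊8 * (s₀ * b)⌋₊ KA (b / 144) ∨
          ∃ m ∈ (Icc 2 5).filter (fun m => 9216 ≤ sm (3 * δ) σ n p m * b),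
            CodeII G m ⌊8 * (10 * (C₂ * ((n : ℝ) ^ 3 * p ^ 4)) * b * sm (3 * δ) σ n p m ^ m)⌋₊
            D ⌈6 * (D * sm (3 * δ) σ n p m)⌉₊
            ⌊8 * (sm (3 * δ) σ n p m * b)⌋₊ ⌈132 / (3 * δ) * (sm (3 * δ) σ n p m * b)⌉₊)))) := by
    refine GP_mono h0 h1 (fun G hG => ?_)
    obtain ⟨H, hW, hne⟩ := hG
    by_cases ht : Typ G D k₁ k₂ (c₁ * n ^ 3 * p ^ 4) (C₂ * (n ^ 3 * p ^ 4))
    · right
      rcases hred' G H ht hW hne with h | ⟨b, hb, hb2, h⟩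
      · exact Or.inl h
      · right
        refine ⟨b, ?_, ?_⟩
        · rw [mem_filter, mem_range]
          exact ⟨by omega, hb2⟩
        · rcases h with h | ⟨m, hm, hm5, hsb, h⟩
          · exact Or.inl h
          · right
            refine ⟨m, ?_, h⟩
            rw [mem_filter, mem_Icc]
            exact ⟨⟨hm, hm5⟩, hsb⟩
    · exact Or.inl ht
  refine hbad.trans ((GP_or_le h0 h1 _ _).trans ?_)
  have b2 : GP n p (fun G => CodeII G 1 ⌊10 * (C₂ * ((n : ℝ) ^ 3 * p ^ 4))⌋₊ D 1 1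
      ⌊κ₀ * ((n : ℝ) ^ 3 * p ^ 4)⌋₊) ≤ (n : ℝ) ^ (-4 : ℝ) := by
    refine hP1 p hp hp' D _ _ hD7 ?_ ?_
    · refine (Nat.floor_le (by positivity)).trans (le_of_eq ?_)
      ring
    · have := Nat.lt_floor_add_one (κ₀ * ((n : ℝ) ^ 3 * p ^ 4))
      linarith
  have b3 : GP n p (fun G => ∃ b ∈ (range (n ^ 2 + 1)).filter (fun b => 9216 ≤ b),
          (CodeI G D ⌊8 * (s₀ * b)⌋₊ KA (b / 144) ∨
          ∃ m ∈ (Icc 2 5).filter (fun m => 9216 ≤ sm (3 * δ) σ n p m * b),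
            CodeII G m ⌊8 * (10 * (C₂ * ((n : ℝ) ^ 3 * p ^ 4)) * b * sm (3 * δ) σ n p m ^ m)⌋₊
            D ⌈6 * (D * sm (3 * δ) σ n p m)⌉₊
            ⌊8 * (sm (3 * δ) σ n p m * b)⌋₊ ⌈132 / (3 * δ) * (sm (3 * δ) σ n p m * b)⌉₊)) ≤
      ((n : ℝ) ^ 2 + 1) * (5 * (n : ℝ) ^ (-4 : ℝ)) := by
    refine (GP_exists_le h0 h1 _ _).trans ?_
    have hb : ∀ b ∈ (range (n ^ 2 + 1)).filter (fun b => 9216 ≤ b),
        GP n p (fun G => (CodeI G D ⌊8 * (s₀ * b)⌋₊ KA (b / 144) ∨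
          ∃ m ∈ (Icc 2 5).filter (fun m => 9216 ≤ sm (3 * δ) σ n p m * b),
            CodeII G m ⌊8 * (10 * (C₂ * ((n : ℝ) ^ 3 * p ^ 4)) * b * sm (3 * δ) σ n p m ^ m)⌋₊
            D ⌈6 * (D * sm (3 * δ) σ n p m)⌉₊
            ⌊8 * (sm (3 * δ) σ n p m * b)⌋₊ ⌈132 / (3 * δ) * (sm (3 * δ) σ n p m * b)⌉₊)) ≤
        5 * (n : ℝ) ^ (-4 : ℝ) := by
      intro b hb
      rw [mem_filter] at hb
      have hb9 : (9216 : ℝ) ≤ b := by exact_mod_cast hb.2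
      refine (GP_or_le h0 h1 _ _).trans ?_
      have c1 : GP n p (fun G => CodeI G D ⌊8 * (s₀ * b)⌋₊ KA (b / 144)) ≤
          (n : ℝ) ^ (-4 : ℝ) := by
        refine (hP3 p hp hp' b D _ (by omega) hD7 (Nat.floor_le (by positivity))).trans ?_
        refine Real.rpow_le_rpow_of_exponent_le hR.n_pos ?_
        have : (4 : ℝ) ≤ b / 2304 := by
          rw [le_div_iff₀ (by norm_num)]
          linarith
        linarith
      have c2 : GP n p (fun G => ∃ m ∈ (Icc 2 5).filter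
            (fun m => 9216 ≤ sm (3 * δ) σ n p m * b),
            CodeII G m ⌊8 * (10 * (C₂ * ((n : ℝ) ^ 3 * p ^ 4)) * b * sm (3 * δ) σ n p m ^ m)⌋₊
            D ⌈6 * (D * sm (3 * δ) σ n p m)⌉₊
            ⌊8 * (sm (3 * δ) σ n p m * b)⌋₊ ⌈132 / (3 * δ) * (sm (3 * δ) σ n p m * b)⌉₊) ≤
          4 * (n : ℝ) ^ (-4 : ℝ) := by
        refine (GP_exists_le h0 h1 _ _).trans ?_
        have hm : ∀ m ∈ (Icc 2 5).filter (fun m => 9216 ≤ sm (3 * δ) σ n p m * b),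
            GP n p (fun G => CodeII G m
              ⌊8 * (10 * (C₂ * ((n : ℝ) ^ 3 * p ^ 4)) * b * sm (3 * δ) σ n p m ^ m)⌋₊
              D ⌈6 * (D * sm (3 * δ) σ n p m)⌉₊
              ⌊8 * (sm (3 * δ) σ n p m * b)⌋₊
              ⌈132 / (3 * δ) * (sm (3 * δ) σ n p m * b)⌉₊) ≤ (n : ℝ) ^ (-4 : ℝ) := by
          intro m hm
          rw [mem_filter, mem_Icc] at hm
          obtain ⟨⟨hm2, hm5⟩, hsb⟩ := hm
          obtain ⟨f1, f2, f3, f4, f5⟩ := hsm m hm2 hm5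
          obtain ⟨s, hs⟩ : ∃ s, s = sm (3 * δ) σ n p m := ⟨_, rfl⟩
          rw [← hs] at f1 f2 f3 f4 f5 hsb ⊢
          have hY1 : 3 ≤ YY ε (3 * δ) σ n := by
            have := Real.log_nonneg hR.n_pos
            linarith
          refine (hP2 p hp hp' m hm2 hm5 s f1 (f2.trans hσ1) b D _ _ _ _ hD7 f3
            (by linarith) (Nat.floor_le (by linarith)) ?_ ?_ (Nat.le_ceil _)).trans ?_
          · refine (Nat.floor_le (by positivity)).trans (le_of_eq ?_)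
            ring
          · have g1 : (⌈6 * (D * s)⌉₊ : ℝ) ≤ 6 * (D * s) + 1 :=
              (Nat.ceil_lt_add_one (by positivity)).le
            have g2 : (D : ℝ) * s ≤ 7 * (n * p) * s := mul_le_mul_of_nonneg_right hD7 f1.le
            linarith
          · refine Real.rpow_le_rpow_of_exponent_le hR.n_pos ?_
            linarith
        refine (Finset.sum_le_sum hm).trans ?_
        rw [Finset.sum_const, nsmul_eq_mul]
        refine mul_le_mul_of_nonneg_right ?_ hq0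
        have h4 : ((Icc 2 5).filter (fun m => 9216 ≤ sm (3 * δ) σ n p m * b)).card ≤ 4 := by
          refine (Finset.card_filter_le _ _).trans ?_
          simp
        exact_mod_cast h4
      linarith
    refine (Finset.sum_le_sum hb).trans ?_
    rw [Finset.sum_const, nsmul_eq_mul]
    refine mul_le_mul_of_nonneg_right ?_ (by positivity)
    have h4 : ((range (n ^ 2 + 1)).filter (fun b => 9216 ≤ b)).card ≤ n ^ 2 + 1 := by
      refine (Finset.card_filter_le _ _).trans ?_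
      simp
    exact_mod_cast h4
  have b23 := GP_or_le h0 h1 (fun G : SimpleGraph (Fin n) =>
    CodeII G 1 ⌊10 * (C₂ * ((n : ℝ) ^ 3 * p ^ 4))⌋₊ D 1 1 ⌊κ₀ * ((n : ℝ) ^ 3 * p ^ 4)⌋₊)
    (fun G => ∃ b ∈ (range (n ^ 2 + 1)).filter (fun b => 9216 ≤ b),
          (CodeI G D ⌊8 * (s₀ * b)⌋₊ KA (b / 144) ∨
          ∃ m ∈ (Icc 2 5).filter (fun m => 9216 ≤ sm (3 * δ) σ n p m * b),
            CodeII G m ⌊8 * (10 * (C₂ * ((n : ℝ) ^ 3 * p ^ 4)) * b * sm (3 * δ) σ n p m ^ m)⌋₊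
            D ⌈6 * (D * sm (3 * δ) σ n p m)⌉₊
            ⌊8 * (sm (3 * δ) σ n p m * b)⌋₊ ⌈132 / (3 * δ) * (sm (3 * δ) σ n p m * b)⌉₊))
  linarith

end Pool.Agent.H90.Shot
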